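import Pool.Agent.Helper74.C5.Cor

/-!
# The four group cap (level two) in the class of critical connected sets
-/

set_option linter.unusedSectionVars false

open Finset

namespace Pool.Agent.Helper20.C5

open Pool.Agent.Helper74.C5

variable {α ι : Type} [DecidableEq α] [DecidableEq ι] [Fintype ι]
variable {J K : Type} [DecidableEq J] [Fintype J] [DecidableEq K] [Fintype K]

section

variable {b : ι → Finset α} {V W : Finset α} {g : J → Finset α} {I : J → Finset ι}
  {O : K → Finset J}

/-- Covering a part of the capped system. -/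
theorem capL_cover (h : Cap b V W g I O) {W' : Finset α} (hW' : W' ⊆ W) {T : Finset K}
    {Z : Finset J} (hT : ∀ j ∈ Z, ∃ t ∈ T, j ∈ O t) :
    tau (cb b W I O) (W'.map Function.Embedding.inl ∪ Z.map Function.Embedding.inr) ≤
      tau b W' + T.card := by
  have hcb := h.cap_sys.cb
  have hcW : Cb b W := (h.sys.mono h.sub).cb
  have hsub1 : W'.map (Function.Embedding.inl : α ↪ α ⊕ J) ⊆ cU J W := by
    intro z hz
    obtain ⟨x, hx, rfl⟩ := mem_map.mp hz
    exact inl_cU.mpr (hW' hx)
  have hsub2 : Z.map (Function.Embedding.inr : J ↪ α ⊕ J) ⊆ cU J W := by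
    intro z hz
    obtain ⟨x, hx, rfl⟩ := mem_map.mp hz
    exact inr_cU
  have h1 := tau_union (hcb.mono hsub1) (hcb.mono hsub2)
  rw [tau_cb_inl hcW hW'] at h1
  have h2 : tau (cb b W I O) (Z.map Function.Embedding.inr) ≤ T.card := by
    apply tau_le
    refine ⟨T.map Function.Embedding.inr, by rw [card_map], ?_⟩
    intro z hz
    obtain ⟨j, hj, rfl⟩ := mem_map.mp hz
    obtain ⟨t, ht, ht2⟩ := hT j hj
    exact ⟨Sum.inr t, mem_map_of_mem _ ht, inr_cb'.mpr ht2⟩
  omega

/-- The value of `tau` of the capped system. -/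
theorem capL_tau (h : Cap b V W g I O) {L : ℕ} (hA : Abs b W g O L) {T : Finset K}
    (hT : T.card ≤ L) (hT2 : ∀ j, ∃ t ∈ T, j ∈ O t) :
    tau (cb b W I O) (cU J W) = tau b W + L := by
  refine le_antisymm ?_ (h.tau_ge hA)
  have h1 := capL_cover h (Subset.refl W) (T := T) (Z := univ) (fun j _ => hT2 j)
  have h2 : cU J W = W.map Function.Embedding.inl ∪ univ.map Function.Embedding.inr := rfl
  rw [h2]
  omega

/-- The capped system is critical. -/
theorem capL_vc (h : Cap b V W g I O) {L : ℕ} (hA : Abs b W g O (L + 1)) (hv : Vc b W)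
    {T : Finset K} (hT : T.card ≤ L + 1) (hT2 : ∀ j, ∃ t ∈ T, j ∈ O t)
    (hT3 : ∀ j, ∃ j', ∃ T' : Finset K, T'.card ≤ L ∧ ∀ k, k ≠ j → k ≠ j' → ∃ t ∈ T', k ∈ O t) :
    Vc (cb b W I O) (cU J W) := by
  have hcb := h.cap_sys.cb
  have hcW : Cb b W := (h.sys.mono h.sub).cb
  intro z hz
  have h1 := tau_erase_le hcb hz
  rw [capL_tau h hA hT hT2] at h1 ⊢
  have h2 : tau (cb b W I O) ((cU J W).erase z) ≤ tau b W + L := by
    cases z with
    | inl x =>
      rw [inl_cU] at hz
      have h3 := capL_cover h (erase_subset x W) (T := T) (Z := univ) (fun j _ => hT2 j)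
      have h4 := hv x hz
      refine le_trans (tau_mono ?_ ?_) (le_trans h3 (by omega))
      · apply hcb.mono
        intro z hz
        rcases mem_union.mp hz with hz | hz
        · obtain ⟨y, hy, rfl⟩ := mem_map.mp hz
          exact inl_cU.mpr (mem_of_mem_erase hy)
        · obtain ⟨y, -, rfl⟩ := mem_map.mp hz
          exact inr_cU
      · intro z hz
        rw [mem_erase] at hz
        cases z with
        | inl y =>
          refine mem_union_left _ (mem_map_of_mem _ (mem_erase.mpr ⟨?_, inl_cU.mp hz.2⟩))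
          rintro rfl
          exact hz.1 rfl
        | inr j => exact mem_union_right _ (mem_map_of_mem _ (mem_univ j))
    | inr j =>
      obtain ⟨j', T', hT', hT4⟩ := hT3 j
      obtain ⟨i0, hi0⟩ := h.Ine j'
      obtain ⟨x0, hx0, hx1⟩ := h.IW j' i0 hi0
      have hv' := vc_cb_inl (I := I) (O := O) hcW hv
      have hcb1 : Cb (cb b W I O) (W.map Function.Embedding.inl) := by
        apply hcb.mono
        intro z hz
        obtain ⟨y, hy, rfl⟩ := mem_map.mp hz
        exact inl_cU.mpr hy
      have h3 := absorb_aj (x := Sum.inr j') hcb1 hv'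
        ⟨Sum.inl i0, inr_cb.mpr hi0, Sum.inl x0, mem_map_of_mem _ hx0, inl_cb.mpr ⟨hx1, hx0⟩⟩
      rw [tau_cb_inl hcW (Subset.refl W)] at h3
      have h5 : tau (cb b W I O) (((univ.erase j).erase j').map Function.Embedding.inr) ≤ L := by
        have h6 := capL_cover h (empty_subset W) (T := T') (Z := (univ.erase j).erase j') (by
          intro k hk
          rw [mem_erase, mem_erase] at hk
          exact hT4 k hk.2.1 hk.1)
        rw [map_empty, empty_union, tau_empty] at h6
        omega
      have hcb2 : Cb (cb b W I O) (W.map Function.Embedding.inl ∪ {Sum.inr j'}) := by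
        apply hcb.mono
        intro z hz
        rcases mem_union.mp hz with hz | hz
        · obtain ⟨y, hy, rfl⟩ := mem_map.mp hz
          exact inl_cU.mpr hy
        · rw [mem_singleton.mp hz]
          exact inr_cU
      have hcb3 : Cb (cb b W I O) (((univ.erase j).erase j').map Function.Embedding.inr) := by
        apply hcb.mono
        intro z hz
        obtain ⟨y, hy, rfl⟩ := mem_map.mp hz
        exact inr_cU
      have h7 := tau_union hcb2 hcb3
      refine le_trans (tau_mono ?_ ?_) (le_trans h7 (by omega))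
      · intro z hz
        rcases mem_union.mp hz with hz | hz
        · exact hcb2 z hz
        · exact hcb3 z hz
      · intro z hz
        rw [mem_erase] at hz
        cases z with
        | inl y => exact mem_union_left _ (mem_union_left _ (mem_map_of_mem _ (inl_cU.mp hz.2)))
        | inr i =>
          by_cases hij : i = j'
          · exact mem_union_left _ (mem_union_right _ (by rw [hij]; exact mem_singleton_self _))
          · exact mem_union_right _ (mem_map_of_mem _ (mem_erase.mpr ⟨hij,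
              mem_erase.mpr ⟨fun h5 => hz.1 (by rw [h5]), mem_univ i⟩⟩))
  omega

end

/-! ## Two pairs -/

/-- The own blocks of the four group cap. -/
def O2 (a c a' c' : ℕ) : Fin (5 - a) ⊕ Fin (5 - a') → Finset (Fin 2 ⊕ Fin 2)
  | Sum.inl t => (Op a c t).map Function.Embedding.inl
  | Sum.inr t => (Op a' c' t).map Function.Embedding.inr

theorem O2_ll {a c a' c' : ℕ} {t : Fin (5 - a)} {j : Fin 2} :
    (Sum.inl j : Fin 2 ⊕ Fin 2) ∈ O2 a c a' c' (Sum.inl t) ↔ j ∈ Op a c t := by
  show _ ∈ (Op a c t).map Function.Embedding.inl ↔ _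
  rw [mem_map]
  constructor
  · rintro ⟨i, hi, h⟩
    rw [← Sum.inl_injective h]
    exact hi
  · exact fun h => ⟨j, h, rfl⟩

theorem O2_rr {a c a' c' : ℕ} {t : Fin (5 - a')} {j : Fin 2} :
    (Sum.inr j : Fin 2 ⊕ Fin 2) ∈ O2 a c a' c' (Sum.inr t) ↔ j ∈ Op a' c' t := by
  show _ ∈ (Op a' c' t).map Function.Embedding.inr ↔ _
  rw [mem_map]
  constructor
  · rintro ⟨i, hi, h⟩
    rw [← Sum.inr_injective h]
    exact hi
  · exact fun h => ⟨j, h, rfl⟩

theorem O2_lr {a c a' c' : ℕ} {t : Fin (5 - a')} {j : Fin 2} :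
    (Sum.inl j : Fin 2 ⊕ Fin 2) ∉ O2 a c a' c' (Sum.inr t) := by
  show _ ∉ (Op a' c' t).map Function.Embedding.inr
  rw [mem_map]
  rintro ⟨i, hi, h⟩
  exact absurd h (by simp)

theorem O2_rl {a c a' c' : ℕ} {t : Fin (5 - a)} {j : Fin 2} :
    (Sum.inr j : Fin 2 ⊕ Fin 2) ∉ O2 a c a' c' (Sum.inl t) := by
  show _ ∉ (Op a c t).map Function.Embedding.inl
  rw [mem_map]
  rintro ⟨i, hi, h⟩
  exact absurd h (by simp)

theorem O2_cl {a c a' c' : ℕ} {j : Fin 2} :
    (univ.filter fun t => (Sum.inl j : Fin 2 ⊕ Fin 2) ∈ O2 a c a' c' t).card =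
      (univ.filter fun t => j ∈ Op a c t).card := by
  have h1 : (univ.filter fun t => (Sum.inl j : Fin 2 ⊕ Fin 2) ∈ O2 a c a' c' t) =
      (univ.filter fun t => j ∈ Op a c t).map Function.Embedding.inl := by
    ext t
    rw [mem_filter, mem_map]
    cases t with
    | inl t =>
      rw [O2_ll]
      constructor
      · exact fun h => ⟨t, mem_filter.mpr ⟨mem_univ t, h.2⟩, rfl⟩
      · rintro ⟨s, hs, h⟩
        rw [← Sum.inl_injective h]
        exact ⟨mem_univ _, (mem_filter.mp hs).2⟩
    | inr t =>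
      constructor
      · exact fun h => absurd h.2 O2_lr
      · rintro ⟨s, hs, h⟩
        exact absurd h (by simp)
  rw [h1, card_map]

theorem O2_cr {a c a' c' : ℕ} {j : Fin 2} :
    (univ.filter fun t => (Sum.inr j : Fin 2 ⊕ Fin 2) ∈ O2 a c a' c' t).card =
      (univ.filter fun t => j ∈ Op a' c' t).card := by
  have h1 : (univ.filter fun t => (Sum.inr j : Fin 2 ⊕ Fin 2) ∈ O2 a c a' c' t) =
      (univ.filter fun t => j ∈ Op a' c' t).map Function.Embedding.inr := by
    ext t
    rw [mem_filter, mem_map]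
    cases t with
    | inr t =>
      rw [O2_rr]
      constructor
      · exact fun h => ⟨t, mem_filter.mpr ⟨mem_univ t, h.2⟩, rfl⟩
      · rintro ⟨s, hs, h⟩
        rw [← Sum.inr_injective h]
        exact ⟨mem_univ _, (mem_filter.mp hs).2⟩
    | inl t =>
      constructor
      · exact fun h => absurd h.2 O2_rl
      · rintro ⟨s, hs, h⟩
        exact absurd h (by simp)
  rw [h1, card_map]

theorem O2_sq {a c a' c' : ℕ} :
    (sq (Op a c)).card + (sq (Op a' c')).card ≤ (sq (O2 a c a' c')).card := by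
  have h1 : (sq (Op a c)).map Function.Embedding.inl ∪
      (sq (Op a' c')).map Function.Embedding.inr ⊆ sq (O2 a c a' c') := by
    intro z hz
    rcases mem_union.mp hz with hz | hz
    · obtain ⟨j, hj, rfl⟩ := mem_map.mp hz
      have h2 := (mem_filter.mp hj).2
      refine mem_filter.mpr ⟨mem_univ _, h2.trans ?_⟩
      rw [← card_map (Function.Embedding.inl : Fin (5 - a) ↪ Fin (5 - a) ⊕ Fin (5 - a'))]
      apply card_le_card
      intro t ht
      obtain ⟨s, hs, rfl⟩ := mem_map.mp ht
      refine mem_filter.mpr ⟨mem_univ _, ?_⟩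
      show (Op a c s).map Function.Embedding.inl = _
      rw [(mem_filter.mp hs).2, map_singleton]
    · obtain ⟨j, hj, rfl⟩ := mem_map.mp hz
      have h2 := (mem_filter.mp hj).2
      refine mem_filter.mpr ⟨mem_univ _, h2.trans ?_⟩
      rw [← card_map (Function.Embedding.inr : Fin (5 - a') ↪ Fin (5 - a) ⊕ Fin (5 - a'))]
      apply card_le_card
      intro t ht
      obtain ⟨s, hs, rfl⟩ := mem_map.mp ht
      refine mem_filter.mpr ⟨mem_univ _, ?_⟩
      show (Op a' c' s).map Function.Embedding.inr = _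
      rw [(mem_filter.mp hs).2, map_singleton]
  have h2 := card_le_card h1
  rw [card_union_of_disjoint, card_map, card_map] at h2
  · exact h2
  · rw [disjoint_left]
    intro x hx hx2
    obtain ⟨y, -, rfl⟩ := mem_map.mp hx
    obtain ⟨j, -, h⟩ := mem_map.mp hx2
    exact absurd h (by simp)

theorem Op_mem01 {a c : ℕ} (hac : a ≤ c) (hc : c ≤ 4) (j : Fin 2) :
    j ∈ Op a c ⟨0, by omega⟩ := by
  unfold Op
  rw [if_pos (by show 0 < 5 - c; omega)]
  fin_cases j <;> simp

section

variable {b : ι → Finset α} {V W : Finset α}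

/-- **The four group cap**, ordered form. -/
theorem quadV_aux {gA gB : Fin 2 → Finset α} {IA IB : Fin 2 → Finset ι} (hKP : KP)
    (hsys : Sys b V) (hWV : W ⊆ V) (hne : W.Nonempty) (hcon : Con b W)
    (hv : Vc b W) (hf : 2 * tau b W = W.card + 1)
    (hgA : ∀ j, gA j ⊆ V \ W) (hgB : ∀ j, gB j ⊆ V \ W) (hdA : Disjoint (gA 0) (gA 1))
    (hdB : Disjoint (gB 0) (gB 1)) (hdAB : ∀ i j, Disjoint (gA i) (gB j))
    (hIWA : ∀ j, ∀ i ∈ IA j, ∃ x ∈ W, x ∈ b i) (hIgA : ∀ j, ∀ i ∈ IA j, ∃ y ∈ gA j, y ∈ b i)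
    (hIWB : ∀ j, ∀ i ∈ IB j, ∃ x ∈ W, x ∈ b i) (hIgB : ∀ j, ∀ i ∈ IB j, ∃ y ∈ gB j, y ∈ b i)
    {a c a' c' : ℕ} (ha : 1 ≤ a) (hac : a ≤ c) (hc : c ≤ 4) (h0 : (IA 0).card = a)
    (h1 : (IA 1).card = c) (ha' : 1 ≤ a') (hac' : a' ≤ c') (hc' : c' ≤ 4)
    (h0' : (IB 0).card = a') (h1' : (IB 1).card = c')
    (hA : ∀ x ∈ gA 0, ∀ y ∈ gA 1, tau b W + 1 ≤ tau b (W ∪ {x, y}))
    (hB : ∀ x ∈ gB 0, ∀ y ∈ gB 1, tau b W + 1 ≤ tau b (W ∪ {x, y}))
    (hAB : ∀ x ∈ gA 0, ∀ y ∈ gA 1, ∀ z ∈ gB 0, ∀ w ∈ gB 1,
      tau b W + 2 ≤ tau b (W ∪ {x, y, z, w})) :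
    ((sp b V ∩ W).card : ℤ) + ((if a + 2 ≤ c then 1 else 0) + 2 * a) +
      ((if a' + 2 ≤ c' then 1 else 0) + 2 * a') ≤ ee b W + 6 := by
  have hcW : Cb b W := (hsys.mono hWV).cb
  let g : Fin 2 ⊕ Fin 2 → Finset α := Sum.elim gA gB
  let I : Fin 2 ⊕ Fin 2 → Finset ι := Sum.elim IA IB
  have hgV : ∀ j, g j ⊆ V \ W := by
    intro j
    cases j with
    | inl j => exact hgA j
    | inr j => exact hgB j
  have hCap : Cap b V W g I (O2 a c a' c') := by
    refine ⟨hsys, hWV, hne, hcon, hgV, ?_, ?_, ?_, ?_, ?_, ?_, ?_⟩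
    · intro j j' hjj
      cases j with
      | inl j =>
        cases j' with
        | inl j' =>
          have h2 : j ≠ j' := fun h => hjj (by rw [h])
          show Disjoint (gA j) (gA j')
          fin_cases j <;> fin_cases j'
          · exact absurd rfl h2
          · exact hdA
          · exact hdA.symm
          · exact absurd rfl h2
        | inr j' => exact hdAB j j'
      | inr j =>
        cases j' with
        | inl j' => exact (hdAB j' j).symm
        | inr j' =>
          have h2 : j ≠ j' := fun h => hjj (by rw [h])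
          show Disjoint (gB j) (gB j')
          fin_cases j <;> fin_cases j'
          · exact absurd rfl h2
          · exact hdB
          · exact hdB.symm
          · exact absurd rfl h2
    · intro j
      cases j with
      | inl j => exact hIWA j
      | inr j => exact hIWB j
    · intro j
      cases j with
      | inl j => exact hIgA j
      | inr j => exact hIgB j
    · intro j
      rw [← card_pos]
      cases j with
      | inl j =>
        show 0 < (IA j).card
        fin_cases j
        · show 0 < (IA 0).card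
          omega
        · show 0 < (IA 1).card
          omega
      | inr j =>
        show 0 < (IB j).card
        fin_cases j
        · show 0 < (IB 0).card
          omega
        · show 0 < (IB 1).card
          omega
    · intro j
      cases j with
      | inl j =>
        rw [O2_cl]
        show (IA j).card + _ = 5
        fin_cases j
        · show (IA 0).card + (univ.filter fun t => (0 : Fin 2) ∈ Op a c t).card = 5
          rw [Op_zero]
          omega
        · show (IA 1).card + (univ.filter fun t => (1 : Fin 2) ∈ Op a c t).card = 5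
          rw [Op_two hac]
          omega
      | inr j =>
        rw [O2_cr]
        show (IB j).card + _ = 5
        fin_cases j
        · show (IB 0).card + (univ.filter fun t => (0 : Fin 2) ∈ Op a' c' t).card = 5
          rw [Op_zero]
          omega
        · show (IB 1).card + (univ.filter fun t => (1 : Fin 2) ∈ Op a' c' t).card = 5
          rw [Op_two hac']
          omega
    · intro t
      cases t with
      | inl t =>
        show ((Op a c t).map Function.Embedding.inl).card ≤ 3
        rw [card_map]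
        exact Op_le a c t
      | inr t =>
        show ((Op a' c' t).map Function.Embedding.inr).card ≤ 3
        rw [card_map]
        exact Op_le a' c' t
    · intro t
      cases t with
      | inl t => exact (Op_one a c t).map
      | inr t => exact (Op_one a' c' t).map
  have hAbs : Abs b W g (O2 a c a' c') (1 + 1) := by
    intro T f hf
    have hcU : Cb b (W ∪ (uc (O2 a c a' c') T).image f) := by
      intro x hx
      rcases mem_union.mp hx with hx | hx
      · exact hcW x hx
      · obtain ⟨j, hj, rfl⟩ := mem_image.mp hx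
        exact hsys.cb _ (mem_sdiff.mp (hgV j (hf j hj))).1
    by_cases hT2 : 2 ≤ T.card
    · have h2 : tau b W ≤ tau b (W ∪ (uc (O2 a c a' c') T).image f) :=
        tau_mono hcU subset_union_left
      omega
    · rcases T.eq_empty_or_nonempty with hT | hT
      · subst hT
        have h2 : ∀ j, j ∈ uc (O2 a c a' c') ∅ := by
          intro j
          refine mem_filter.mpr ⟨mem_univ j, ?_⟩
          intro t ht
          exact absurd ht (notMem_empty t)
        have h3 := hAB (f (Sum.inl 0)) (hf _ (h2 _)) (f (Sum.inl 1)) (hf _ (h2 _))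
          (f (Sum.inr 0)) (hf _ (h2 _)) (f (Sum.inr 1)) (hf _ (h2 _))
        have h4 : tau b (W ∪ {f (Sum.inl 0), f (Sum.inl 1), f (Sum.inr 0), f (Sum.inr 1)}) ≤
            tau b (W ∪ (uc (O2 a c a' c') ∅).image f) := by
          apply tau_mono hcU
          apply union_subset_union_right
          intro x hx
          rw [mem_insert, mem_insert, mem_insert, mem_singleton] at hx
          rcases hx with rfl | rfl | rfl | rfl <;> exact mem_image_of_mem _ (h2 _)
        rw [card_empty]
        omega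
      · have hT1 : T.card = 1 := by
          have := card_pos.mpr hT
          omega
        obtain ⟨t, rfl⟩ := card_eq_one.mp hT1
        cases t with
        | inl t =>
          have h2 : ∀ j, Sum.inr j ∈ uc (O2 a c a' c') {Sum.inl t} := by
            intro j
            refine mem_filter.mpr ⟨mem_univ _, ?_⟩
            intro s hs
            rw [mem_singleton.mp hs]
            exact O2_rl
          have h3 := hB (f (Sum.inr 0)) (hf _ (h2 _)) (f (Sum.inr 1)) (hf _ (h2 _))
          have h4 : tau b (W ∪ {f (Sum.inr 0), f (Sum.inr 1)}) ≤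
              tau b (W ∪ (uc (O2 a c a' c') {Sum.inl t}).image f) := by
            apply tau_mono hcU
            apply union_subset_union_right
            intro x hx
            rw [mem_insert, mem_singleton] at hx
            rcases hx with rfl | rfl <;> exact mem_image_of_mem _ (h2 _)
          omega
        | inr t =>
          have h2 : ∀ j, Sum.inl j ∈ uc (O2 a c a' c') {Sum.inr t} := by
            intro j
            refine mem_filter.mpr ⟨mem_univ _, ?_⟩
            intro s hs
            rw [mem_singleton.mp hs]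
            exact O2_lr
          have h3 := hA (f (Sum.inl 0)) (hf _ (h2 _)) (f (Sum.inl 1)) (hf _ (h2 _))
          have h4 : tau b (W ∪ {f (Sum.inl 0), f (Sum.inl 1)}) ≤
              tau b (W ∪ (uc (O2 a c a' c') {Sum.inr t}).image f) := by
            apply tau_mono hcU
            apply union_subset_union_right
            intro x hx
            rw [mem_insert, mem_singleton] at hx
            rcases hx with rfl | rfl <;> exact mem_image_of_mem _ (h2 _)
          omega
  let tA : Fin (5 - a) ⊕ Fin (5 - a') := Sum.inl ⟨0, by omega⟩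
  let tB : Fin (5 - a) ⊕ Fin (5 - a') := Sum.inr ⟨0, by omega⟩
  have htA : ∀ j : Fin 2, Sum.inl j ∈ O2 a c a' c' tA := fun j =>
    O2_ll.mpr (Op_mem01 hac hc j)
  have htB : ∀ j : Fin 2, Sum.inr j ∈ O2 a c a' c' tB := fun j =>
    O2_rr.mpr (Op_mem01 hac' hc' j)
  have hT : ({tA, tB} : Finset (Fin (5 - a) ⊕ Fin (5 - a'))).card ≤ 1 + 1 := card_le_two
  have hT2 : ∀ j, ∃ t ∈ ({tA, tB} : Finset (Fin (5 - a) ⊕ Fin (5 - a'))),
      j ∈ O2 a c a' c' t := by
    intro j
    cases j with
    | inl j => exact ⟨tA, by simp, htA j⟩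
    | inr j => exact ⟨tB, by simp, htB j⟩
  have hT3 : ∀ j : Fin 2 ⊕ Fin 2, ∃ j', ∃ T' : Finset (Fin (5 - a) ⊕ Fin (5 - a')),
      T'.card ≤ 1 ∧ ∀ k, k ≠ j → k ≠ j' → ∃ t ∈ T', k ∈ O2 a c a' c' t := by
    have h5 : ∀ i j : Fin 2, i ≠ j → i = 1 - j := by decide
    intro j
    cases j with
    | inl j =>
      refine ⟨Sum.inl (1 - j), {tB}, by rw [card_singleton], ?_⟩
      intro k hk hk2
      cases k with
      | inl k =>
        exfalso
        have h6 : k ≠ j := fun h => hk (by rw [h])
        exact hk2 (by rw [h5 k j h6])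
      | inr k => exact ⟨tB, mem_singleton_self _, htB k⟩
    | inr j =>
      refine ⟨Sum.inr (1 - j), {tA}, by rw [card_singleton], ?_⟩
      intro k hk hk2
      cases k with
      | inr k =>
        exfalso
        have h6 : k ≠ j := fun h => hk (by rw [h])
        exact hk2 (by rw [h5 k j h6])
      | inl k => exact ⟨tA, mem_singleton_self _, htA k⟩
  have hta := capL_tau hCap hAbs hT hT2
  have hvc := capL_vc hCap hAbs hv hT hT2 hT3
  have hcard : (cU (Fin 2 ⊕ Fin 2) W).card = W.card + 4 := by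
    rw [card_cU, Fintype.card_sum, Fintype.card_fin]
  have h4 := hCap.sp_ge
  have h5 := hCap.nb_le
  rw [Fintype.card_sum, Fintype.card_fin, Fintype.card_fin] at h5
  have h7 : ((5 - a : ℕ) : ℤ) = 5 - a := by omega
  have h7' : ((5 - a' : ℕ) : ℤ) = 5 - a' := by omega
  have h9 : (if a + 2 ≤ c then (1 : ℤ) else 0) ≤ (sq (Op a c)).card := by
    split_ifs with h8
    · have := Op_sq h8 (by omega)
      exact_mod_cast this
    · positivity
  have h9' : (if a' + 2 ≤ c' then (1 : ℤ) else 0) ≤ (sq (Op a' c')).card := by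
    split_ifs with h8
    · have := Op_sq h8 (by omega)
      exact_mod_cast this
    · positivity
  have h10 := O2_sq (a := a) (c := c) (a' := a') (c' := c')
  have hne2 : (cU (Fin 2 ⊕ Fin 2) W).Nonempty := card_pos.mp (by rw [hcard]; omega)
  have h3 := hKP (α ⊕ (Fin 2 ⊕ Fin 2)) (ι ⊕ (Fin (5 - a) ⊕ Fin (5 - a')))
    (cb b W I (O2 a c a' c')) (cU (Fin 2 ⊕ Fin 2) W) hne2 hCap.cap_sys hCap.cap_con hvc
  unfold ee at h3 ⊢
  rw [h5, hcard, hta] at h3
  push_cast at h3
  rw [h7, h7'] at h3
  zify at h4 h10 hf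
  linarith

theorem dg_sub {T : Finset α} {I : Finset ι}
    (hI : I ⊆ univ.filter (fun i => (b i ∩ T).Nonempty ∧ (b i ∩ W).Nonempty)) :
    (∀ i ∈ I, ∃ x ∈ W, x ∈ b i) ∧ (∀ i ∈ I, ∃ y ∈ T, y ∈ b i) := by
  constructor
  · intro i hi
    obtain ⟨-, -, x, hx⟩ := mem_filter.mp (hI hi)
    rw [mem_inter] at hx
    exact ⟨x, hx.2, hx.1⟩
  · intro i hi
    obtain ⟨-, ⟨x, hx⟩, -⟩ := mem_filter.mp (hI hi)
    rw [mem_inter] at hx
    exact ⟨x, hx.2, hx.1⟩

/-- **The four group cap in the class.** -/
theorem quadV (hKP : KP) (hsys : Sys b V) (hWV : W ⊆ V) (hne : W.Nonempty) (hcon : Con b W)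
    (hv : Vc b W) (hf : 2 * tau b W = W.card + 1) {A A' B B' : Finset α}
    (hA : A ⊆ V \ W) (hA' : A' ⊆ V \ W) (hB : B ⊆ V \ W) (hB' : B' ⊆ V \ W)
    (hdA : Disjoint A A') (hdB : Disjoint B B') (hd1 : Disjoint A B) (hd2 : Disjoint A B')
    (hd3 : Disjoint A' B) (hd4 : Disjoint A' B')
    {a c a' c' : ℕ} (ha : 1 ≤ a) (hac : a ≤ c) (hc : c ≤ 4) (h0 : a ≤ dg b A W)
    (h1 : c ≤ dg b A' W) (ha' : 1 ≤ a') (hac' : a' ≤ c') (hc' : c' ≤ 4)
    (h0' : a' ≤ dg b B W) (h1' : c' ≤ dg b B' W)
    (hnA : ∀ x ∈ A, ∀ y ∈ A', tau b W + 1 ≤ tau b (W ∪ {x, y}))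
    (hnB : ∀ x ∈ B, ∀ y ∈ B', tau b W + 1 ≤ tau b (W ∪ {x, y}))
    (hnAB : ∀ x ∈ A, ∀ y ∈ A', ∀ z ∈ B, ∀ w ∈ B', tau b W + 2 ≤ tau b (W ∪ {x, y, z, w})) :
    ((sp b V ∩ W).card : ℤ) + ((if a + 2 ≤ c then 1 else 0) + 2 * a) +
      ((if a' + 2 ≤ c' then 1 else 0) + 2 * a') ≤ ee b W + 6 := by
  obtain ⟨I0, hI0, hI0c⟩ := exists_subset_card_eq h0
  obtain ⟨I1, hI1, hI1c⟩ := exists_subset_card_eq h1
  obtain ⟨I2, hI2, hI2c⟩ := exists_subset_card_eq h0'
  obtain ⟨I3, hI3, hI3c⟩ := exists_subset_card_eq h1'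
  have k0 := dg_sub hI0
  have k1 := dg_sub hI1
  have k2 := dg_sub hI2
  have k3 := dg_sub hI3
  refine quadV_aux (gA := ![A, A']) (gB := ![B, B']) (IA := ![I0, I1]) (IB := ![I2, I3])
    hKP hsys hWV hne hcon hv hf ?_ ?_ hdA hdB ?_ ?_ ?_ ?_ ?_ ha hac hc hI0c hI1c ha' hac' hc'
    hI2c hI3c hnA hnB hnAB
  · intro j
    fin_cases j
    · exact hA
    · exact hA'
  · intro j
    fin_cases j
    · exact hB
    · exact hB'
  · intro i j
    fin_cases i <;> fin_cases j
    · exact hd1
    · exact hd2
    · exact hd3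
    · exact hd4
  · intro j
    fin_cases j
    · exact k0.1
    · exact k1.1
  · intro j
    fin_cases j
    · exact k0.2
    · exact k1.2
  · intro j
    fin_cases j
    · exact k2.1
    · exact k3.1
  · intro j
    fin_cases j
    · exact k2.2
    · exact k3.2

end

end Pool.Agent.Helper20.C5
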