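import Pool.Agent.Helper20.C5.Gal

/-!
# An allowed face

If `U` has a perfect matching, `2 tau U = |U|` and `tau (U - v) = tau U - 1`, then there is a triple
`P` of `U - v` inside a block such that `U - v - P` has a perfect matching.
-/

set_option linter.unusedSectionVars false

open Finset

namespace Pool.Agent.Helper20.C5

variable {α ι : Type} [DecidableEq α] [DecidableEq ι] [Fintype ι]

/-- A partition of `W` into subsets of blocks, given by the part of each point. -/
structure Pt (b : ι → Finset α) (W : Finset α) (κ : α → Finset α) : Prop where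
  mem : ∀ x ∈ W, x ∈ κ x
  sub : ∀ x ∈ W, κ x ⊆ W
  eq : ∀ x ∈ W, ∀ y ∈ κ x, κ y = κ x
  blk : ∀ x ∈ W, ∃ i, κ x ⊆ b i

theorem Pt.tau_le {b : ι → Finset α} {W : Finset α} {κ : α → Finset α} (h : Pt b W κ) :
    tau b W ≤ (W.image κ).card := by
  apply tau_label
  intro y hy
  obtain ⟨x, hx, rfl⟩ := mem_image.mp hy
  obtain ⟨i, hi⟩ := h.blk x hx
  refine ⟨i, fun z hz hzx => hi ?_⟩
  rw [← hzx]
  exact h.mem z hz

theorem exists_pt {b : ι → Finset α} {W : Finset α} (hc : Cb b W) :
    ∃ κ, Pt b W κ ∧ (W.image κ).card ≤ tau b W := by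
  classical
  rcases W.eq_empty_or_nonempty with hW | hW
  · subst hW
    exact ⟨fun _ => ∅, ⟨by simp, by simp, by simp, by simp⟩, by simp⟩
  obtain ⟨c, hcb, hcc⟩ := exists_assign hc hW
  refine ⟨fun x => W.filter fun y => c y = c x, ⟨?_, ?_, ?_, ?_⟩, ?_⟩
  · exact fun x hx => mem_filter.mpr ⟨hx, rfl⟩
  · exact fun x _ => filter_subset _ _
  · intro x _ y hy
    have h1 := (mem_filter.mp hy).2
    show (W.filter fun z => c z = c y) = W.filter fun z => c z = c x
    rw [h1]
  · intro x _
    refine ⟨c x, fun y hy => ?_⟩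
    have h1 := mem_filter.mp hy
    rw [← h1.2]
    exact hcb y h1.1
  · refine le_trans ?_ hcc
    have : W.image (fun x => W.filter fun y => c y = c x) =
        (W.image c).image fun i => W.filter fun y => c y = i := by
      rw [image_image]
      rfl
    rw [this]
    exact card_image_le

open Classical in
/-- The involution given by the pairs of a partition. -/
noncomputable def pr (W : Finset α) (κ : α → Finset α) (x : α) : α :=
  if h : ∃ y, y ≠ x ∧ x ∈ W ∧ κ x = {x, y} then h.choose else x

theorem pr_eq {W : Finset α} {κ : α → Finset α} {x y : α} (hy : y ≠ x) (hx : x ∈ W)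
    (h : κ x = {x, y}) : pr W κ x = y := by
  have h1 : ∃ y, y ≠ x ∧ x ∈ W ∧ κ x = {x, y} := ⟨y, hy, hx, h⟩
  unfold pr
  rw [dif_pos h1]
  obtain ⟨h2, -, h3⟩ := h1.choose_spec
  have h7 : ({x, h1.choose} : Finset α) = {x, y} := h3.symm.trans h
  have h4 : h1.choose ∈ ({x, h1.choose} : Finset α) :=
    mem_insert_of_mem (mem_singleton_self _)
  rw [h7] at h4
  rw [mem_insert, mem_singleton] at h4
  rcases h4 with h4 | h4
  · exact absurd h4 h2
  · exact h4

theorem pr_fix {W : Finset α} {κ : α → Finset α} {x : α}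
    (h : ¬ ∃ y, y ≠ x ∧ x ∈ W ∧ κ x = {x, y}) : pr W κ x = x := by
  unfold pr
  rw [dif_neg h]

theorem pr_card {b : ι → Finset α} {W : Finset α} {κ : α → Finset α} (h : Pt b W κ) {x : α}
    (hx : x ∈ W) (h2 : (κ x).card = 2) : pr W κ x ≠ x ∧ κ x = {x, pr W κ x} := by
  have h3 := h.mem x hx
  have h4 : ((κ x).erase x).card = 1 := by
    rw [card_erase_of_mem h3, h2]
  obtain ⟨y, hy⟩ := card_eq_one.mp h4
  have hyx : y ≠ x := by
    have : y ∈ (κ x).erase x := by
      rw [hy]
      exact mem_singleton_self y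
    exact ne_of_mem_erase this
  have hk : κ x = {x, y} := by
    rw [← insert_erase h3, hy]
  rw [pr_eq hyx hx hk]
  exact ⟨hyx, hk⟩

theorem pr_ne {b : ι → Finset α} {W : Finset α} {κ : α → Finset α} (_h : Pt b W κ) {x : α}
    (hx : pr W κ x ≠ x) : x ∈ W ∧ (κ x).card = 2 := by
  by_contra hcon
  apply hx
  apply pr_fix
  rintro ⟨y, hy, hxW, hk⟩
  apply hcon
  exact ⟨hxW, by rw [hk, card_pair (Ne.symm hy)]⟩

theorem pr_inv {b : ι → Finset α} {W : Finset α} {κ : α → Finset α} (h : Pt b W κ) (x : α) :
    pr W κ (pr W κ x) = x := by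
  by_cases hx : pr W κ x = x
  · rw [hx, hx]
  · obtain ⟨hxW, h2⟩ := pr_ne h hx
    obtain ⟨h3, h4⟩ := pr_card h hxW h2
    have h5 : pr W κ x ∈ κ x := by
      rw [h4]
      exact mem_insert_of_mem (mem_singleton_self _)
    have h6 : pr W κ x ∈ W := h.sub x hxW h5
    have h7 : κ (pr W κ x) = {pr W κ x, x} := by
      rw [h.eq x hxW _ h5, pair_comm]
      exact h4
    exact pr_eq (Ne.symm h3) h6 h7

theorem pr_mt {b : ι → Finset α} {W : Finset α} {κ : α → Finset α} (h : Pt b W κ) :
    Mt b W (pr W κ) := by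
  refine ⟨pr_inv h, ?_, ?_⟩
  · intro x hx
    apply pr_fix
    rintro ⟨y, -, hxW, -⟩
    exact hx hxW
  · intro x hx
    obtain ⟨hxW, h2⟩ := pr_ne h hx
    obtain ⟨h3, h4⟩ := pr_card h hxW h2
    obtain ⟨i, hi⟩ := h.blk x hxW
    refine ⟨i, hi (h.mem x hxW), hi ?_⟩
    rw [h4]
    exact mem_insert_of_mem (mem_singleton_self _)

theorem part_card_le {b : ι → Finset α} (hsz : ∀ i, (b i).card ≤ 3) {W : Finset α}
    {κ : α → Finset α} (h : Pt b W κ) {x : α} (hx : x ∈ W) :
    (κ x).card = 1 ∨ (κ x).card = 2 ∨ (κ x).card = 3 := by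
  obtain ⟨i, hi⟩ := h.blk x hx
  have h1 := card_le_card hi
  have h2 := hsz i
  have h3 : 0 < (κ x).card := card_pos.mpr ⟨x, h.mem x hx⟩
  omega

/-- The parts of size three. -/
def tri (W : Finset α) (κ : α → Finset α) : Finset (Finset α) :=
  (W.image κ).filter fun t => t.card = 3

/-- The key step: a partition with the fewest triples has no singleton. -/
theorem no_single {b : ι → Finset α} (hsz : ∀ i, (b i).card ≤ 3) {U : Finset α}
    (hc : Cb b U) {μ : α → α} (hμ : Mt b U μ) (hμ0 : ∀ x ∈ U, μ x ≠ x) {v : α} (hv : v ∈ U)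
    (hv1 : tau b (U.erase v) + 1 = tau b U) {κ : α → Finset α}
    (hκ : Pt b (U.erase v) κ) (hκ2 : ((U.erase v).image κ).card ≤ tau b (U.erase v))
    (hmin : ∀ κ', Pt b (U.erase v) κ' → ((U.erase v).image κ').card ≤ tau b (U.erase v) →
      (tri (U.erase v) κ).card ≤ (tri (U.erase v) κ').card) {s : α} (hs : s ∈ U.erase v)
    (hs1 : κ s = {s}) : False := by
  classical
  set W := U.erase v with hW
  have hWU : W ⊆ U := erase_subset _ _
  have hvW : v ∉ W := notMem_erase v U
  have hmW : ∀ x, x ∈ U → x ≠ v → x ∈ W := fun x hx hxv => mem_erase.mpr ⟨hxv, hx⟩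
  set ν := pr W κ with hν
  have hνm : Mt b W ν := pr_mt hκ
  have hνi := hνm.inv
  have hνU : ∀ x ∈ U, ν x ∈ U := by
    intro x hx
    by_cases h : x ∈ W
    · exact hWU (hνm.mem h)
    · rwa [hνm.out x h]
  have hμU : ∀ x ∈ U, μ x ∈ U := fun x hx => hμ.mem hx
  set Z := Zc μ ν U s with hZ
  have hZU : Z ⊆ U := fun x hx => (mem_Zc.mp hx).1
  have hZμ := comp_closed (μ := μ) (ν := ν) hμU s
  have hZν := comp_closed' (μ := μ) (ν := ν) hνU s
  have hsU := hWU hs
  have hsZ : s ∈ Z := mem_Zc.mpr ⟨hsU, SimpleGraph.Reachable.refl s⟩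
  have hsν : ν s = s := by
    by_contra h
    have := (pr_ne hκ h).2
    rw [hs1, card_singleton] at this
    omega
  have hse : s ∈ ex ν Z := mem_ex.mpr ⟨hsZ, hsν⟩
  have hexμ : ex μ Z = ∅ := by
    ext x
    rw [mem_ex]
    constructor
    · exact fun h => absurd h.2 (hμ0 x (hZU h.1))
    · exact fun h => absurd h (notMem_empty x)
  have h2e := two_ends (Z := Z) hμ.inv hνi hZμ hZν hsZ (fun x hx => (mem_Zc.mp hx).2)
  rw [hexμ, card_empty, zero_add] at h2e
  have hpμ : 2 * (Z.image fun x => ({x, μ x} : Finset α)).card = Z.card := by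
    have := parts_card hμ.inv hZμ
    rw [← hZ, hexμ, card_empty] at this
    exact this
  have hpν : 2 * (Z.image fun x => ({x, ν x} : Finset α)).card = Z.card + (ex ν Z).card :=
    parts_card hνi hZν
  have hex2 : (ex ν Z).card = 2 := by
    have : 0 < (ex ν Z).card := card_pos.mpr ⟨s, hse⟩
    omega
  obtain ⟨e, heZ, hes⟩ : ∃ e ∈ ex ν Z, e ≠ s := by
    by_contra hcon
    have : ex ν Z ⊆ {s} := by
      intro x hx
      rw [mem_singleton]
      by_contra h
      exact hcon ⟨x, hx, h⟩
    have := card_le_card this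
    rw [card_singleton] at this
    omega
  have hexe : ex ν Z = {s, e} := by
    symm
    apply eq_of_subset_of_card_le
    · intro x hx
      rw [mem_insert, mem_singleton] at hx
      rcases hx with rfl | rfl
      · exact hse
      · exact heZ
    · rw [hex2, card_pair (Ne.symm hes)]
  have hfix : ∀ x ∈ Z, ν x = x → x = s ∨ x = e := by
    intro x hx h
    have : x ∈ ex ν Z := mem_ex.mpr ⟨hx, h⟩
    rw [hexe, mem_insert, mem_singleton] at this
    exact this
  have heZ' := (mem_ex.mp heZ).1
  have heν := (mem_ex.mp heZ).2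
  -- label of a nonfixed point
  have hlab : ∀ x ∈ Z, x ∈ W → (x ≠ e ∨ κ e = {e}) → κ x = {x, ν x} := by
    intro x hx hxW hxe
    by_cases h : ν x = x
    · rcases hfix x hx h with rfl | rfl
      · rw [h, pair_eq_singleton]
        exact hs1
      · rcases hxe with hxe | hxe
        · exact absurd rfl hxe
        · rw [h, pair_eq_singleton]
          exact hxe
    · exact (pr_card hκ hxW (pr_ne hκ h).2).2
  by_cases hev : e = v
  · -- `v` is the other end
    subst hev
    have hout : ∀ x ∈ W, x ∉ Z → ∀ y ∈ κ x, y ∉ Z := by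
      intro x hx hxZ y hy hyZ
      have hyW := hκ.sub x hx hy
      have hye : y ≠ e := fun h => hvW (h ▸ hyW)
      have h1 := hlab y hyZ hyW (Or.inl hye)
      have h2 : x ∈ κ y := by
        rw [hκ.eq x hx y hy]
        exact hκ.mem x hx
      rw [h1, mem_insert, mem_singleton] at h2
      rcases h2 with rfl | rfl
      · exact hxZ hyZ
      · exact hxZ (hZν y hyZ)
    let κ' : α → Finset α := fun x => if x ∈ Z then {x, μ x} else κ x
    have e1 : ∀ x ∈ Z, κ' x = {x, μ x} := fun x hx => if_pos hx
    have e2 : ∀ x, x ∉ Z → κ' x = κ x := fun x hx => if_neg hx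
    have hne : ∀ x ∈ U, x ∉ Z → x ∈ W := by
      intro x hx hxZ
      exact hmW x hx (fun h => hxZ (h ▸ heZ'))
    have hP : Pt b U κ' := by
      refine ⟨?_, ?_, ?_, ?_⟩
      · intro x hx
        by_cases h : x ∈ Z
        · rw [e1 x h]
          exact mem_insert_self _ _
        · rw [e2 x h]
          exact hκ.mem x (hne x hx h)
      · intro x hx
        by_cases h : x ∈ Z
        · rw [e1 x h]
          intro y hy
          rw [mem_insert, mem_singleton] at hy
          rcases hy with rfl | rfl
          · exact hx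
          · exact hμU x hx
        · rw [e2 x h]
          exact (hκ.sub x (hne x hx h)).trans hWU
      · intro x hx y hy
        by_cases h : x ∈ Z
        · rw [e1 x h] at hy ⊢
          rw [mem_insert, mem_singleton] at hy
          rcases hy with rfl | rfl
          · exact e1 _ h
          · rw [e1 _ (hZμ x h), hμ.inv, pair_comm]
        · rw [e2 x h] at hy ⊢
          have hxW := hne x hx h
          rw [e2 y (hout x hxW h y hy)]
          exact hκ.eq x hxW y hy
      · intro x hx
        by_cases h : x ∈ Z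
        · rw [e1 x h]
          obtain ⟨i, hi, hi2⟩ := hμ.adj x (hμ0 x hx)
          refine ⟨i, fun y hy => ?_⟩
          rw [mem_insert, mem_singleton] at hy
          rcases hy with rfl | rfl
          · exact hi
          · exact hi2
        · rw [e2 x h]
          exact hκ.blk x (hne x hx h)
    have h1 := hP.tau_le
    have h2 : U.image κ' ⊆ (Z.image fun x => ({x, μ x} : Finset α)) ∪ (W \ Z).image κ := by
      intro y hy
      obtain ⟨x, hx, rfl⟩ := mem_image.mp hy
      rw [mem_union]
      by_cases h : x ∈ Z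
      · left
        rw [e1 x h]
        exact mem_image_of_mem _ h
      · right
        rw [e2 x h]
        exact mem_image_of_mem _ (mem_sdiff.mpr ⟨hne x hx h, h⟩)
    have h3 := (card_le_card h2).trans (card_union_le _ _)
    have h4 : ((W ∩ Z).image κ).card + ((W \ Z).image κ).card ≤ (W.image κ).card := by
      rw [← card_union_of_disjoint]
      · apply card_le_card
        intro y hy
        rcases mem_union.mp hy with hy | hy
        · obtain ⟨x, hx, rfl⟩ := mem_image.mp hy
          exact mem_image_of_mem _ (mem_inter.mp hx).1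
        · obtain ⟨x, hx, rfl⟩ := mem_image.mp hy
          exact mem_image_of_mem _ (mem_sdiff.mp hx).1
      · rw [disjoint_left]
        intro y hy hy2
        obtain ⟨x, hx, rfl⟩ := mem_image.mp hy
        obtain ⟨x', hx', h5⟩ := mem_image.mp hy2
        have h6 := mem_inter.mp hx
        have h7 := mem_sdiff.mp hx'
        refine hout x' h7.1 h7.2 x ?_ h6.2
        rw [h5]
        exact hκ.mem x h6.1
    have h5 : (Z.image fun x => ({x, ν x} : Finset α)) ⊆ insert {e} ((W ∩ Z).image κ) := by
      intro y hy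
      obtain ⟨x, hx, rfl⟩ := mem_image.mp hy
      rw [mem_insert]
      by_cases h : x = e
      · left
        rw [h, heν, pair_eq_singleton]
      · right
        have hxW := hmW x (hZU hx) h
        have h6 := hlab x hx hxW (Or.inl h)
        show ({x, ν x} : Finset α) ∈ (W ∩ Z).image κ
        rw [← h6]
        exact mem_image_of_mem _ (mem_inter.mpr ⟨hxW, hx⟩)
    have h6 := (card_le_card h5).trans (card_insert_le _ _)
    omega
  -- now `v` is not in `Z`
  have hvZ : v ∉ Z := by
    intro h
    rcases hfix v h (hνm.out v hvW) with h1 | h1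
    · exact hvW (h1 ▸ hs)
    · exact hev h1.symm
  have hZW : ∀ x ∈ Z, x ∈ W := fun x hx => hmW x (hZU hx) (fun h => hvZ (h ▸ hx))
  have heW := hZW e heZ'
  by_cases he1 : κ e = {e}
  · have hout : ∀ x ∈ W, x ∉ Z → ∀ y ∈ κ x, y ∉ Z := by
      intro x hx hxZ y hy hyZ
      have hyW := hκ.sub x hx hy
      have h1 := hlab y hyZ hyW (Or.inr he1)
      have h2 : x ∈ κ y := by
        rw [hκ.eq x hx y hy]
        exact hκ.mem x hx
      rw [h1, mem_insert, mem_singleton] at h2
      rcases h2 with rfl | rfl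
      · exact hxZ hyZ
      · exact hxZ (hZν y hyZ)
    let κ' : α → Finset α := fun x => if x ∈ Z then {x, μ x} else κ x
    have e1 : ∀ x ∈ Z, κ' x = {x, μ x} := fun x hx => if_pos hx
    have e2 : ∀ x, x ∉ Z → κ' x = κ x := fun x hx => if_neg hx
    have hP : Pt b W κ' := by
      refine ⟨?_, ?_, ?_, ?_⟩
      · intro x hx
        by_cases h : x ∈ Z
        · rw [e1 x h]
          exact mem_insert_self _ _
        · rw [e2 x h]
          exact hκ.mem x hx
      · intro x hx
        by_cases h : x ∈ Z
        · rw [e1 x h]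
          intro y hy
          rw [mem_insert, mem_singleton] at hy
          rcases hy with rfl | rfl
          · exact hx
          · exact hZW _ (hZμ x h)
        · rw [e2 x h]
          exact hκ.sub x hx
      · intro x hx y hy
        by_cases h : x ∈ Z
        · rw [e1 x h] at hy ⊢
          rw [mem_insert, mem_singleton] at hy
          rcases hy with rfl | rfl
          · exact e1 _ h
          · rw [e1 _ (hZμ x h), hμ.inv, pair_comm]
        · rw [e2 x h] at hy ⊢
          rw [e2 y (hout x hx h y hy)]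
          exact hκ.eq x hx y hy
      · intro x hx
        by_cases h : x ∈ Z
        · rw [e1 x h]
          obtain ⟨i, hi, hi2⟩ := hμ.adj x (hμ0 x (hWU hx))
          refine ⟨i, fun y hy => ?_⟩
          rw [mem_insert, mem_singleton] at hy
          rcases hy with rfl | rfl
          · exact hi
          · exact hi2
        · rw [e2 x h]
          exact hκ.blk x hx
    have h1 := hP.tau_le
    have h2 : W.image κ' ⊆ (Z.image fun x => ({x, μ x} : Finset α)) ∪ (W \ Z).image κ := by
      intro y hy
      obtain ⟨x, hx, rfl⟩ := mem_image.mp hy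
      rw [mem_union]
      by_cases h : x ∈ Z
      · left
        rw [e1 x h]
        exact mem_image_of_mem _ h
      · right
        rw [e2 x h]
        exact mem_image_of_mem _ (mem_sdiff.mpr ⟨hx, h⟩)
    have h3 := (card_le_card h2).trans (card_union_le _ _)
    have h4 : (Z.image fun x => ({x, ν x} : Finset α)).card + ((W \ Z).image κ).card ≤
        (W.image κ).card := by
      rw [← card_union_of_disjoint]
      · apply card_le_card
        intro y hy
        rcases mem_union.mp hy with hy | hy
        · obtain ⟨x, hx, rfl⟩ := mem_image.mp hy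
          show ({x, ν x} : Finset α) ∈ W.image κ
          rw [← hlab x hx (hZW x hx) (Or.inr he1)]
          exact mem_image_of_mem _ (hZW x hx)
        · obtain ⟨x, hx, rfl⟩ := mem_image.mp hy
          exact mem_image_of_mem _ (mem_sdiff.mp hx).1
      · rw [disjoint_left]
        intro y hy hy2
        obtain ⟨x, hx, rfl⟩ := mem_image.mp hy
        obtain ⟨x', hx', h5⟩ := mem_image.mp hy2
        have h7 := mem_sdiff.mp hx'
        refine hout x' h7.1 h7.2 x ?_ hx
        rw [h5]
        exact mem_insert_self _ _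
    omega
  -- `e` is in a triple
  have he3 : (κ e).card = 3 := by
    rcases part_card_le hsz hκ heW with h | h | h
    · exfalso
      apply he1
      obtain ⟨y, hy⟩ := card_eq_one.mp h
      have := hκ.mem e heW
      rw [hy, mem_singleton] at this
      rw [hy, this]
    · exact absurd heν (pr_card hκ heW h).1
    · exact h
  set t := κ e with ht
  have het : e ∈ t := hκ.mem e heW
  have htW : t ⊆ W := hκ.sub e heW
  have htk : ∀ y ∈ t, κ y = t := fun y hy => hκ.eq e heW y hy
  have htZ : ∀ y ∈ t, y ∈ Z → y = e := by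
    intro y hy hyZ
    by_contra hye
    have h1 := hlab y hyZ (hZW y hyZ) (Or.inl hye)
    rw [htk y hy] at h1
    have h2 : t.card ≤ 2 := by
      rw [h1]
      exact card_le_two
    omega
  have hst : s ∉ t := by
    intro h
    have := htk s h
    rw [hs1] at this
    rw [← this, card_singleton] at he3
    omega
  have hout : ∀ x ∈ W, x ∉ Z → x ∉ t → ∀ y ∈ κ x, y ∉ Z ∧ y ∉ t := by
    intro x hx hxZ hxt y hy
    have hyW := hκ.sub x hx hy
    have h2 : x ∈ κ y := by
      rw [hκ.eq x hx y hy]
      exact hκ.mem x hx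
    have hyt : y ∉ t := by
      intro h
      rw [htk y h] at h2
      exact hxt h2
    refine ⟨fun hyZ => ?_, hyt⟩
    have hye : y ≠ e := fun h => hyt (h ▸ het)
    have h1 := hlab y hyZ hyW (Or.inl hye)
    rw [h1, mem_insert, mem_singleton] at h2
    rcases h2 with rfl | rfl
    · exact hxZ hyZ
    · exact hxZ (hZν y hyZ)
  let κ' : α → Finset α := fun x => if x ∈ Z then {x, μ x} else if x ∈ t then t.erase e else κ x
  have e1 : ∀ x ∈ Z, κ' x = {x, μ x} := fun x hx => if_pos hx
  have e2 : ∀ x, x ∉ Z → x ∈ t → κ' x = t.erase e := fun x hx hx2 => by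
    show (if x ∈ Z then {x, μ x} else if x ∈ t then t.erase e else κ x) = t.erase e
    rw [if_neg hx, if_pos hx2]
  have e3 : ∀ x, x ∉ Z → x ∉ t → κ' x = κ x := fun x hx hx2 => by
    show (if x ∈ Z then {x, μ x} else if x ∈ t then t.erase e else κ x) = κ x
    rw [if_neg hx, if_neg hx2]
  have hP : Pt b W κ' := by
    refine ⟨?_, ?_, ?_, ?_⟩
    · intro x hx
      by_cases h : x ∈ Z
      · rw [e1 x h]
        exact mem_insert_self _ _
      by_cases h' : x ∈ t
      · rw [e2 x h h', mem_erase]
        exact ⟨fun hh => h (hh ▸ heZ'), h'⟩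
      · rw [e3 x h h']
        exact hκ.mem x hx
    · intro x hx
      by_cases h : x ∈ Z
      · rw [e1 x h]
        intro y hy
        rw [mem_insert, mem_singleton] at hy
        rcases hy with rfl | rfl
        · exact hx
        · exact hZW _ (hZμ x h)
      by_cases h' : x ∈ t
      · rw [e2 x h h']
        exact (erase_subset _ _).trans htW
      · rw [e3 x h h']
        exact hκ.sub x hx
    · intro x hx y hy
      by_cases h : x ∈ Z
      · rw [e1 x h] at hy ⊢
        rw [mem_insert, mem_singleton] at hy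
        rcases hy with rfl | rfl
        · exact e1 _ h
        · rw [e1 _ (hZμ x h), hμ.inv, pair_comm]
      by_cases h' : x ∈ t
      · rw [e2 x h h'] at hy ⊢
        rw [mem_erase] at hy
        exact e2 y (fun hh => hy.1 (htZ y hy.2 hh)) hy.2
      · rw [e3 x h h'] at hy ⊢
        obtain ⟨h1, h2⟩ := hout x hx h h' y hy
        rw [e3 y h1 h2]
        exact hκ.eq x hx y hy
    · intro x hx
      by_cases h : x ∈ Z
      · rw [e1 x h]
        obtain ⟨i, hi, hi2⟩ := hμ.adj x (hμ0 x (hWU hx))
        refine ⟨i, fun y hy => ?_⟩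
        rw [mem_insert, mem_singleton] at hy
        rcases hy with rfl | rfl
        · exact hi
        · exact hi2
      by_cases h' : x ∈ t
      · rw [e2 x h h']
        obtain ⟨i, hi⟩ := hκ.blk e heW
        exact ⟨i, (erase_subset _ _).trans hi⟩
      · rw [e3 x h h']
        exact hκ.blk x hx
  have h2 : W.image κ' ⊆ (Z.image fun x => ({x, μ x} : Finset α)) ∪
      insert (t.erase e) (((W \ Z) \ t).image κ) := by
    intro y hy
    obtain ⟨x, hx, rfl⟩ := mem_image.mp hy
    rw [mem_union, mem_insert]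
    by_cases h : x ∈ Z
    · left
      rw [e1 x h]
      exact mem_image_of_mem _ h
    by_cases h' : x ∈ t
    · right
      left
      exact e2 x h h'
    · right
      right
      rw [e3 x h h']
      exact mem_image_of_mem _ (mem_sdiff.mpr ⟨mem_sdiff.mpr ⟨hx, h⟩, h'⟩)
  have h3 : (W.image κ').card ≤ (Z.image fun x => ({x, μ x} : Finset α)).card +
      ((((W \ Z) \ t).image κ).card + 1) :=
    (card_le_card h2).trans ((card_union_le _ _).trans
      (Nat.add_le_add_left (card_insert_le _ _) _))
  -- lower bound for the old partition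
  have h4 : (Z.image fun x => ({x, ν x} : Finset α)).card ≤
      ((Z.erase e).image κ).card + 1 := by
    have h5 : (Z.image fun x => ({x, ν x} : Finset α)) ⊆ insert {e} ((Z.erase e).image κ) := by
      intro y hy
      obtain ⟨x, hx, rfl⟩ := mem_image.mp hy
      rw [mem_insert]
      by_cases h : x = e
      · left
        rw [h, heν, pair_eq_singleton]
      · right
        have h6 := hlab x hx (hZW x hx) (Or.inl h)
        show ({x, ν x} : Finset α) ∈ (Z.erase e).image κ
        rw [← h6]
        exact mem_image_of_mem _ (mem_erase.mpr ⟨h, hx⟩)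
    exact (card_le_card h5).trans (card_insert_le _ _)
  have hrest : ∀ y ∈ ((W \ Z) \ t).image κ, y ∉ (Z.erase e).image κ ∧ y ≠ t := by
    intro y hy
    obtain ⟨x, hx, rfl⟩ := mem_image.mp hy
    rw [mem_sdiff, mem_sdiff] at hx
    constructor
    · intro h
      obtain ⟨x', hx', h5⟩ := mem_image.mp h
      have h6 := mem_erase.mp hx'
      have h7 : x' ∈ κ x := by
        rw [← h5]
        exact hκ.mem x' (hZW x' h6.2)
      exact (hout x hx.1.1 hx.1.2 hx.2 x' h7).1 h6.2
    · intro h
      have := hκ.mem x hx.1.1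
      rw [h] at this
      exact hx.2 this
  have htn : t ∉ (Z.erase e).image κ := by
    intro h
    obtain ⟨x, hx, h5⟩ := mem_image.mp h
    have h6 := mem_erase.mp hx
    have h7 := hκ.mem x (hZW x h6.2)
    rw [h5] at h7
    exact h6.1 (htZ x h7 h6.2)
  have h5 : ((Z.erase e).image κ).card + (((W \ Z) \ t).image κ).card + 1 ≤
      (W.image κ).card := by
    have h6 : ((Z.erase e).image κ ∪ ((W \ Z) \ t).image κ).card =
        ((Z.erase e).image κ).card + (((W \ Z) \ t).image κ).card := by
      rw [card_union_of_disjoint]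
      rw [disjoint_right]
      exact fun y hy => (hrest y hy).1
    have h7 : t ∉ (Z.erase e).image κ ∪ ((W \ Z) \ t).image κ := by
      rw [mem_union, not_or]
      exact ⟨htn, fun h => (hrest t h).2 rfl⟩
    rw [← h6, ← card_insert_of_notMem h7]
    apply card_le_card
    intro y hy
    rcases mem_insert.mp hy with rfl | hy
    · exact mem_image_of_mem κ heW
    rcases mem_union.mp hy with hy | hy
    · obtain ⟨x, hx, rfl⟩ := mem_image.mp hy
      exact mem_image_of_mem _ (hZW x (mem_erase.mp hx).2)
    · obtain ⟨x, hx, rfl⟩ := mem_image.mp hy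
      exact mem_image_of_mem _ (mem_sdiff.mp (mem_sdiff.mp hx).1).1
  have h6 : (W.image κ').card ≤ tau b W := by omega
  have h7 := hmin κ' hP h6
  have h8 : tri W κ' ⊆ (tri W κ).erase t := by
    intro y hy
    unfold tri at hy ⊢
    rw [mem_filter] at hy
    rw [mem_erase, mem_filter]
    rcases mem_union.mp (h2 hy.1) with h | h
    · exfalso
      obtain ⟨x, -, rfl⟩ := mem_image.mp h
      have : ({x, μ x} : Finset α).card ≤ 2 := card_le_two
      omega
    rcases mem_insert.mp h with h | h
    · exfalso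
      rw [h, card_erase_of_mem het, he3] at hy
      omega
    · refine ⟨(hrest y h).2, ?_, hy.2⟩
      obtain ⟨x, hx, rfl⟩ := mem_image.mp h
      exact mem_image_of_mem _ (mem_sdiff.mp (mem_sdiff.mp hx).1).1
  have h9 := card_le_card h8
  have h10 : t ∈ tri W κ := mem_filter.mpr ⟨mem_image_of_mem κ heW, he3⟩
  rw [card_erase_of_mem h10] at h9
  have h11 : 0 < (tri W κ).card := card_pos.mpr ⟨t, h10⟩
  omega

/-- **L3.** An allowed face. -/
theorem allowed_face {b : ι → Finset α} (hsz : ∀ i, (b i).card ≤ 3) {U : Finset α}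
    (hc : Cb b U) {μ : α → α} (hμ : Mt b U μ) (hμ0 : ∀ x ∈ U, μ x ≠ x)
    (hτ : 2 * tau b U = U.card) {v : α} (hv : v ∈ U)
    (hv1 : tau b (U.erase v) + 1 = tau b U) :
    ∃ (P : Finset α) (i : ι) (ν : α → α), P ⊆ U.erase v ∧ P.card = 3 ∧ P ⊆ b i ∧
      Mt b (U.erase v \ P) ν ∧ ∀ x ∈ U.erase v \ P, ν x ≠ x := by
  classical
  set W := U.erase v with hW
  have hWU : W ⊆ U := erase_subset _ _
  have hcW : Cb b W := hc.mono hWU
  -- a partition with the fewest triples
  obtain ⟨κ, hκ, hκ2, hmin⟩ : ∃ κ, Pt b W κ ∧ (W.image κ).card ≤ tau b W ∧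
      ∀ κ', Pt b W κ' → (W.image κ').card ≤ tau b W → (tri W κ).card ≤ (tri W κ').card := by
    let S : Set ℕ := {t | ∃ κ, Pt b W κ ∧ (W.image κ).card ≤ tau b W ∧ (tri W κ).card = t}
    have hS : S.Nonempty := by
      obtain ⟨κ, h1, h2⟩ := exists_pt hcW
      exact ⟨_, κ, h1, h2, rfl⟩
    obtain ⟨κ, h1, h2, h3⟩ := Nat.sInf_mem hS
    refine ⟨κ, h1, h2, fun κ' h4 h5 => ?_⟩
    rw [h3]
    exact Nat.sInf_le ⟨κ', h4, h5, rfl⟩
  have hno : ∀ x ∈ W, (κ x).card = 2 ∨ (κ x).card = 3 := by
    intro x hx
    rcases part_card_le hsz hκ hx with h | h | h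
    · exfalso
      obtain ⟨y, hy⟩ := card_eq_one.mp h
      have h1 := hκ.mem x hx
      rw [hy, mem_singleton] at h1
      refine no_single hsz hc hμ hμ0 hv hv1 hκ hκ2 hmin hx ?_
      rw [hy, h1]
    · exact Or.inl h
    · exact Or.inr h
  -- counting
  have hsum : W.card = ∑ t ∈ W.image κ, t.card := by
    rw [card_eq_sum_card_image κ W]
    apply sum_congr rfl
    intro t ht
    obtain ⟨x, hx, rfl⟩ := mem_image.mp ht
    congr 1
    ext y
    rw [mem_filter]
    constructor
    · rintro ⟨h1, h2⟩
      rw [← h2]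
      exact hκ.mem y h1
    · intro h
      exact ⟨hκ.sub x hx h, hκ.eq x hx y h⟩
  have hsum2 : ∑ t ∈ W.image κ, t.card = 2 * (W.image κ).card + (tri W κ).card := by
    have h1 : ∀ t ∈ W.image κ, t.card = 2 + if t.card = 3 then 1 else 0 := by
      intro t ht
      obtain ⟨x, hx, rfl⟩ := mem_image.mp ht
      rcases hno x hx with h | h
      · rw [h]
        rfl
      · rw [h]
        rfl
    rw [sum_congr rfl h1, sum_add_distrib, sum_const, smul_eq_mul, mul_comm]
    congr 1
    unfold tri
    rw [card_filter]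
  have hWc : W.card + 1 = U.card := by
    rw [hW, card_erase_of_mem hv]
    have : 0 < U.card := card_pos.mpr ⟨v, hv⟩
    omega
  have hle := hκ.tau_le
  have htri : (tri W κ).card = 1 := by omega
  obtain ⟨P, hP⟩ := card_eq_one.mp htri
  have hPm : P ∈ tri W κ := by
    rw [hP]
    exact mem_singleton_self P
  unfold tri at hPm
  rw [mem_filter] at hPm
  obtain ⟨x0, hx0, hx1⟩ := mem_image.mp hPm.1
  obtain ⟨i, hi⟩ := hκ.blk x0 hx0
  have hPW : P ⊆ W := by
    rw [← hx1]
    exact hκ.sub x0 hx0
  have hc2 : ∀ x ∈ W, x ∉ P → (κ x).card = 2 := by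
    intro x hx hxP
    rcases hno x hx with h | h
    · exact h
    · exfalso
      have h1 : κ x ∈ tri W κ := mem_filter.mpr ⟨mem_image_of_mem κ hx, h⟩
      rw [hP, mem_singleton] at h1
      have h2 := hκ.mem x hx
      rw [h1] at h2
      exact hxP h2
  have hPk : ∀ x ∈ P, κ x = P := by
    intro x hx
    rw [← hx1] at hx ⊢
    exact hκ.eq x0 hx0 x hx
  refine ⟨P, i, pr W κ, hPW, hPm.2, hx1 ▸ hi, ⟨pr_inv hκ, ?_, ?_⟩, ?_⟩
  · intro x hx
    by_contra h
    obtain ⟨h1, h2⟩ := pr_ne hκ h
    apply hx
    rw [mem_sdiff]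
    refine ⟨h1, fun h3 => ?_⟩
    rw [hPk x h3] at h2
    have := hPm.2
    omega
  · exact (pr_mt hκ).adj
  · intro x hx
    rw [mem_sdiff] at hx
    exact (pr_card hκ hx.1 (hc2 x hx.1 hx.2)).1

end Pool.Agent.Helper20.C5
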