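import Pool.Agent.Helper20.C5.Dk
import Pool.Agent.Helper34.C5.Glue
import Pool.Agent.Helper74.C5.One

/-!
# The assembly of the case distinctions for the minimal counterexample
-/

set_option linter.unusedSectionVars false

open Finset

namespace Pool.Agent.Helper20.C5

open Pool.Agent.Helper74.C5

/-- The case `e* = -1`. -/
def Ten : Prop :=
  ∀ (α ι : Type) [DecidableEq α] [DecidableEq ι] [Fintype ι] (b : ι → Finset α) (V : Finset α),
    MC b V → ee b V - ((sp b V).card : ℤ) = -1 → False

/-- The double cuts with `k` further points. -/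
def Dbk (k : ℕ) : Prop :=
  ∀ (α ι : Type) [DecidableEq α] [DecidableEq ι] [Fintype ι] (b : ι → Finset α) (V : Finset α),
    MC b V → ee b V - ((sp b V).card : ℤ) ≤ -2 → ∀ i0 j0 U, DV b V U i0 j0 k → False

/-- The number of further points is at most two. -/
theorem DV.k_le {α ι : Type} [DecidableEq α] [DecidableEq ι] [Fintype ι] {b : ι → Finset α}
    {V U : Finset α} {i0 j0 : ι} {k : ℕ} (h : DV b V U i0 j0 k) (hMC : MC b V) (hKP : KP)
    (hFM : FM) (he : ee b V - ((sp b V).card : ℤ) ≤ -2) :
    2 ≤ (ins b V U).card ∧ 0 ≤ ee b V - ((sp b V).card : ℤ) + 10 - 2 * (ins b V U).card - 2 * k := by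
  have h1 := h.sum hMC.sys
  have h2 := sum_nonneg fun C hC => h.nn hKP hMC.sys (C := C) hC
  have h0 : (sp b V ∩ (V \ U)).card = 0 := by
    rw [hMC.nosp hKP hFM he h.p3, empty_inter, card_empty]
  rw [h1, h0] at h2
  have h3 : ({i0, j0} : Finset ι) ⊆ ins b V U := by
    intro i hi
    unfold ins
    rw [mem_filter]
    rw [mem_insert, mem_singleton] at hi
    rcases hi with rfl | rfl
    · exact ⟨mem_univ _, card_pos.mp (by rw [h.p3]; omega), h.pu⟩
    · exact ⟨mem_univ _, card_pos.mp (by rw [h.q3]; omega), h.qu⟩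
  have h4 : i0 ≠ j0 := by
    rintro rfl
    have h5 := h.pq
    rw [disjoint_self] at h5
    have h6 := h.p3
    rw [h5, bot_eq_empty, card_empty] at h6
    omega
  have h5 := card_le_card h3
  rw [card_pair h4] at h5
  refine ⟨h5, ?_⟩
  push_cast at h2
  linarith

/-- **Assembly**. -/
theorem c34v_of (h10 : Ten) (h1 : Dbk 1) (h2 : Dbk 2) : Pool.Agent.Helper34.C5.C34V := by
  have key : ∀ n, ClV n := by
    intro n
    induction n with
    | zero => exact fun α ι _ _ _ b U h => absurd h (Nat.not_lt_zero _)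
    | succ n ih =>
      intro α ι _ _ _ b V hn hne hsys hcon hvc htf hD
      rcases Nat.lt_succ_iff_lt_or_eq.mp hn with hn | hn
      · exact ih α ι b V hn hne hsys hcon hvc htf hD
      subst hn
      by_contra hneg
      rw [not_le] at hneg
      have hMC : MC b V := ⟨hsys, hcon, hvc, htf, ih, hneg, hD, hne⟩
      have h3 : ee b V - ((sp b V).card : ℤ) < 0 := by
        unfold Pot at hneg
        omega
      have h4 : ee b V - ((sp b V).card : ℤ) = -1 ∨ ee b V - ((sp b V).card : ℤ) ≤ -2 := by
        omega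
      rcases h4 with h4 | h4
      · exact h10 α ι b V hMC h4
      · obtain ⟨i0, j0, U, k, h5⟩ := exists_double hMC kp fm h4
        refine dead0 hMC kp fm h4 ?_ h5
        intro i0 j0 U k h6
        obtain ⟨h7, h8⟩ := DV.k_le h6 hMC kp fm h4
        have h9 : k = 0 ∨ k = 1 ∨ k = 2 := by omega
        rcases h9 with rfl | rfl | rfl
        · rfl
        · exact (h1 α ι b V hMC h4 i0 j0 U h6).elim
        · exact (h2 α ι b V hMC h4 i0 j0 U h6).elim
  intro α ι _ _ _ b U hne hsys hcon hvc htf hD
  exact key (U.card + 1) α ι b U (Nat.lt_succ_self _) hne hsys hcon hvc htf hD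

theorem one : Dbk 1 := fun _ _ _ _ _ _ _ hMC he _ _ _ h => MC.no1 hMC he h

/-- The assembly, with one further point done. -/
theorem c34v_two (h10 : Ten) (h2 : Dbk 2) : Pool.Agent.Helper34.C5.C34V := c34v_of h10 one h2

end Pool.Agent.Helper20.C5
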