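import Pool.Agent.Helper20.C5.Sys

/-!
# The cap lemma

A trace `W` is capped by new points (groups of outside points) and own blocks.
-/

set_option linter.unusedSectionVars false

open Finset

namespace Pool.Agent.Helper20.C5

/-- The induction hypothesis: `(S*)` for systems with fewer than `n` points. -/
def IH (n : ℕ) : Prop :=
  ∀ (α ι : Type) [DecidableEq α] [DecidableEq ι] [Fintype ι] (b : ι → Finset α) (U : Finset α),
    U.Nonempty → U.card < n → Sys b U → CC b U → Con b U → ¬ Dt b U →
    ((sp b U).card : ℤ) ≤ ee b U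

variable {α ι : Type} [DecidableEq α] [DecidableEq ι] [Fintype ι]
variable {J K : Type} [DecidableEq J] [Fintype J] [DecidableEq K] [Fintype K]

/-! ## Double counting -/

theorem sum_deg {b : ι → Finset α} {U : Finset α} (h : Sys b U) :
    ∑ i ∈ mt b U, (b i ∩ U).card = 5 * U.card := by
  have h1 : ∑ i ∈ mt b U, (b i ∩ U).card = ∑ i, (b i ∩ U).card := by
    unfold mt
    rw [sum_filter]
    apply sum_congr rfl
    intro i _
    by_cases h2 : (b i ∩ U).Nonempty
    · rw [if_pos h2]
    · rw [if_neg h2, not_nonempty_iff_eq_empty.mp h2, card_empty]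
  rw [h1]
  have h2 : ∀ i, (b i ∩ U).card = ∑ x ∈ U, if x ∈ b i then 1 else 0 := by
    intro i
    rw [inter_comm, ← filter_mem_eq_inter, card_filter]
  simp_rw [h2]
  rw [sum_comm]
  have h3 : ∀ x ∈ U, (∑ i, if x ∈ b i then 1 else 0) = 5 := by
    intro x hx
    rw [← card_filter]
    exact h.deg x hx
  rw [sum_congr rfl h3, sum_const, smul_eq_mul, mul_comm]

theorem dt_card {b : ι → Finset α} {U : Finset α} (h : Sys b U) (hD : Dt b U) :
    ∀ i ∈ mt b U, (b i ∩ U).card = 3 := by
  intro i hi
  obtain ⟨h1, h2, -⟩ := hD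
  have h3 := sum_deg h
  rw [h1] at h3
  by_contra hne
  have h4 : (b i ∩ U).card < 3 := lt_of_le_of_ne (h.sz i) hne
  have h5 : ∑ i ∈ mt b U, (b i ∩ U).card < ∑ _i ∈ mt b U, 3 :=
    sum_lt_sum (fun j _ => h.sz j) ⟨i, hi, h4⟩
  rw [sum_const, smul_eq_mul] at h5
  unfold nb at h2
  rw [h2] at h5
  omega

/-! ## The capped system -/

/-- The blocks of the capped system. -/
def cb (b : ι → Finset α) (W : Finset α) (I : J → Finset ι) (O : K → Finset J) :
    ι ⊕ K → Finset (α ⊕ J)
  | Sum.inl i => (b i ∩ W).map Function.Embedding.inl ∪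
      (univ.filter fun j => i ∈ I j).map Function.Embedding.inr
  | Sum.inr t => (O t).map Function.Embedding.inr

/-- The points of the capped system. -/
def cU (J : Type) [DecidableEq J] [Fintype J] (W : Finset α) : Finset (α ⊕ J) :=
  W.map Function.Embedding.inl ∪ univ.map Function.Embedding.inr

theorem inl_cU {W : Finset α} {x : α} : (Sum.inl x : α ⊕ J) ∈ cU J W ↔ x ∈ W := by
  unfold cU
  rw [mem_union, mem_map, mem_map]
  constructor
  · rintro (⟨y, hy, h⟩ | ⟨j, -, h⟩)
    · rw [← Sum.inl_injective h]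
      exact hy
    · exact absurd h (by simp)
  · exact fun h => Or.inl ⟨x, h, rfl⟩

theorem inr_cU {W : Finset α} {j : J} : (Sum.inr j : α ⊕ J) ∈ cU J W := by
  unfold cU
  rw [mem_union, mem_map, mem_map]
  exact Or.inr ⟨j, mem_univ j, rfl⟩

theorem card_cU {W : Finset α} : (cU J W).card = W.card + Fintype.card J := by
  unfold cU
  rw [card_union_of_disjoint, card_map, card_map, card_univ]
  rw [disjoint_left]
  intro x hx hx2
  obtain ⟨y, -, rfl⟩ := mem_map.mp hx
  obtain ⟨j, -, h⟩ := mem_map.mp hx2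
  exact absurd h (by simp)

theorem inl_cb {b : ι → Finset α} {W : Finset α} {I : J → Finset ι} {O : K → Finset J} {i : ι}
    {x : α} : (Sum.inl x : α ⊕ J) ∈ cb b W I O (Sum.inl i) ↔ x ∈ b i ∧ x ∈ W := by
  show _ ∈ (b i ∩ W).map Function.Embedding.inl ∪
    (univ.filter fun j => i ∈ I j).map Function.Embedding.inr ↔ _
  rw [mem_union, mem_map, mem_map]
  constructor
  · rintro (⟨y, hy, h⟩ | ⟨j, -, h⟩)
    · rw [← Sum.inl_injective h]
      exact mem_inter.mp hy
    · exact absurd h (by simp)
  · exact fun h => Or.inl ⟨x, mem_inter.mpr h, rfl⟩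

theorem inr_cb {b : ι → Finset α} {W : Finset α} {I : J → Finset ι} {O : K → Finset J} {i : ι}
    {j : J} : (Sum.inr j : α ⊕ J) ∈ cb b W I O (Sum.inl i) ↔ i ∈ I j := by
  show _ ∈ (b i ∩ W).map Function.Embedding.inl ∪
    (univ.filter fun j => i ∈ I j).map Function.Embedding.inr ↔ _
  rw [mem_union, mem_map, mem_map]
  constructor
  · rintro (⟨y, hy, h⟩ | ⟨j', hj', h⟩)
    · exact absurd h (by simp)
    · rw [← Sum.inr_injective h]
      exact (mem_filter.mp hj').2
  · exact fun h => Or.inr ⟨j, mem_filter.mpr ⟨mem_univ j, h⟩, rfl⟩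

theorem inl_cb' {b : ι → Finset α} {W : Finset α} {I : J → Finset ι} {O : K → Finset J} {t : K}
    {x : α} : (Sum.inl x : α ⊕ J) ∉ cb b W I O (Sum.inr t) := by
  show _ ∉ (O t).map Function.Embedding.inr
  rw [mem_map]
  rintro ⟨j, -, h⟩
  exact absurd h (by simp)

theorem inr_cb' {b : ι → Finset α} {W : Finset α} {I : J → Finset ι} {O : K → Finset J} {t : K}
    {j : J} : (Sum.inr j : α ⊕ J) ∈ cb b W I O (Sum.inr t) ↔ j ∈ O t := by
  show _ ∈ (O t).map Function.Embedding.inr ↔ _
  rw [mem_map]
  constructor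
  · rintro ⟨j', hj', h⟩
    rw [← Sum.inr_injective h]
    exact hj'
  · exact fun h => ⟨j, h, rfl⟩

/-- The data of a cap. -/
structure Cap (b : ι → Finset α) (V W : Finset α) (g : J → Finset α) (I : J → Finset ι)
    (O : K → Finset J) : Prop where
  sys : Sys b V
  sub : W ⊆ V
  ne : W.Nonempty
  con : Con b W
  gV : ∀ j, g j ⊆ V \ W
  gd : ∀ j j', j ≠ j' → Disjoint (g j) (g j')
  IW : ∀ j, ∀ i ∈ I j, ∃ x ∈ W, x ∈ b i
  Ig : ∀ j, ∀ i ∈ I j, ∃ y ∈ g j, y ∈ b i
  Ine : ∀ j, (I j).Nonempty
  deg : ∀ j, (I j).card + (univ.filter fun t => j ∈ O t).card = 5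
  O3 : ∀ t, (O t).card ≤ 3
  One : ∀ t, (O t).Nonempty

section

variable {b : ι → Finset α} {V W : Finset α} {g : J → Finset α} {I : J → Finset ι}
  {O : K → Finset J}

theorem Cap.size (h : Cap b V W g I O) (i : ι) :
    (b i ∩ W).card + (univ.filter fun j => i ∈ I j).card ≤ (b i ∩ V).card := by
  classical
  have h1 : ∀ j ∈ univ.filter (fun j => i ∈ I j), ∃ y ∈ g j, y ∈ b i := by
    intro j hj
    exact h.Ig j i (mem_filter.mp hj).2
  obtain ⟨x0, -⟩ := h.ne
  have : Nonempty α := ⟨x0⟩
  choose! f hf hf2 using h1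
  have h2 : ((univ.filter fun j => i ∈ I j).image f).card =
      (univ.filter fun j => i ∈ I j).card := by
    apply card_image_of_injOn
    intro j hj j' hj' hjj
    by_contra hne
    have h3 := hf j hj
    have h4 := hf j' hj'
    have h5 : f j = f j' := hjj
    rw [h5] at h3
    exact (disjoint_left.mp (h.gd j j' hne)) h3 h4
  rw [← h2, ← card_union_of_disjoint]
  · apply card_le_card
    intro x hx
    rcases mem_union.mp hx with hx | hx
    · rw [mem_inter] at hx ⊢
      exact ⟨hx.1, h.sub hx.2⟩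
    · obtain ⟨j, hj, rfl⟩ := mem_image.mp hx
      rw [mem_inter]
      exact ⟨hf2 j hj, (mem_sdiff.mp (h.gV j (hf j hj))).1⟩
  · rw [disjoint_left]
    intro x hx hx2
    obtain ⟨j, hj, rfl⟩ := mem_image.mp hx2
    exact (mem_sdiff.mp (h.gV j (hf j hj))).2 (mem_inter.mp hx).2

theorem Cap.cap_sys (h : Cap b V W g I O) : Sys (cb b W I O) (cU J W) := by
  refine ⟨?_, ?_⟩
  · intro x hx
    have h1 : (univ.filter fun i => x ∈ cb b W I O i).card =
        (univ.filter fun i => x ∈ cb b W I O (Sum.inl i)).card +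
        (univ.filter fun t => x ∈ cb b W I O (Sum.inr t)).card := by
      rw [card_filter, Fintype.sum_sum_type, ← card_filter, ← card_filter]
    rw [h1]
    cases x with
    | inl x =>
      rw [inl_cU] at hx
      have h2 : (univ.filter fun t => (Sum.inl x : α ⊕ J) ∈ cb b W I O (Sum.inr t)) = ∅ := by
        ext t
        rw [mem_filter]
        exact ⟨fun h => absurd h.2 inl_cb', fun h => absurd h (notMem_empty t)⟩
      have h3 : (univ.filter fun i => (Sum.inl x : α ⊕ J) ∈ cb b W I O (Sum.inl i)) =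
          univ.filter fun i => x ∈ b i := by
        ext i
        rw [mem_filter, mem_filter, inl_cb]
        exact ⟨fun h => ⟨h.1, h.2.1⟩, fun h => ⟨h.1, h.2, hx⟩⟩
      rw [h2, h3, card_empty]
      exact h.sys.deg x (h.sub hx)
    | inr j =>
      have h2 : (univ.filter fun t => (Sum.inr j : α ⊕ J) ∈ cb b W I O (Sum.inr t)) =
          univ.filter fun t => j ∈ O t := by
        ext t
        rw [mem_filter, mem_filter, inr_cb']
      have h3 : (univ.filter fun i => (Sum.inr j : α ⊕ J) ∈ cb b W I O (Sum.inl i)) = I j := by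
        ext i
        rw [mem_filter, inr_cb]
        exact ⟨fun h => h.2, fun h => ⟨mem_univ i, h⟩⟩
      rw [h2, h3]
      exact h.deg j
  · intro x
    cases x with
    | inl i =>
      have h1 : cb b W I O (Sum.inl i) ∩ cU J W ⊆ cb b W I O (Sum.inl i) := inter_subset_left
      refine (card_le_card h1).trans ?_
      have h2 : (cb b W I O (Sum.inl i)).card ≤
          (b i ∩ W).card + (univ.filter fun j => i ∈ I j).card := by
        show ((b i ∩ W).map Function.Embedding.inl ∪
          (univ.filter fun j => i ∈ I j).map Function.Embedding.inr).card ≤ _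
        refine (card_union_le _ _).trans ?_
        rw [card_map, card_map]
      exact h2.trans ((h.size i).trans (h.sys.sz i))
    | inr t =>
      have h1 : cb b W I O (Sum.inr t) ∩ cU J W ⊆ cb b W I O (Sum.inr t) := inter_subset_left
      refine (card_le_card h1).trans ?_
      show ((O t).map Function.Embedding.inr).card ≤ 3
      rw [card_map]
      exact h.O3 t

theorem Cap.nb_le (h : Cap b V W g I O) :
    nb (cb b W I O) (cU J W) = nb b W + Fintype.card K := by
  unfold nb
  have h1 : mt (cb b W I O) (cU J W) =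
      (mt b W).map Function.Embedding.inl ∪ univ.map Function.Embedding.inr := by
    ext x
    rw [mem_mt, mem_union, mem_map, mem_map]
    cases x with
    | inl i =>
      constructor
      · rintro ⟨y, hy, hy2⟩
        left
        refine ⟨i, ?_, rfl⟩
        rw [mem_mt]
        cases y with
        | inl y =>
          rw [inl_cb] at hy2
          exact ⟨y, hy2.2, hy2.1⟩
        | inr j =>
          rw [inr_cb] at hy2
          exact h.IW j i hy2
      · rintro (⟨i', hi', h2⟩ | ⟨t, -, h2⟩)
        · rw [← Sum.inl_injective h2]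
          obtain ⟨y, hy, hy2⟩ := mem_mt.mp hi'
          exact ⟨Sum.inl y, inl_cU.mpr hy, inl_cb.mpr ⟨hy2, hy⟩⟩
        · exact absurd h2 (by simp)
    | inr t =>
      constructor
      · intro _
        exact Or.inr ⟨t, mem_univ t, rfl⟩
      · intro _
        obtain ⟨j, hj⟩ := h.One t
        exact ⟨Sum.inr j, inr_cU, inr_cb'.mpr hj⟩
  rw [h1, card_union_of_disjoint, card_map, card_map, card_univ]
  rw [disjoint_left]
  intro x hx hx2
  obtain ⟨y, -, rfl⟩ := mem_map.mp hx
  obtain ⟨j, -, h⟩ := mem_map.mp hx2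
  exact absurd h (by simp)

/-- The groups which are not covered by the own blocks in `T`. -/
def uc (O : K → Finset J) (T : Finset K) : Finset J := univ.filter fun j => ∀ t ∈ T, j ∉ O t

/-- The absorption hypothesis at level `L`. -/
def Abs (b : ι → Finset α) (W : Finset α) (g : J → Finset α) (O : K → Finset J) (L : ℕ) : Prop :=
  ∀ T : Finset K, ∀ f : J → α, (∀ j ∈ uc O T, f j ∈ g j) →
    tau b W + L ≤ tau b (W ∪ (uc O T).image f) + T.card

theorem Cap.tau_ge (h : Cap b V W g I O) {L : ℕ} (hA : Abs b W g O L) :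
    tau b W + L ≤ tau (cb b W I O) (cU J W) := by
  classical
  obtain ⟨s, hs, hcov⟩ := tau_cv h.cap_sys.cb
  let T : Finset K := univ.filter fun t => Sum.inr t ∈ s
  let S : Finset ι := univ.filter fun i => Sum.inl i ∈ s
  have hST : S.card + T.card ≤ s.card := by
    have h1 : S.map Function.Embedding.inl ∪ T.map Function.Embedding.inr ⊆ s := by
      intro x hx
      rcases mem_union.mp hx with hx | hx
      · obtain ⟨i, hi, rfl⟩ := mem_map.mp hx
        exact (mem_filter.mp hi).2
      · obtain ⟨i, hi, rfl⟩ := mem_map.mp hx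
        exact (mem_filter.mp hi).2
    have h2 := card_le_card h1
    rw [card_union_of_disjoint, card_map, card_map] at h2
    · exact h2
    · rw [disjoint_left]
      intro x hx hx2
      obtain ⟨y, -, rfl⟩ := mem_map.mp hx
      obtain ⟨j, -, h⟩ := mem_map.mp hx2
      exact absurd h (by simp)
  have h1 : ∀ j ∈ uc O T, ∃ y ∈ g j, ∃ i ∈ S, y ∈ b i := by
    intro j hj
    obtain ⟨x, hx, hx2⟩ := hcov (Sum.inr j) inr_cU
    cases x with
    | inl i =>
      rw [inr_cb] at hx2
      obtain ⟨y, hy, hy2⟩ := h.Ig j i hx2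
      exact ⟨y, hy, i, mem_filter.mpr ⟨mem_univ i, hx⟩, hy2⟩
    | inr t =>
      rw [inr_cb'] at hx2
      exact absurd hx2 ((mem_filter.mp hj).2 t (mem_filter.mpr ⟨mem_univ t, hx⟩))
  obtain ⟨x0, hx0⟩ := h.ne
  have : Nonempty α := ⟨x0⟩
  choose! f hf hf2 using h1
  have h2 := hA T f hf
  have h3 : tau b (W ∪ (uc O T).image f) ≤ S.card := by
    apply tau_le
    refine ⟨S, le_rfl, fun x hx => ?_⟩
    rcases mem_union.mp hx with hx | hx
    · obtain ⟨y, hy, hy2⟩ := hcov (Sum.inl x) (inl_cU.mpr hx)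
      cases y with
      | inl i => exact ⟨i, mem_filter.mpr ⟨mem_univ i, hy⟩, (inl_cb.mp hy2).1⟩
      | inr t => exact absurd hy2 inl_cb'
    · obtain ⟨j, hj, rfl⟩ := mem_image.mp hx
      exact hf2 j hj
  omega

theorem Cap.cap_con (h : Cap b V W g I O) : Con (cb b W I O) (cU J W) := by
  have hW : ∀ (x y : α) (p : (Bg b W).Walk x y),
      (Bg (cb b W I O) (cU J W)).Reachable (Sum.inl x) (Sum.inl y) := by
    intro x y p
    induction p with
    | nil => exact SimpleGraph.Reachable.refl _
    | @cons x w y hadj q ih =>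
      obtain ⟨h1, h2, h3, i, h4, h5⟩ := hadj
      refine SimpleGraph.Reachable.trans (SimpleGraph.Adj.reachable ?_) ih
      exact ⟨fun h => h1 (Sum.inl_injective h), inl_cU.mpr h2, inl_cU.mpr h3, Sum.inl i,
        inl_cb.mpr ⟨h4, h2⟩, inl_cb.mpr ⟨h5, h3⟩⟩
  obtain ⟨x0, hx0⟩ := h.ne
  have key : ∀ z ∈ cU J W, (Bg (cb b W I O) (cU J W)).Reachable (Sum.inl x0) z := by
    intro z hz
    cases z with
    | inl y =>
      obtain ⟨p⟩ := h.con x0 hx0 y (inl_cU.mp hz)
      exact hW x0 y p
    | inr j =>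
      obtain ⟨i, hi⟩ := h.Ine j
      obtain ⟨x, hx, hx2⟩ := h.IW j i hi
      obtain ⟨p⟩ := h.con x0 hx0 x hx
      refine (hW x0 x p).trans (SimpleGraph.Adj.reachable ?_)
      exact ⟨by simp, inl_cU.mpr hx, hz, Sum.inl i, inl_cb.mpr ⟨hx2, hx⟩, inr_cb.mpr hi⟩
  intro x hx y hy
  exact (key x hx).symm.trans (key y hy)

/-- The special new points. -/
def sq (O : K → Finset J) : Finset J :=
  univ.filter fun j => 2 ≤ (univ.filter fun t => O t = {j}).card

theorem Cap.sp_ge (h : Cap b V W g I O) :
    (sp b V ∩ W).card + (sq O).card ≤ (sp (cb b W I O) (cU J W)).card := by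
  have h1 : (sp b V ∩ W).map Function.Embedding.inl ∪ (sq O).map Function.Embedding.inr ⊆
      sp (cb b W I O) (cU J W) := by
    intro x hx
    unfold sp
    rw [mem_filter]
    rcases mem_union.mp hx with hx | hx
    · obtain ⟨y, hy, rfl⟩ := mem_map.mp hx
      rw [mem_inter] at hy
      refine ⟨inl_cU.mpr hy.2, ?_⟩
      have h2 := (mem_filter.mp hy.1).2
      have h3 : ((univ.filter fun i => b i ∩ V = {y}).map Function.Embedding.inl :
          Finset (ι ⊕ K)) ⊆ univ.filter fun i => cb b W I O i ∩ cU J W =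
            {(Function.Embedding.inl y : α ⊕ J)} := by
        intro z hz
        obtain ⟨i, hi, rfl⟩ := mem_map.mp hz
        rw [mem_filter] at hi ⊢
        refine ⟨mem_univ _, ?_⟩
        ext z
        rw [mem_inter, mem_singleton]
        cases z with
        | inl z =>
          constructor
          · rintro ⟨h4, h5⟩
            have h6 := inl_cb.mp h4
            have h7 : z ∈ b i ∩ V := mem_inter.mpr ⟨h6.1, h.sub h6.2⟩
            rw [hi.2, mem_singleton] at h7
            rw [h7]
            rfl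
          · intro h4
            have h5 : z = y := Sum.inl_injective h4
            rw [h5]
            have h6 : y ∈ b i ∩ V := by
              rw [hi.2]
              exact mem_singleton_self y
            exact ⟨inl_cb.mpr ⟨(mem_inter.mp h6).1, hy.2⟩, inl_cU.mpr hy.2⟩
        | inr j =>
          constructor
          · rintro ⟨h4, h5⟩
            have h6 := inr_cb.mp h4
            obtain ⟨z, hz, hz2⟩ := h.Ig j i h6
            have h7 := mem_sdiff.mp (h.gV j hz)
            have h8 : z ∈ b i ∩ V := mem_inter.mpr ⟨hz2, h7.1⟩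
            rw [hi.2, mem_singleton] at h8
            rw [h8] at h7
            exact absurd hy.2 h7.2
          · intro h4
            exact absurd h4 (by simp)
      have h4 := card_le_card h3
      rw [card_map] at h4
      exact h2.trans h4
    · obtain ⟨j, hj, rfl⟩ := mem_map.mp hx
      refine ⟨inr_cU, ?_⟩
      have h2 := (mem_filter.mp hj).2
      have h3 : ((univ.filter fun t => O t = {j}).map Function.Embedding.inr :
          Finset (ι ⊕ K)) ⊆ univ.filter fun i => cb b W I O i ∩ cU J W =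
            {(Function.Embedding.inr j : α ⊕ J)} := by
        intro z hz
        obtain ⟨t, ht, rfl⟩ := mem_map.mp hz
        rw [mem_filter] at ht ⊢
        refine ⟨mem_univ _, ?_⟩
        ext z
        rw [mem_inter, mem_singleton]
        cases z with
        | inl z =>
          constructor
          · rintro ⟨h4, h5⟩
            exact absurd h4 inl_cb'
          · intro h4
            exact absurd h4 (by simp)
        | inr j' =>
          constructor
          · rintro ⟨h4, h5⟩
            have h6 := inr_cb'.mp h4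
            rw [ht.2, mem_singleton] at h6
            rw [h6]
            rfl
          · intro h4
            have h5 : j' = j := Sum.inr_injective h4
            rw [h5]
            refine ⟨inr_cb'.mpr ?_, inr_cU⟩
            rw [ht.2]
            exact mem_singleton_self j
      have h4 := card_le_card h3
      rw [card_map] at h4
      exact h2.trans h4
  have h2 := card_le_card h1
  rw [card_union_of_disjoint, card_map, card_map] at h2
  · exact h2
  · rw [disjoint_left]
    intro x hx hx2
    obtain ⟨y, -, rfl⟩ := mem_map.mp hx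
    obtain ⟨j, -, h⟩ := mem_map.mp hx2
    exact absurd h (by simp)

/-- **The cap lemma**, general form. -/
theorem Cap.main (h : Cap b V W g I O) {n : ℕ} (hIH : IH n) {L : ℕ} (hA : Abs b W g O L)
    (hn : W.card + Fintype.card J < n) (hnD : W.card + Fintype.card J ≠ 6 ∨
      ∃ t, (O t).card ≤ 2) {μ : α ⊕ J → α ⊕ J} (hμ : Mt (cb b W I O) (cU J W) μ)
    (hμ2 : W.card + Fintype.card J + (ex μ (cU J W)).card ≤ 2 * (tau b W + L)) :
    ((sp b V ∩ W).card : ℤ) + (sq O).card + 11 * L ≤
      ee b W + 2 * Fintype.card J + 2 * Fintype.card K := by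
  have h1 := h.tau_ge hA
  have h2 := hμ.two_tau_le h.cap_sys.cb
  rw [card_cU] at h2
  have h3 : CC (cb b W I O) (cU J W) := by
    refine ⟨μ, hμ, ?_⟩
    rw [card_cU]
    omega
  have h4 : ¬ Dt (cb b W I O) (cU J W) := by
    intro hD
    rcases hnD with h5 | ⟨t, ht⟩
    · exact h5 (card_cU.symm.trans hD.1)
    · have h6 := dt_card h.cap_sys hD (Sum.inr t) (by
        rw [mem_mt]
        obtain ⟨j, hj⟩ := h.One t
        exact ⟨Sum.inr j, inr_cU, inr_cb'.mpr hj⟩)
      have h7 : (cb b W I O (Sum.inr t) ∩ cU J W).card ≤ (O t).card := by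
        refine (card_le_card inter_subset_left).trans ?_
        show ((O t).map Function.Embedding.inr).card ≤ (O t).card
        rw [card_map]
      omega
  have hne : (cU J W).Nonempty := by
    obtain ⟨x, hx⟩ := h.ne
    exact ⟨Sum.inl x, inl_cU.mpr hx⟩
  have h5 := hIH (α ⊕ J) (ι ⊕ K) (cb b W I O) (cU J W) hne (by rw [card_cU]; exact hn)
    h.cap_sys h3 h.cap_con h4
  have h6 := h.sp_ge
  unfold ee at h5 ⊢
  rw [h.nb_le, card_cU] at h5
  push_cast at h5
  zify at h6 h1
  linarith

/-- **The cap lemma** for K-type traces. -/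
theorem Cap.capK (h : Cap b V W g I O) {n : ℕ} (hIH : IH n) {L : ℕ} (hA : Abs b W g O L)
    (hn : W.card + Fintype.card J < n) (hnD : W.card + Fintype.card J ≠ 6 ∨
      ∃ t, (O t).card ≤ 2) (hK : KT b W) (j0 : J) (mo : J → J) (hmo : ∀ j, mo (mo j) = j)
    (hm0 : mo j0 = j0) (hmt : ∀ j, mo j ≠ j → ∃ t, j ∈ O t ∧ mo j ∈ O t)
    (hfix : Fintype.card J + (univ.filter fun j => mo j = j).card ≤ 2 * L + 2) :
    ((sp b V ∩ W).card : ℤ) + (sq O).card + 11 * L ≤
      ee b W + 2 * Fintype.card J + 2 * Fintype.card K := by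
  obtain ⟨i0, hi0⟩ := h.Ine j0
  obtain ⟨x0, hx0, hx1⟩ := h.IW j0 i0 hi0
  obtain ⟨ν, ⟨hν, hν2⟩, hν0⟩ := hK.fc x0 hx0
  have hKt := hK.tau
  have hex1 : (ex ν W).card = 1 := by omega
  have hexx : ∀ x ∈ W, ν x = x → x = x0 := by
    intro x hx hxx
    obtain ⟨y, hy⟩ := card_eq_one.mp hex1
    have h1 : x ∈ ex ν W := mem_ex.mpr ⟨hx, hxx⟩
    have h2 : x0 ∈ ex ν W := mem_ex.mpr ⟨hx0, hν0⟩
    rw [hy, mem_singleton] at h1 h2
    rw [h1, h2]
  let μ : α ⊕ J → α ⊕ J := fun z => match z with
    | Sum.inl x => if x = x0 then Sum.inr j0 else Sum.inl (ν x)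
    | Sum.inr j => if j = j0 then Sum.inl x0 else Sum.inr (mo j)
  have e1 : μ (Sum.inl x0) = Sum.inr j0 := if_pos rfl
  have e2 : ∀ x, x ≠ x0 → μ (Sum.inl x) = Sum.inl (ν x) := fun x hx => if_neg hx
  have e3 : μ (Sum.inr j0) = Sum.inl x0 := if_pos rfl
  have e4 : ∀ j, j ≠ j0 → μ (Sum.inr j) = Sum.inr (mo j) := fun x hx => if_neg hx
  have hμ : Mt (cb b W I O) (cU J W) μ := by
    refine ⟨?_, ?_, ?_⟩
    · intro z
      cases z with
      | inl x =>
        by_cases hx : x = x0
        · rw [hx, e1, e3]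
        · rw [e2 x hx, e2, hν.inv]
          intro h1
          apply hx
          rw [← hν.inv x, h1, hν0]
      | inr j =>
        by_cases hj : j = j0
        · rw [hj, e3, e1]
        · rw [e4 j hj, e4, hmo]
          intro h1
          apply hj
          rw [← hmo j, h1, hm0]
    · intro z hz
      cases z with
      | inl x =>
        rw [inl_cU] at hz
        have hx : x ≠ x0 := fun h => hz (h ▸ hx0)
        rw [e2 x hx, hν.out x hz]
      | inr j => exact absurd inr_cU hz
    · intro z hz
      cases z with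
      | inl x =>
        by_cases hx : x = x0
        · rw [hx, e1]
          exact ⟨Sum.inl i0, inl_cb.mpr ⟨hx1, hx0⟩, inr_cb.mpr hi0⟩
        · rw [e2 x hx] at hz ⊢
          have h1 : ν x ≠ x := fun h => hz (by rw [h])
          obtain ⟨i, hi, hi2⟩ := hν.adj x h1
          have hxW : x ∈ W := by
            by_contra h2
            exact h1 (hν.out x h2)
          exact ⟨Sum.inl i, inl_cb.mpr ⟨hi, hxW⟩, inl_cb.mpr ⟨hi2, hν.mem hxW⟩⟩
      | inr j =>
        by_cases hj : j = j0
        · rw [hj, e3]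
          exact ⟨Sum.inl i0, inr_cb.mpr hi0, inl_cb.mpr ⟨hx1, hx0⟩⟩
        · rw [e4 j hj] at hz ⊢
          have h1 : mo j ≠ j := fun h => hz (by rw [h])
          obtain ⟨t, ht, ht2⟩ := hmt j h1
          exact ⟨Sum.inr t, inr_cb'.mpr ht, inr_cb'.mpr ht2⟩
  refine h.main hIH hA hn hnD hμ ?_
  have h1 : ex μ (cU J W) ⊆
      (((univ.filter fun j => mo j = j).erase j0).map Function.Embedding.inr) := by
    intro z hz
    rw [mem_ex] at hz
    cases z with
    | inl x =>
      exfalso
      have hxW := inl_cU.mp hz.1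
      by_cases hx : x = x0
      · rw [hx, e1] at hz
        exact absurd hz.2 (by simp)
      · rw [e2 x hx] at hz
        exact hx (hexx x hxW (Sum.inl_injective hz.2))
    | inr j =>
      by_cases hj : j = j0
      · rw [hj, e3] at hz
        exact absurd hz.2 (by simp)
      · rw [e4 j hj] at hz
        rw [mem_map]
        exact ⟨j, mem_erase.mpr ⟨hj, mem_filter.mpr ⟨mem_univ j, Sum.inr_injective hz.2⟩⟩, rfl⟩
  have h2 := card_le_card h1
  have h3 : j0 ∈ univ.filter fun j => mo j = j := mem_filter.mpr ⟨mem_univ j0, hm0⟩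
  rw [card_map, card_erase_of_mem h3] at h2
  have h4 : 0 < (univ.filter fun j => mo j = j).card := card_pos.mpr ⟨j0, h3⟩
  omega

/-- **The cap lemma** for C-type traces. -/
theorem Cap.capC (h : Cap b V W g I O) {n : ℕ} (hIH : IH n) {L : ℕ} (hA : Abs b W g O L)
    (hn : W.card + Fintype.card J < n) (hnD : W.card + Fintype.card J ≠ 6 ∨
      ∃ t, (O t).card ≤ 2) (hC : CT b W) (mo : J → J) (hmo : ∀ j, mo (mo j) = j)
    (hmt : ∀ j, mo j ≠ j → ∃ t, j ∈ O t ∧ mo j ∈ O t)
    (hfix : Fintype.card J + (univ.filter fun j => mo j = j).card ≤ 2 * L) :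
    ((sp b V ∩ W).card : ℤ) + (sq O).card + 11 * L ≤
      ee b W + 2 * Fintype.card J + 2 * Fintype.card K := by
  obtain ⟨ν, ⟨hν, hν2⟩, hν0⟩ := hC.pm
  have hCt := hC.tau
  let μ : α ⊕ J → α ⊕ J := fun z => match z with
    | Sum.inl x => Sum.inl (ν x)
    | Sum.inr j => Sum.inr (mo j)
  have e2 : ∀ x, μ (Sum.inl x) = Sum.inl (ν x) := fun x => rfl
  have e4 : ∀ j, μ (Sum.inr j) = Sum.inr (mo j) := fun x => rfl
  have hμ : Mt (cb b W I O) (cU J W) μ := by
    refine ⟨?_, ?_, ?_⟩
    · intro z
      cases z with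
      | inl x => exact congrArg Sum.inl (hν.inv x)
      | inr j => exact congrArg Sum.inr (hmo j)
    · intro z hz
      cases z with
      | inl x =>
        rw [inl_cU] at hz
        rw [e2, hν.out x hz]
      | inr j => exact absurd inr_cU hz
    · intro z hz
      cases z with
      | inl x =>
        rw [e2] at hz ⊢
        have h1 : ν x ≠ x := fun h => hz (by rw [h])
        obtain ⟨i, hi, hi2⟩ := hν.adj x h1
        have hxW : x ∈ W := by
          by_contra h2
          exact h1 (hν.out x h2)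
        exact ⟨Sum.inl i, inl_cb.mpr ⟨hi, hxW⟩, inl_cb.mpr ⟨hi2, hν.mem hxW⟩⟩
      | inr j =>
        rw [e4] at hz ⊢
        have h1 : mo j ≠ j := fun h => hz (by rw [h])
        obtain ⟨t, ht, ht2⟩ := hmt j h1
        exact ⟨Sum.inr t, inr_cb'.mpr ht, inr_cb'.mpr ht2⟩
  refine h.main hIH hA hn hnD hμ ?_
  have h1 : ex μ (cU J W) ⊆
      ((univ.filter fun j => mo j = j).map Function.Embedding.inr) := by
    intro z hz
    rw [mem_ex] at hz
    cases z with
    | inl x =>
      exfalso
      rw [e2] at hz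
      exact hν0 x (inl_cU.mp hz.1) (Sum.inl_injective hz.2)
    | inr j =>
      rw [e4] at hz
      rw [mem_map]
      exact ⟨j, mem_filter.mpr ⟨mem_univ j, Sum.inr_injective hz.2⟩, rfl⟩
  have h2 := card_le_card h1
  rw [card_map] at h2
  omega

end

end Pool.Agent.Helper20.C5
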