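import Pool.Agent.Helper20.C5.Nm

/-!
# The numerical checks
-/

namespace Pool.Agent.Helper20.C5

set_option maxRecDepth 100000

theorem nc3 : ∀ e ∈ List.range 4, crs 4 4 4 4 4 4 e (3 - e) (pts 4 4 4 e (3 - e))
    (pts 4 4 4 e (3 - e)) (fun _ _ => false) = true := by decide +kernel

theorem nc11_1 : ∀ e ∈ List.range 2, crs 3 4 4 3 4 4 e (1 - e) (pts 3 4 4 e (1 - e))
    (pts 3 4 4 e (1 - e)) (ex11 3 4 4 3 4 4 e (1 - e)) = true := by decide +kernel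

theorem nc11_2 : ∀ e ∈ List.range 3, crs 3 4 4 3 4 4 e (2 - e) (pts 3 4 4 e (2 - e))
    (pts 3 4 4 e (2 - e)) (ex11 3 4 4 3 4 4 e (2 - e)) = true := by decide +kernel

theorem nc21_1 : ∀ e ∈ List.range 2, crs 3 3 4 3 4 4 e (1 - e) (pts 3 3 4 e (1 - e))
    (pts 3 4 4 e (1 - e)) (ex21 3 3 4 3 4 4 e (1 - e)) = true := by decide +kernel

theorem nc21_2 : ∀ e ∈ List.range 3, crs 3 3 4 3 4 4 e (2 - e) (pts 3 3 4 e (2 - e))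
    (pts 3 4 4 e (2 - e)) (ex21 3 3 4 3 4 4 e (2 - e)) = true := by decide +kernel

theorem nc0 : ∀ t0 ∈ [3, 4], ∀ t1 ∈ [3, 4], ∀ t2 ∈ [3, 4], pts t0 t1 t2 0 0 = [] := by
  decide +kernel

theorem nc00 : ∀ t1 ∈ [3, 4], ∀ t2 ∈ [3, 4], ∀ s1 ∈ [3, 4], ∀ s2 ∈ [3, 4],
    crs 2 t1 t2 2 s1 s2 0 0 (pts 2 t1 t2 0 0) (pts 2 s1 s2 0 0) (ex11 2 t1 t2 2 s1 s2 0 0) =
      true := by
  decide +kernel

end Pool.Agent.Helper20.C5
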