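import Pool.Agent.Helper20.C5.Ds
import Pool.Agent.Helper20.C5.Nc

/-!
# Double cuts with two components: totals, inner blocks
-/

set_option linter.unusedSectionVars false

open Finset

namespace Pool.Agent.Helper20.C5

open Pool.Agent.Helper74.C5

variable {α ι : Type} [DecidableEq α] [DecidableEq ι] [Fintype ι]
variable {b : ι → Finset α} {V K L : Finset α} {p q : Fin 3 → α} {i0 j0 : ι}

/-- The inner blocks, other than the two faces. -/
def kbs (b : ι → Finset α) (V K L : Finset α) (i0 j0 : ι) : Finset ι :=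
  univ.filter fun i => (b i ∩ V).Nonempty ∧ b i ∩ K = ∅ ∧ b i ∩ L = ∅ ∧ i ≠ i0 ∧ i ≠ j0

theorem mem_kbs {i : ι} : i ∈ kbs b V K L i0 j0 ↔
    (b i ∩ V).Nonempty ∧ b i ∩ K = ∅ ∧ b i ∩ L = ∅ ∧ i ≠ i0 ∧ i ≠ j0 := by
  unfold kbs
  rw [mem_filter]
  exact ⟨fun h => h.2, fun h => ⟨mem_univ i, h⟩⟩

theorem kbs_swap : kbs b V L K i0 j0 = kbs b V K L i0 j0 := by
  ext i
  rw [mem_kbs, mem_kbs]
  tauto

theorem kbs_flip : kbs b V K L j0 i0 = kbs b V K L i0 j0 := by
  ext i
  rw [mem_kbs, mem_kbs]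
  tauto

theorem D0.i0K (h : D0 b V K L p q i0 j0) : b i0 ∩ K = ∅ := by
  rw [eq_empty_iff_forall_notMem]
  intro x hx
  rw [mem_inter] at hx
  have h1 : x ∈ b i0 ∩ V := mem_inter.mpr ⟨hx.1, h.KV hx.2⟩
  rw [h.hP] at h1
  obtain ⟨i, -, rfl⟩ := mem_image.mp h1
  exact h.pK i hx.2

theorem D0.j0K (h : D0 b V K L p q i0 j0) : b j0 ∩ K = ∅ := h.flip.i0K

theorem D0.pnj (h : D0 b V K L p q i0 j0) (i : Fin 3) : p i ∉ b j0 := by
  intro h1
  have h2 : p i ∈ b j0 ∩ V := mem_inter.mpr ⟨h1, h.pV i⟩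
  rw [h.hQ] at h2
  obtain ⟨j, -, hj⟩ := mem_image.mp h2
  exact h.pq i j hj.symm

theorem BK_empty {x : α} {i : ι} (h : b i ∩ K = ∅) : i ∉ BK b K x := by
  intro h1
  have h2 := (mem_BK.mp h1).2
  rw [h] at h2
  exact not_nonempty_empty h2

/-- The total of the degrees. -/
theorem D0.tot (h : D0 b V K L p q i0 j0) (i : Fin 3) :
    df b K p i + df b L p i + ((kbs b V K L i0 j0).filter fun m => p i ∈ b m).card = 4 := by
  have h1 := h.sys.deg (p i) (h.pV i)
  have h2 : (univ.filter fun m => p i ∈ b m) = insert i0 (BK b K (p i) ∪ (BK b L (p i) ∪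
      (kbs b V K L i0 j0).filter fun m => p i ∈ b m)) := by
    ext m
    rw [mem_filter, mem_insert, mem_union, mem_union, mem_filter, mem_BK, mem_BK, mem_kbs]
    constructor
    · rintro ⟨-, h3⟩
      by_cases h4 : m = i0
      · exact Or.inl h4
      · right
        by_cases h5 : (b m ∩ K).Nonempty
        · exact Or.inl ⟨h3, h5⟩
        · by_cases h6 : (b m ∩ L).Nonempty
          · exact Or.inr (Or.inl ⟨h3, h6⟩)
          · right
            right
            refine ⟨⟨⟨p i, mem_inter.mpr ⟨h3, h.pV i⟩⟩, not_nonempty_iff_eq_empty.mp h5,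
              not_nonempty_iff_eq_empty.mp h6, h4, ?_⟩, h3⟩
            rintro rfl
            exact h.pnj i h3
    · intro h3
      refine ⟨mem_univ m, ?_⟩
      rcases h3 with rfl | h3 | h3 | h3
      · exact h.pi i
      · exact h3.1
      · exact h3.1
      · exact h3.2
  rw [h2, card_insert_of_notMem, card_union_of_disjoint, card_union_of_disjoint] at h1
  · unfold df
    omega
  · rw [disjoint_left]
    intro m hm hm2
    exact BK_empty (mem_kbs.mp (mem_filter.mp hm2).1).2.2.1 hm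
  · rw [disjoint_left]
    intro m hm hm2
    rcases mem_union.mp hm2 with hm2 | hm2
    · obtain ⟨-, x, hx⟩ := mem_BK.mp hm
      obtain ⟨-, y, hy⟩ := mem_BK.mp hm2
      rw [mem_inter] at hx hy
      exact h.KL m x hx.2 y hy.2 hx.1 hy.1
    · exact BK_empty (mem_kbs.mp (mem_filter.mp hm2).1).2.1 hm
  · rw [mem_union, mem_union, mem_filter, mem_kbs]
    rintro (h3 | h3 | h3)
    · exact BK_empty h.i0K h3
    · exact BK_empty h.swap.i0K h3
    · exact h3.1.2.2.2.1 rfl

theorem D0.totq (h : D0 b V K L p q i0 j0) (i : Fin 3) :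
    df b K q i + df b L q i + ((kbs b V K L i0 j0).filter fun m => q i ∈ b m).card = 4 := by
  have h1 := h.flip.tot i
  rw [kbs_flip] at h1
  exact h1

/-- The trace of an inner block. -/
theorem D0.kb_sub (h : D0 b V K L p q i0 j0) {m : ι} (hm : m ∈ kbs b V K L i0 j0) {x : α}
    (hx : x ∈ b m) (hxV : x ∈ V) : (∃ i, x = p i) ∨ ∃ i, x = q i := by
  have h1 := mem_kbs.mp hm
  rcases h.cov x hxV with h2 | h2 | h2 | h2
  · have h3 : x ∈ b m ∩ K := mem_inter.mpr ⟨hx, h2⟩
    rw [h1.2.1] at h3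
    exact absurd h3 (notMem_empty x)
  · have h3 : x ∈ b m ∩ L := mem_inter.mpr ⟨hx, h2⟩
    rw [h1.2.2.1] at h3
    exact absurd h3 (notMem_empty x)
  · exact Or.inl h2
  · exact Or.inr h2

theorem D0.P3 (h : D0 b V K L p q i0 j0) : (b i0 ∩ V).card = 3 := by
  rw [h.hP, card_image_of_injective _ h.pinj, card_univ, Fintype.card_fin]

/-- An inner block meets `Q`. -/
theorem D0.kb_q (h : D0 b V K L p q i0 j0) {m : ι} (hm : m ∈ kbs b V K L i0 j0) :
    ∃ j, q j ∈ b m := by
  by_contra hcon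
  have h1 := mem_kbs.mp hm
  apply h1.2.2.2.1
  refine h.uq i0 m h.P3 h1.1 ?_
  intro x hx
  rw [mem_inter] at hx
  rcases h.kb_sub hm hx.1 hx.2 with ⟨i, rfl⟩ | ⟨i, rfl⟩
  · exact h.pi i
  · exact absurd ⟨i, hx.1⟩ hcon

theorem D0.kb_p (h : D0 b V K L p q i0 j0) {m : ι} (hm : m ∈ kbs b V K L i0 j0) :
    ∃ i, p i ∈ b m := h.flip.kb_q (by rw [kbs_flip]; exact hm)

/-- Four points in a block. -/
theorem D0.four (h : D0 b V K L p q i0 j0) {m : ι} {x y z w : α} (hx : x ∈ V) (hy : y ∈ V)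
    (hz : z ∈ V) (hw : w ∈ V) (h1 : x ≠ y) (h2 : x ≠ z) (h3 : x ≠ w) (h4 : y ≠ z) (h5 : y ≠ w)
    (h6 : z ≠ w) (hxm : x ∈ b m) (hym : y ∈ b m) (hzm : z ∈ b m) (hwm : w ∈ b m) : False := by
  have h7 : ({x, y, z, w} : Finset α) ⊆ b m ∩ V := by
    intro t ht
    rw [mem_insert, mem_insert, mem_insert, mem_singleton] at ht
    rw [mem_inter]
    rcases ht with rfl | rfl | rfl | rfl
    · exact ⟨hxm, hx⟩
    · exact ⟨hym, hy⟩
    · exact ⟨hzm, hz⟩
    · exact ⟨hwm, hw⟩
  have h8 := card_le_card h7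
  have h9 : ({x, y, z, w} : Finset α).card = 4 := by
    rw [card_insert_of_notMem, card_insert_of_notMem, card_insert_of_notMem, card_singleton]
    · rw [mem_singleton]
      exact h6
    · rw [mem_insert, mem_singleton, not_or]
      exact ⟨h4, h5⟩
    · rw [mem_insert, mem_insert, mem_singleton, not_or, not_or]
      exact ⟨h1, h2, h3⟩
  have h10 := h.sys.sz m
  omega

/-- The number of inner blocks. -/
theorem D0.ins_card (h : D0 b V K L p q i0 j0) :
    (ins b V (K ∪ L)).card = (kbs b V K L i0 j0).card + 2 := by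
  have hne : i0 ≠ j0 := by
    rintro rfl
    exact h.pnj 0 (h.pi 0)
  have h1 : ins b V (K ∪ L) = insert i0 (insert j0 (kbs b V K L i0 j0)) := by
    ext m
    rw [mem_insert, mem_insert, mem_kbs]
    unfold ins
    rw [mem_filter, inter_union_distrib_left, union_eq_empty]
    constructor
    · rintro ⟨-, h2, h3, h4⟩
      by_cases h5 : m = i0
      · exact Or.inl h5
      · by_cases h6 : m = j0
        · exact Or.inr (Or.inl h6)
        · exact Or.inr (Or.inr ⟨h2, h3, h4, h5, h6⟩)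
    · rintro (rfl | rfl | h2)
      · exact ⟨mem_univ _, ⟨p 0, mem_inter.mpr ⟨h.pi 0, h.pV 0⟩⟩, h.i0K, h.swap.i0K⟩
      · exact ⟨mem_univ _, ⟨q 0, mem_inter.mpr ⟨h.qi 0, h.qV 0⟩⟩, h.j0K, h.swap.j0K⟩
      · exact ⟨mem_univ m, h2.1, h2.2.1, h2.2.2.1⟩
  rw [h1, card_insert_of_notMem, card_insert_of_notMem]
  · intro h2
    exact (mem_kbs.mp h2).2.2.2.2 rfl
  · rw [mem_insert, not_or]
    exact ⟨hne, fun h2 => (mem_kbs.mp h2).2.2.2.1 rfl⟩

/-- **The case without inner blocks**, `B = 3`. -/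
theorem D0.dead3 (h : D0 b V K L p q i0 j0) (hKP : KP) (h0 : kbs b V K L i0 j0 = ∅)
    (hB : eX b V K + eX b V L = 3) : False := by
  have t : ∀ i, df b K p i + df b L p i = 4 := by
    intro i
    have := h.tot i
    rw [h0, filter_empty, card_empty] at this
    exact this
  have s : ∀ i, df b K q i + df b L q i = 4 := by
    intro i
    have := h.totq i
    rw [h0, filter_empty, card_empty] at this
    exact this
  have h1 := nc3 (eX b V K) (List.mem_range.mpr (by omega))
  have h2 : 3 - eX b V K = eX b V L := by omega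
  rw [h2] at h1
  exact Bool.noConfusion (h.crs hKP (t 0) (t 1) (t 2) (s 0) (s 1) (s 2) h1)

/-- **One inner block of type 11**. -/
theorem D0.dead11 (h : D0 b V K L p q i0 j0) (hKP : KP) {m : ι} (h0 : kbs b V K L i0 j0 = {m})
    (hp0 : p 0 ∈ b m) (hp1 : p 1 ∉ b m) (hp2 : p 2 ∉ b m) (hq0 : q 0 ∈ b m) (hq1 : q 1 ∉ b m)
    (hq2 : q 2 ∉ b m) (hB : eX b V K + eX b V L = 1 ∨ eX b V K + eX b V L = 2) : False := by
  have t : ∀ x, ((kbs b V K L i0 j0).filter fun m => x ∈ b m).card =
      if x ∈ b m then 1 else 0 := by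
    intro x
    rw [h0, filter_singleton]
    split_ifs <;> simp
  have t0 := h.tot 0
  have t1 := h.tot 1
  have t2 := h.tot 2
  have s0 := h.totq 0
  have s1 := h.totq 1
  have s2 := h.totq 2
  rw [t, if_pos hp0] at t0
  rw [t, if_neg hp1] at t1
  rw [t, if_neg hp2] at t2
  rw [t, if_pos hq0] at s0
  rw [t, if_neg hq1] at s1
  rw [t, if_neg hq2] at s2
  have h3 : ex11 3 4 4 3 4 4 (eX b V K) (eX b V L) (df b K p 0, df b K p 1, df b K p 2)
      (df b K q 0, df b K q 1, df b K q 2) = true := by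
    rcases hB with hB | hB
    · have h1 := nc11_1 (eX b V K) (List.mem_range.mpr (by omega))
      have h2 : 1 - eX b V K = eX b V L := by omega
      rw [h2] at h1
      exact h.crs hKP (by omega) (by omega) (by omega) (by omega) (by omega) (by omega) h1
    · have h1 := nc11_2 (eX b V K) (List.mem_range.mpr (by omega))
      have h2 : 2 - eX b V K = eX b V L := by omega
      rw [h2] at h1
      exact h.crs hKP (by omega) (by omega) (by omega) (by omega) (by omega) (by omega) h1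
  have e0 : 3 - df b K p 0 = df b L p 0 := by omega
  have e1 : 4 - df b K p 1 = df b L p 1 := by omega
  have e2 : 4 - df b K p 2 = df b L p 2 := by omega
  have e0' : 3 - df b K q 0 = df b L q 0 := by omega
  have e1' : 4 - df b K q 1 = df b L q 1 := by omega
  have e2' : 4 - df b K q 2 = df b L q 2 := by omega
  unfold ex11 at h3
  simp only [e0, e1, e2, e0', e1', e2', fn_eq] at h3
  exact h.k11 hKP hp0 hq0 h3

/-- **One inner block of type 21**. -/
theorem D0.dead21 (h : D0 b V K L p q i0 j0) (hKP : KP) {m : ι} (h0 : kbs b V K L i0 j0 = {m})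
    (hp0 : p 0 ∈ b m) (hp1 : p 1 ∈ b m) (hp2 : p 2 ∉ b m) (hq0 : q 0 ∈ b m) (hq1 : q 1 ∉ b m)
    (hq2 : q 2 ∉ b m) (hB : eX b V K + eX b V L = 1 ∨ eX b V K + eX b V L = 2) : False := by
  have t : ∀ x, ((kbs b V K L i0 j0).filter fun m => x ∈ b m).card =
      if x ∈ b m then 1 else 0 := by
    intro x
    rw [h0, filter_singleton]
    split_ifs <;> simp
  have t0 := h.tot 0
  have t1 := h.tot 1
  have t2 := h.tot 2
  have s0 := h.totq 0
  have s1 := h.totq 1
  have s2 := h.totq 2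
  rw [t, if_pos hp0] at t0
  rw [t, if_pos hp1] at t1
  rw [t, if_neg hp2] at t2
  rw [t, if_pos hq0] at s0
  rw [t, if_neg hq1] at s1
  rw [t, if_neg hq2] at s2
  have h3 : ex21 3 3 4 3 4 4 (eX b V K) (eX b V L) (df b K p 0, df b K p 1, df b K p 2)
      (df b K q 0, df b K q 1, df b K q 2) = true := by
    rcases hB with hB | hB
    · have h1 := nc21_1 (eX b V K) (List.mem_range.mpr (by omega))
      have h2 : 1 - eX b V K = eX b V L := by omega
      rw [h2] at h1
      exact h.crs hKP (by omega) (by omega) (by omega) (by omega) (by omega) (by omega) h1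
    · have h1 := nc21_2 (eX b V K) (List.mem_range.mpr (by omega))
      have h2 : 2 - eX b V K = eX b V L := by omega
      rw [h2] at h1
      exact h.crs hKP (by omega) (by omega) (by omega) (by omega) (by omega) (by omega) h1
  have e0 : 3 - df b K p 0 = df b L p 0 := by omega
  have e1 : 3 - df b K p 1 = df b L p 1 := by omega
  have e2 : 4 - df b K p 2 = df b L p 2 := by omega
  have e0' : 3 - df b K q 0 = df b L q 0 := by omega
  have e1' : 4 - df b K q 1 = df b L q 1 := by omega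
  have e2' : 4 - df b K q 2 = df b L q 2 := by omega
  unfold ex21 at h3
  simp only [e0, e1, e2, e0', e1', e2', fn_eq, Bool.or_eq_true] at h3
  rcases h3 with h3 | h3
  · exact h.k21 hKP hp0 hp1 hq0 h3
  · exact h.swap.k21 hKP hp0 hp1 hq0 h3

end Pool.Agent.Helper20.C5
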