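import Pool.Agent.Helper20.C5.De

/-!
# Double cuts with two components: two inner blocks, one inner block
-/

set_option linter.unusedSectionVars false

open Finset

namespace Pool.Agent.Helper20.C5

open Pool.Agent.Helper74.C5

variable {α ι : Type} [DecidableEq α] [DecidableEq ι] [Fintype ι]
variable {b : ι → Finset α} {V K L : Finset α} {p q : Fin 3 → α} {i0 j0 : ι}

/-- Three points determine the block. -/
theorem D0.three_uq (h : D0 b V K L p q i0 j0) {m m' : ι} {x y z : α} (hx : x ∈ V) (hy : y ∈ V)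
    (hz : z ∈ V) (h1 : x ≠ y) (h2 : x ≠ z) (h3 : y ≠ z) (hxm : x ∈ b m) (hym : y ∈ b m)
    (hzm : z ∈ b m) (hxm' : x ∈ b m') (hym' : y ∈ b m') (hzm' : z ∈ b m') : m = m' := by
  have h4 : ({x, y, z} : Finset α).card = 3 := card_eq_three.mpr ⟨x, y, z, h1, h2, h3, rfl⟩
  have h5 : ∀ n, x ∈ b n → y ∈ b n → z ∈ b n → b n ∩ V = {x, y, z} := by
    intro n hxn hyn hzn
    symm
    apply eq_of_subset_of_card_le
    · intro t ht
      rw [mem_insert, mem_insert, mem_singleton] at ht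
      rw [mem_inter]
      rcases ht with rfl | rfl | rfl
      · exact ⟨hxn, hx⟩
      · exact ⟨hyn, hy⟩
      · exact ⟨hzn, hz⟩
    · rw [h4]
      exact h.sys.sz n
  have h6 := h5 m hxm hym hzm
  have h7 := h5 m' hxm' hym' hzm'
  refine h.uq m' m (by rw [h7]; exact h4) ⟨x, mem_inter.mpr ⟨hxm, hx⟩⟩ ?_
  rw [h6, ← h7]
  exact inter_subset_left

theorem filter_two {S : Finset ι} {m m' : ι} (hne : m ≠ m') (h : S = {m, m'}) {x : α} :
    (S.filter fun n => x ∈ b n).card =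
      (if x ∈ b m then 1 else 0) + if x ∈ b m' then 1 else 0 := by
  rw [h, card_filter, sum_pair hne]

theorem D0.dead00_aux (h : D0 b V K L p q i0 j0) (hKP : KP) {m m' : ι} (hne : m ≠ m')
    (h0 : kbs b V K L i0 j0 = {m, m'}) (hp : p 0 ∈ b m) (hp' : p 0 ∈ b m') (hq : q 0 ∈ b m)
    (hq' : q 0 ∈ b m') (hK : eX b V K = 0) (hL : eX b V L = 0) : False := by
  have key : ∀ x ∈ V, x ≠ p 0 → x ≠ q 0 → ((kbs b V K L i0 j0).filter fun n => x ∈ b n).card ≤ 1 := by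
    intro x hx h1 h2
    rw [filter_two hne h0]
    by_contra h3
    have h4 : x ∈ b m ∧ x ∈ b m' := by
      by_contra h5
      apply h3
      split_ifs <;> first | omega | tauto
    exact hne (h.three_uq (h.pV 0) (h.qV 0) hx (h.pq 0 0) h1.symm h2.symm hp hq h4.1 hp' hq' h4.2)
  have hzero : ∀ x, x = p 0 ∨ x = q 0 →
      ((kbs b V K L i0 j0).filter fun n => x ∈ b n).card = 2 := by
    rintro x (rfl | rfl)
    · rw [filter_two hne h0, if_pos hp, if_pos hp']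
    · rw [filter_two hne h0, if_pos hq, if_pos hq']
  have t0 := h.tot 0
  have t1 := h.tot 1
  have t2 := h.tot 2
  have s0 := h.totq 0
  have s1 := h.totq 1
  have s2 := h.totq 2
  rw [hzero _ (Or.inl rfl)] at t0
  rw [hzero _ (Or.inr rfl)] at s0
  have k1 := key (p 1) (h.pV 1) (fun h5 => by simpa using h.pinj h5) (h.pq 1 0)
  have k2 := key (p 2) (h.pV 2) (fun h5 => by simpa using h.pinj h5) (h.pq 2 0)
  have k1' := key (q 1) (h.qV 1) (h.pq 0 1).symm (fun h5 => by simpa using h.qinj h5)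
  have k2' := key (q 2) (h.qV 2) (h.pq 0 2).symm (fun h5 => by simpa using h.qinj h5)
  obtain ⟨a1, ha1⟩ : ∃ a, df b K p 1 + df b L p 1 = a := ⟨_, rfl⟩
  obtain ⟨a2, ha2⟩ : ∃ a, df b K p 2 + df b L p 2 = a := ⟨_, rfl⟩
  obtain ⟨c1, hc1⟩ : ∃ a, df b K q 1 + df b L q 1 = a := ⟨_, rfl⟩
  obtain ⟨c2, hc2⟩ : ∃ a, df b K q 2 + df b L q 2 = a := ⟨_, rfl⟩
  have mem34 : ∀ a, a = 3 ∨ a = 4 → a ∈ [3, 4] := by
    rintro a (rfl | rfl) <;> simp
  have h1 := nc00 a1 (mem34 _ (by omega)) a2 (mem34 _ (by omega)) c1 (mem34 _ (by omega)) c2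
    (mem34 _ (by omega))
  have h3 := h.crs hKP (t0 := 2) (t1 := a1) (t2 := a2) (s0 := 2) (s1 := c1) (s2 := c2)
    (ex := ex11 2 a1 a2 2 c1 c2 0 0)
    (by omega) ha1 ha2 (by omega) hc1 hc2 (by rw [hK, hL]; exact h1)
  have e0 : 2 - df b K p 0 = df b L p 0 := by omega
  have e1 : a1 - df b K p 1 = df b L p 1 := by omega
  have e2 : a2 - df b K p 2 = df b L p 2 := by omega
  have e0' : 2 - df b K q 0 = df b L q 0 := by omega
  have e1' : c1 - df b K q 1 = df b L q 1 := by omega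
  have e2' : c2 - df b K q 2 = df b L q 2 := by omega
  unfold ex11 at h3
  simp only [e0, e1, e2, e0', e1', e2', fn_eq] at h3
  refine h.k11 hKP hp hq ?_
  rw [hK, hL]
  exact h3

theorem D0.exists2 (h : D0 b V K L p q i0 j0) (hKP : KP) {m m' : ι} (hne : m ≠ m')
    (h0 : kbs b V K L i0 j0 = {m, m'}) (hK : eX b V K = 0) (hL : eX b V L = 0) :
    ∃ i, p i ∈ b m ∧ p i ∈ b m' := by
  by_contra hcon
  have key : ∀ i, ((kbs b V K L i0 j0).filter fun n => p i ∈ b n).card ≤ 1 := by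
    intro i
    rw [filter_two hne h0]
    by_contra h3
    apply hcon
    refine ⟨i, ?_⟩
    by_contra h5
    apply h3
    split_ifs <;> first | omega | tauto
  have t0 := h.tot 0
  have t1 := h.tot 1
  have t2 := h.tot 2
  have k0 := key 0
  have k1 := key 1
  have k2 := key 2
  obtain ⟨a0, ha0⟩ : ∃ a, df b K p 0 + df b L p 0 = a := ⟨_, rfl⟩
  obtain ⟨a1, ha1⟩ : ∃ a, df b K p 1 + df b L p 1 = a := ⟨_, rfl⟩
  obtain ⟨a2, ha2⟩ : ∃ a, df b K p 2 + df b L p 2 = a := ⟨_, rfl⟩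
  have mem34 : ∀ a, a = 3 ∨ a = 4 → a ∈ [3, 4] := by
    rintro a (rfl | rfl) <;> simp
  have h1 := nc0 a0 (mem34 _ (by omega)) a1 (mem34 _ (by omega)) a2 (mem34 _ (by omega))
  have h2 := h.mem_pts hKP ha0 ha1 ha2
  rw [hK, hL, h1] at h2
  exact absurd h2 (List.not_mem_nil)

/-- **Two inner blocks**. -/
theorem D0.dead00 (h : D0 b V K L p q i0 j0) (hKP : KP) (h0 : (kbs b V K L i0 j0).card = 2)
    (hB : eX b V K + eX b V L = 0) : False := by
  obtain ⟨m, m', hne, h1⟩ := card_eq_two.mp h0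
  have hK : eX b V K = 0 := by omega
  have hL : eX b V L = 0 := by omega
  obtain ⟨i, hi, hi'⟩ := h.exists2 hKP hne h1 hK hL
  obtain ⟨j, hj, hj'⟩ := h.flip.exists2 hKP hne (by rw [kbs_flip]; exact h1) hK hL
  refine (h.perm (Equiv.swap 0 i) (Equiv.swap 0 j)).dead00_aux hKP hne h1 ?_ ?_ ?_ ?_ hK hL
  · show p (Equiv.swap 0 i 0) ∈ b m
    rwa [Equiv.swap_apply_left]
  · show p (Equiv.swap 0 i 0) ∈ b m'
    rwa [Equiv.swap_apply_left]
  · show q (Equiv.swap 0 j 0) ∈ b m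
    rwa [Equiv.swap_apply_left]
  · show q (Equiv.swap 0 j 0) ∈ b m'
    rwa [Equiv.swap_apply_left]

/-- Normal form of the set of indices in an inner block. -/
theorem perm_norm : ∀ f : Fin 3 → Bool, (∃ i, f i = true) → (∃ i, f i = false) →
    ∃ σ : Equiv.Perm (Fin 3), f (σ 0) = true ∧ f (σ 2) = false ∧
      (f (σ 1) = true ↔ ∃ i j, i ≠ j ∧ f i = true ∧ f j = true) := by
  decide +kernel

/-- An inner block has one or two points of each face, three in all. -/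
theorem D0.kb_norm (h : D0 b V K L p q i0 j0) {m : ι} (hm : m ∈ kbs b V K L i0 j0) :
    ∃ σ τ : Equiv.Perm (Fin 3), p (σ 0) ∈ b m ∧ p (σ 2) ∉ b m ∧ q (τ 0) ∈ b m ∧
      q (τ 2) ∉ b m ∧ (p (σ 1) ∉ b m ∨ q (τ 1) ∉ b m) := by
  obtain ⟨i, hi⟩ := h.kb_p hm
  obtain ⟨j, hj⟩ := h.kb_q hm
  have hP : ∃ i', p i' ∉ b m := by
    by_contra hcon
    have hall : ∀ i, p i ∈ b m := fun i => by
      by_contra h1
      exact hcon ⟨i, h1⟩
    exact h.four (h.pV 0) (h.pV 1) (h.pV 2) (h.qV j) (fun h5 => by simpa using h.pinj h5)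
      (fun h5 => by simpa using h.pinj h5) (h.pq 0 j) (fun h5 => by simpa using h.pinj h5)
      (h.pq 1 j) (h.pq 2 j) (hall 0) (hall 1) (hall 2) hj
  have hQ : ∃ i', q i' ∉ b m := by
    by_contra hcon
    have hall : ∀ i, q i ∈ b m := fun i => by
      by_contra h1
      exact hcon ⟨i, h1⟩
    exact h.four (h.qV 0) (h.qV 1) (h.qV 2) (h.pV i) (fun h5 => by simpa using h.qinj h5)
      (fun h5 => by simpa using h.qinj h5) (h.pq i 0).symm (fun h5 => by simpa using h.qinj h5)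
      (h.pq i 1).symm (h.pq i 2).symm (hall 0) (hall 1) (hall 2) hi
  obtain ⟨i', hi'⟩ := hP
  obtain ⟨j', hj'⟩ := hQ
  obtain ⟨σ, s0, s2, s1⟩ := perm_norm (fun i => decide (p i ∈ b m)) ⟨i, by simpa using hi⟩
    ⟨i', by simpa using hi'⟩
  obtain ⟨τ, u0, u2, u1⟩ := perm_norm (fun i => decide (q i ∈ b m)) ⟨j, by simpa using hj⟩
    ⟨j', by simpa using hj'⟩
  simp only [decide_eq_true_eq, decide_eq_false_iff_not] at s0 s2 s1 u0 u2 u1
  refine ⟨σ, τ, s0, s2, u0, u2, ?_⟩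
  by_contra hcon
  rw [not_or, not_not, not_not] at hcon
  have hn : ∀ ρ : Equiv.Perm (Fin 3), ρ 0 ≠ ρ 1 := fun ρ h5 => by simpa using ρ.injective h5
  exact h.four (h.pV _) (h.pV _) (h.qV _) (h.qV _) (fun h5 => hn σ (h.pinj h5)) (h.pq _ _)
    (h.pq _ _) (h.pq _ _) (h.pq _ _) (fun h5 => hn τ (h.qinj h5)) s0 hcon.1 u0 hcon.2

/-- **One inner block**. -/
theorem D0.dead1 (h : D0 b V K L p q i0 j0) (hKP : KP) (h0 : (kbs b V K L i0 j0).card = 1)
    (hB : eX b V K + eX b V L = 1 ∨ eX b V K + eX b V L = 2) : False := by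
  obtain ⟨m, h1⟩ := card_eq_one.mp h0
  obtain ⟨σ, τ, s0, s2, u0, u2, h2⟩ := h.kb_norm (m := m) (by rw [h1]; exact mem_singleton_self m)
  have h3 := h.perm σ τ
  by_cases h4 : p (σ 1) ∈ b m
  · rcases h2 with h2 | h2
    · exact h2 h4
    · exact h3.dead21 hKP h1 s0 h4 s2 u0 h2 u2 hB
  · by_cases h5 : q (τ 1) ∈ b m
    · exact h3.flip.dead21 hKP (by rw [kbs_flip]; exact h1) u0 h5 u2 s0 h4 s2 hB
    · exact h3.dead11 hKP h1 s0 h4 s2 u0 h5 u2 hB

end Pool.Agent.Helper20.C5
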