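import Pool.Agent.Helper20.C5.Df

/-!
# Double cuts with two components: counting
-/

set_option linter.unusedSectionVars false

open Finset

namespace Pool.Agent.Helper20.C5

open Pool.Agent.Helper74.C5

variable {α ι : Type} [DecidableEq α] [DecidableEq ι] [Fintype ι]
variable {b : ι → Finset α} {V K L : Finset α} {p q : Fin 3 → α} {i0 j0 : ι}

/-- The number of labels of `K`. -/
def sl (b : ι → Finset α) (K : Finset α) (p q : Fin 3 → α) : ℕ :=
  df b K p 0 + df b K p 1 + df b K p 2 + (df b K q 0 + df b K q 1 + df b K q 2)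

/-- The deficits of the blocks meeting `K`. -/
def tl (b : ι → Finset α) (V K : Finset α) : ℕ := ∑ i ∈ mt b K, (3 - (b i ∩ V).card)

theorem D0.sum_Fs (h : D0 b V K L p q i0 j0) :
    ∑ i ∈ mt b K, (b i ∩ Fs p q).card = sl b K p q := by
  have h1 : ∀ i, (b i ∩ Fs p q).card = ∑ x ∈ Fs p q, if x ∈ b i then 1 else 0 := by
    intro i
    rw [inter_comm, ← filter_mem_eq_inter, card_filter]
  simp_rw [h1]
  rw [sum_comm]
  have h2 : ∀ x, (∑ i ∈ mt b K, if x ∈ b i then 1 else 0) = (BK b K x).card := by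
    intro x
    rw [← card_filter]
    congr 1
    ext i
    rw [mem_filter, mem_BK]
    unfold mt
    rw [mem_filter]
    exact ⟨fun h3 => ⟨h3.2, h3.1.2⟩, fun h3 => ⟨⟨mem_univ i, h3.2⟩, h3.1⟩⟩
  simp_rw [h2]
  unfold Fs
  rw [sum_union, sum_image, sum_image, Fin.sum_univ_three, Fin.sum_univ_three]
  · rfl
  · exact fun x _ y _ hxy => h.qinj hxy
  · exact fun x _ y _ hxy => h.pinj hxy
  · rw [disjoint_left]
    intro x hx hx2
    obtain ⟨i, -, rfl⟩ := mem_image.mp hx
    obtain ⟨j, -, hj⟩ := mem_image.mp hx2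
    exact h.pq i j hj.symm

theorem D0.block_card (h : D0 b V K L p q i0 j0) {i : ι} (hi : i ∈ mt b K) :
    (b i ∩ V).card = (b i ∩ K).card + (b i ∩ Fs p q).card := by
  rw [← card_union_of_disjoint]
  · congr 1
    ext x
    rw [mem_union, mem_inter, mem_inter, mem_inter]
    constructor
    · rintro ⟨h1, h2⟩
      rcases h.cov x h2 with h3 | h3 | ⟨j, rfl⟩ | ⟨j, rfl⟩
      · exact Or.inl ⟨h1, h3⟩
      · exfalso
        obtain ⟨y, hy, hy2⟩ := mem_mt.mp hi
        exact h.KL i y hy x h3 hy2 h1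
      · exact Or.inr ⟨h1, p_Fs j⟩
      · exact Or.inr ⟨h1, q_Fs j⟩
    · rintro (⟨h1, h2⟩ | ⟨h1, h2⟩)
      · exact ⟨h1, h.KV h2⟩
      · exact ⟨h1, (mem_sdiff.mp (h.FsK h2)).1⟩
  · rw [disjoint_left]
    intro x hx hx2
    exact (mem_sdiff.mp (h.FsK (mem_inter.mp hx2).2)).2 (mem_inter.mp hx).2

theorem nk_sum {U : Finset α} (h : Sys b U) :
    ∑ i ∈ mt b U, (3 - (b i ∩ U).card) = 2 * nk b U 1 + nk b U 2 := by
  have h1 : ∑ i ∈ mt b U, (3 - (b i ∩ U).card) =
      ∑ i, (2 * (if (b i ∩ U).card = 1 then 1 else 0) + if (b i ∩ U).card = 2 then 1 else 0) := by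
    symm
    rw [← sum_subset (subset_univ (mt b U))]
    · apply sum_congr rfl
      intro i hi
      obtain ⟨y, hy, hy2⟩ := mem_mt.mp hi
      have h2 := h.sz i
      have h3 := card_pos.mpr ⟨y, mem_inter.mpr ⟨hy2, hy⟩⟩
      split_ifs <;> omega
    · intro i _ hi
      have h2 : (b i ∩ U).card = 0 := by
        rw [card_eq_zero, eq_empty_iff_forall_notMem]
        intro x hx
        rw [mem_inter] at hx
        exact hi (mem_mt.mpr ⟨x, hx.2, hx.1⟩)
      rw [h2]
      rfl
  rw [h1, sum_add_distrib, ← mul_sum]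
  unfold nk
  rw [card_filter, card_filter]

/-- The labels and the deficits. -/
theorem D0.slots (h : D0 b V K L p q i0 j0) :
    sl b K p q + tl b V K = 2 * nk b K 1 + nk b K 2 := by
  rw [← nk_sum (h.sys.mono h.KV), ← h.sum_Fs]
  unfold tl
  rw [← sum_add_distrib]
  apply sum_congr rfl
  intro i hi
  have h1 := h.block_card hi
  have h2 := h.sys.sz i
  omega

theorem tl_le (hsys : Sys b V) (hKV : K ⊆ V) : tl b V K ≤ 2 * nk b V 1 + nk b V 2 := by
  rw [← nk_sum hsys]
  unfold tl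
  exact sum_le_sum_of_subset (mt_mono hKV)

/-- A special point in `K` gives four deficits. -/
theorem tl_ge (hKV : K ⊆ V) {z : α} (hz : z ∈ sp b V) (hzK : z ∈ K) : 4 ≤ tl b V K := by
  have h1 := (mem_filter.mp hz).2
  have hzV := hKV hzK
  have h2 : (univ.filter fun i => b i ∩ V = {z}) ⊆ mt b K := by
    intro i hi
    have h3 : z ∈ b i ∩ V := by
      rw [(mem_filter.mp hi).2]
      exact mem_singleton_self z
    exact mem_mt.mpr ⟨z, hzK, (mem_inter.mp h3).1⟩
  unfold tl
  calc 4 ≤ ∑ _i ∈ (univ.filter fun i => b i ∩ V = {z}), 2 := by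
        rw [sum_const, smul_eq_mul]
        omega
    _ ≤ ∑ i ∈ (univ.filter fun i => b i ∩ V = {z}), (3 - (b i ∩ V).card) := by
        apply sum_le_sum
        intro i hi
        rw [(mem_filter.mp hi).2, card_singleton]
    _ ≤ ∑ i ∈ mt b K, (3 - (b i ∩ V).card) := sum_le_sum_of_subset h2

/-- If all the small blocks are the two singletons at a special point outside `K`, there are
no deficits. -/
theorem tl_zero (_hsys : Sys b V) (h1 : nk b V 1 = 2) (h2 : nk b V 2 = 0) (hKV : K ⊆ V) {z : α}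
    (hz : z ∈ sp b V) (hzK : z ∉ K) : tl b V K = 0 := by
  have h3 := (mem_filter.mp hz).2
  have h4 : (univ.filter fun i => b i ∩ V = {z}) = univ.filter fun i => (b i ∩ V).card = 1 := by
    apply eq_of_subset_of_card_le
    · intro i hi
      rw [mem_filter] at hi ⊢
      rw [hi.2, card_singleton]
      exact ⟨mem_univ i, rfl⟩
    · unfold nk at h1
      omega
  unfold tl
  apply sum_eq_zero
  intro i hi
  obtain ⟨y, hy, hy2⟩ := mem_mt.mp hi
  have h5 := card_pos.mpr ⟨y, mem_inter.mpr ⟨hy2, hKV hy⟩⟩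
  have h6 : (b i ∩ V).card ≠ 1 := by
    intro h7
    have h8 : i ∈ univ.filter fun i => b i ∩ V = {z} := by
      rw [h4]
      exact mem_filter.mpr ⟨mem_univ i, h7⟩
    have h9 : y ∈ b i ∩ V := mem_inter.mpr ⟨hy2, hKV hy⟩
    rw [(mem_filter.mp h8).2, mem_singleton] at h9
    rw [← h9] at hzK
    exact hzK hy
  have h7 : (b i ∩ V).card ≠ 2 := by
    intro h8
    have h9 : i ∈ univ.filter fun i => (b i ∩ V).card = 2 := mem_filter.mpr ⟨mem_univ i, h8⟩
    unfold nk at h2
    rw [card_eq_zero] at h2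
    rw [h2] at h9
    exact absurd h9 (notMem_empty i)
  omega

/-- The numbers of a minimal counterexample with `e* = -2`. -/
theorem MC.two (h : MC b V) (he : ee b V - ((sp b V).card : ℤ) = -2) :
    (sp b V = ∅ ∧ 2 * nk b V 1 + nk b V 2 ≤ 2) ∨
    ((sp b V).card = 1 ∧ nk b V 1 = 2 ∧ nk b V 2 = 0) := by
  have h1 := ee_nk h.sys
  have h2 := h.tf
  have h3 := two_sp_nk (b := b) (U := V)
  have h4 := h.neg
  unfold Pot at h4
  by_cases h5 : (sp b V).card = 0
  · left
    refine ⟨card_eq_zero.mp h5, ?_⟩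
    omega
  · right
    omega

/-- The numbers of a face-free component. -/
theorem ff_num {K : Finset α} (hs : Sys b K) (hf : 2 * tau b K = K.card + 1)
    (h3 : nk b K 3 = 0) {e : ℤ} (he : ee b K = e) :
    (K.card : ℤ) = 8 * nk b K 1 + 4 * nk b K 2 - 33 - 6 * e ∧
    13 * (nk b K 1 : ℤ) + 6 * nk b K 2 = 55 + 10 * e := by
  have h1 := ee_nk hs
  have h2 := nk_deg hs
  rw [h3, he] at *
  zify at h2 hf
  constructor <;> linarith

end Pool.Agent.Helper20.C5
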