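import Pool.Agent.Helper20.C5.Dg

/-!
# Double cuts with two components: the special patterns for `B = 4`
-/

set_option linter.unusedSectionVars false

open Finset

namespace Pool.Agent.Helper20.C5

open Pool.Agent.Helper74.C5

variable {α ι : Type} [DecidableEq α] [DecidableEq ι] [Fintype ι]
variable {b : ι → Finset α} {V K L : Finset α} {p q : Fin 3 → α} {i0 j0 : ι}

/-- The rule ADD with a group of two points. -/
theorem D0.ga (h : D0 b V K L p q i0 j0) (hKP : KP) {i i' i'' j j' j'' : Fin 3}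
    (hi : i ≠ i') (hi2 : i ≠ i'') (hi3 : i' ≠ i'') (hj : j ≠ j') (hj2 : j ≠ j'') (hj3 : j' ≠ j'')
    (h1 : Ab b K (p i') (q j'')) (h2 : Ab b K (p i'') (q j'')) {a c a' c' : ℕ} (ha : 1 ≤ a)
    (hc : 1 ≤ c) (ha' : 1 ≤ a') (hc' : 1 ≤ c') (d1 : a ≤ df b L p i)
    (d2 : c ≤ dg b {p i', p i''} L) (d3 : a' ≤ df b L q j) (d4 : c' ≤ df b L q j') :
    cpv a c + cpv a' c' ≤ eX b V L + 6 := by
  refine h.add hKP (A := {i}) (A' := {i', i''}) (B := {j}) (B' := {j'}) ?_
    (disjoint_singleton.mpr hj) (singleton_nonempty _) (insert_nonempty _ _)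
    (singleton_nonempty _) (singleton_nonempty _) ha hc ?_ ?_ ha' hc' ?_ ?_ ?_
  · rw [disjoint_singleton_left, mem_insert, mem_singleton, not_or]
    exact ⟨hi, hi2⟩
  · rw [image_singleton, dg_one]
    exact d1
  · rw [image_insert, image_singleton]
    exact d2
  · rw [image_singleton, dg_one]
    exact d3
  · rw [image_singleton, dg_one]
    exact d4
  · intro x hx y hy z hz1 hz2 u hu v hv w hw1 hw2
    rw [mem_singleton] at hx hu hv
    rw [mem_insert, mem_singleton] at hy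
    subst hx hu hv
    have h3 : w = j'' := by
      rcases fin3_third u v j'' w hj hj2.symm hj3.symm with h4 | h4 | h4
      · exact absurd h4 hw1
      · exact absurd h4 hw2
      · exact h4
    subst h3
    rcases hy with rfl | rfl
    · have h4 : z = i'' := by
        rcases fin3_third x y i'' z hi hi2.symm hi3.symm with h5 | h5 | h5
        · exact absurd h5 hz1
        · exact absurd h5 hz2
        · exact h5
      rw [h4]
      exact h2
    · have h4 : z = i' := by
        rcases fin3_third x y i' z hi2 hi.symm hi3 with h5 | h5 | h5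
        · exact absurd h5 hz1
        · exact absurd h5 hz2
        · exact h5
      rw [h4]
      exact h1

/-- Three points of the faces do not have a common block meeting `K`. -/
theorem D0.no3 (h : D0 b V K L p q i0 j0) {x y z : α} (hx : x ∈ Fs p q) (hy : y ∈ Fs p q)
    (hz : z ∈ Fs p q) (h1 : x ≠ y) (h2 : x ≠ z) (h3 : y ≠ z) {i : ι} (hxi : i ∈ BK b K x)
    (hyi : i ∈ BK b K y) (hzi : i ∈ BK b K z) : False := by
  obtain ⟨hx1, c, hc⟩ := mem_BK.mp hxi
  rw [mem_inter] at hc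
  have k : ∀ t ∈ Fs p q, t ∈ V ∧ t ≠ c := by
    intro t ht
    have h4 := mem_sdiff.mp (h.FsK ht)
    exact ⟨h4.1, fun h5 => h4.2 (h5 ▸ hc.2)⟩
  exact h.four (k x hx).1 (k y hy).1 (k z hz).1 (h.KV hc.2) h1 h2 (k x hx).2 h3 (k y hy).2
    (k z hz).2 hx1 (mem_BK.mp hyi).1 (mem_BK.mp hzi).1 hc.1

/-- A common block of two points meets `K` in one point. -/
theorem D0.one_pt (h : D0 b V K L p q i0 j0) {x y : α} (hx : x ∈ Fs p q) (hy : y ∈ Fs p q)
    (h1 : x ≠ y) {i : ι} (hxi : i ∈ BK b K x) (hyi : i ∈ BK b K y) : (b i ∩ K).card = 1 := by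
  obtain ⟨hx1, c, hc⟩ := mem_BK.mp hxi
  rw [mem_inter] at hc
  rw [card_eq_one]
  refine ⟨c, ?_⟩
  ext t
  rw [mem_inter, mem_singleton]
  constructor
  · rintro ⟨ht, htK⟩
    by_contra h2
    have k : ∀ s ∈ Fs p q, ∀ u ∈ K, s ≠ u := by
      intro s hs u hu h5
      exact (mem_sdiff.mp (h.FsK hs)).2 (h5 ▸ hu)
    exact h.four (mem_sdiff.mp (h.FsK hx)).1 (mem_sdiff.mp (h.FsK hy)).1 (h.KV htK) (h.KV hc.2)
      h1 (k x hx t htK) (k x hx c hc.2) (k y hy t htK) (k y hy c hc.2) h2 hx1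
      (mem_BK.mp hyi).1 ht hc.1
  · rintro rfl
    exact hc

/-- Common blocks count for `n_1`. -/
theorem D0.com_le (h : D0 b V K L p q i0 j0) {x y : α} (hx : x ∈ Fs p q) (hy : y ∈ Fs p q)
    (h1 : x ≠ y) : (BK b K x ∩ BK b K y).card ≤ nk b K 1 := by
  unfold nk
  apply card_le_card
  intro i hi
  rw [mem_inter] at hi
  exact mem_filter.mpr ⟨mem_univ i, h.one_pt hx hy h1 hi.1 hi.2⟩

/-- The blocks through a point of a one point component. -/
theorem D0.uniqK (h : D0 b V K L p q i0 j0) {k : α} (hk : K = {k}) {x y : α} (hx : x ∈ Fs p q)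
    (hy : y ∈ Fs p q) (h1 : x ≠ y) : (BK b K x ∩ BK b K y).card ≤ 1 := by
  rw [card_le_one]
  intro i hi i' hi'
  rw [mem_inter, mem_BK, mem_BK] at hi hi'
  have key : ∀ m : ι, (b m ∩ K).Nonempty → k ∈ b m := by
    rintro m ⟨c, hc⟩
    rw [mem_inter, hk, mem_singleton] at hc
    rw [← hc.2]
    exact hc.1
  have hkK : k ∈ K := by
    rw [hk]
    exact mem_singleton_self k
  have hkx : ∀ s ∈ Fs p q, s ≠ k := fun s hs h5 => (mem_sdiff.mp (h.FsK hs)).2 (h5 ▸ hkK)
  exact h.three_uq (mem_sdiff.mp (h.FsK hx)).1 (mem_sdiff.mp (h.FsK hy)).1 (h.KV hkK) h1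
    (hkx x hx) (hkx y hy) hi.1.1 hi.2.1 (key i hi.1.2) hi'.1.1 hi'.2.1 (key i' hi'.1.2)

/-- The blocks through the point of a one point component. -/
theorem D0.allK (h : D0 b V K L p q i0 j0) {k : α} (hk : K = {k}) (S : Finset ι)
    (hS : ∀ i ∈ S, (b i ∩ K).Nonempty) (h5 : S.card = 5) {i : ι} (hi : (b i ∩ K).Nonempty) :
    i ∈ S := by
  have key : ∀ m : ι, (b m ∩ K).Nonempty → k ∈ b m := by
    rintro m ⟨c, hc⟩
    rw [mem_inter, hk, mem_singleton] at hc
    rw [← hc.2]
    exact hc.1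
  have hkK : k ∈ K := by
    rw [hk]
    exact mem_singleton_self k
  have h1 := h.sys.deg k (h.KV hkK)
  have h2 : S = univ.filter fun i => k ∈ b i := by
    apply eq_of_subset_of_card_le
    · intro m hm
      exact mem_filter.mpr ⟨mem_univ m, key m (hS m hm)⟩
    · omega
  rw [h2]
  exact mem_filter.mpr ⟨mem_univ i, key i hi⟩

theorem D0.nabP (h : D0 b V K L p q i0 j0) {i : Fin 3} (hi : 0 < df b L p i) {j k : Fin 3}
    (h1 : j ≠ i) (h2 : k ≠ i) (h3 : j ≠ k) : ¬ Ab b K (p j) (p k) :=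
  h.naP' (df_aj.mp hi) h1 h2 h3

/-- If the blocks of two points are common with a third point, they are disjoint. -/
theorem D0.subset3 (h : D0 b V K L p q i0 j0) {x y z : α} (hx : x ∈ Fs p q) (hy : y ∈ Fs p q)
    (hz : z ∈ Fs p q) (h1 : x ≠ y) (h2 : x ≠ z) (h3 : y ≠ z)
    (h4 : (BK b K x ∪ (BK b K y ∪ BK b K z)).card ≤ (BK b K x).card) :
    BK b K y ∪ BK b K z ⊆ BK b K x ∧ Disjoint (BK b K y) (BK b K z) := by
  have h5 : BK b K x ∪ (BK b K y ∪ BK b K z) = BK b K x :=
    (eq_of_subset_of_card_le subset_union_left h4).symm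
  have h6 : BK b K y ∪ BK b K z ⊆ BK b K x := by
    rw [← h5]
    exact subset_union_right
  refine ⟨h6, ?_⟩
  rw [disjoint_left]
  intro i hi hi2
  exact h.no3 hx hy hz h1 h2 h3 (h6 (mem_union_left _ hi)) hi hi2

/-- The group `p 0, q 1, q 2` in `L`, patterns `(3,2,2)`, `(4,x,y)`. -/
theorem D0.grp (h : D0 b V K L p q i0 j0) (hKP : KP) (hL : eX b V L = 3) (hK : eX b V K = 1)
    (p1 : 2 ≤ df b K p 1) (p2 : 2 ≤ df b K p 2) (q1 : 2 ≤ df b K q 1) (q2 : 2 ≤ df b K q 2)
    (q0' : 4 ≤ df b L q 0) :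
    dg b {p 0, q 1, q 2} L ≤ 3 := by
  by_contra hcon
  have h1 : ¬ Ab b L (p 0) (q 0) := by
    intro h2
    have h3 := h.swap.add1 hKP (i := 0) (j := 0) h2 (lt_of_lt_of_le (by omega) p1)
      (lt_of_lt_of_le (by omega) p2) (lt_of_lt_of_le (by omega) q1)
      (lt_of_lt_of_le (by omega) q2)
    have e1 : (0 : Fin 3) + 1 = 1 := rfl
    have e2 : (0 : Fin 3) + 2 = 2 := rfl
    rw [e1, e2, hK] at h3
    unfold cpv at h3
    omega
  have h2 := h.swap.cap hKP (G := {q 0}) (H := {p 0, q 1, q 2}) (a := 4) (c := 4)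
    (singleton_subset_iff.mpr (q_Fs 0))
    (by
      intro x hx
      rw [mem_insert, mem_insert, mem_singleton] at hx
      rcases hx with rfl | rfl | rfl
      · exact p_Fs 0
      · exact q_Fs 1
      · exact q_Fs 2)
    (by
      rw [disjoint_singleton_left, mem_insert, mem_insert, mem_singleton, not_or, not_or]
      exact ⟨(h.pq 0 0).symm, fun h5 => by simpa using h.qinj h5,
        fun h5 => by simpa using h.qinj h5⟩) (by omega) (by omega)
    (by rw [dg_one]; exact q0') (by omega)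
    (by
      intro x hx y hy
      rw [mem_singleton.mp hx]
      rw [mem_insert, mem_insert, mem_singleton] at hy
      rcases hy with rfl | rfl | rfl
      · exact fun h5 => h1 h5.symm
      · exact h.swap.flip.nabP (i := 2) (lt_of_lt_of_le (by omega) q2) (by decide) (by decide)
          (by decide)
      · exact h.swap.flip.nabP (i := 1) (lt_of_lt_of_le (by omega) q1) (by decide) (by decide)
          (by decide))
  rw [hL] at h2
  unfold cpv at h2
  omega

/-- Pattern `(1,2,2)`, `(0,2,2)`. -/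
theorem D0.cf (h : D0 b V K L p q i0 j0) (hKP : KP) (hL : eX b V L = 3) (hK : eX b V K = 1)
    (p1 : df b K p 1 = 2) (p2 : df b K p 2 = 2) (q1 : df b K q 1 = 2) (q2 : df b K q 2 = 2)
    (p0' : df b L p 0 = 3) (q0' : df b L q 0 = 4) (q1' : df b L q 1 = 2)
    (q2' : df b L q 2 = 2) : False := by
  have h1 := h.grp hKP hL hK p1.ge p2.ge q1.ge q2.ge q0'.ge
  rw [dg_three] at h1
  obtain ⟨h2, h3⟩ := h.swap.subset3 (p_Fs 0) (q_Fs 1) (q_Fs 2) (h.pq 0 1) (h.pq 0 2)
    (fun h5 => by simpa using h.qinj h5) (h1.trans (by unfold df at p0'; omega))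
  have h4 := card_le_card h2
  rw [card_union_of_disjoint h3] at h4
  unfold df at p0' q1' q2'
  omega

/-- Pattern `(1,2,2)`, `(0,2,3)`, the large component is the smallest one. -/
theorem D0.cgL (h : D0 b V K L p q i0 j0) (hKP : KP) (hL : eX b V L = 3) (hK : eX b V K = 1)
    (p1 : df b K p 1 = 2) (p2 : df b K p 2 = 2) (q1 : df b K q 1 = 2) (q2 : df b K q 2 = 3)
    (p0' : df b L p 0 = 3) (q0' : df b L q 0 = 4) (q1' : df b L q 1 = 2)
    (hn : nk b L 1 ≤ 1) : False := by
  have h1 := h.grp hKP hL hK p1.ge p2.ge q1.ge (by omega) q0'.ge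
  rw [dg_three] at h1
  obtain ⟨h2, h3⟩ := h.swap.subset3 (p_Fs 0) (q_Fs 1) (q_Fs 2) (h.pq 0 1) (h.pq 0 2)
    (fun h5 => by simpa using h.qinj h5) (h1.trans (by unfold df at p0'; omega))
  have h4 := h.swap.com_le (q_Fs 1) (p_Fs 0) (h.pq 0 1).symm
  rw [inter_eq_left.mpr (subset_union_left.trans h2)] at h4
  unfold df at q1'
  omega

/-- The union of the blocks of the three points. -/
theorem D0.union3 (h : D0 b V K L p q i0 j0) (h0 : 0 < df b L p 0) (h1 : 0 < df b L p 1)
    (h2 : 0 < df b L p 2) : (BK b K (p 0) ∪ (BK b K (p 1) ∪ BK b K (p 2))).card =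
      df b K p 0 + df b K p 1 + df b K p 2 := by
  rw [card_union_of_disjoint, card_union_of_disjoint]
  · unfold df
    omega
  · exact h.disjP h0 (by decide) (by decide) (by decide)
  · rw [disjoint_union_right]
    exact ⟨h.disjP h2 (by decide) (by decide) (by decide),
      h.disjP h1 (by decide) (by decide) (by decide)⟩

/-- Pattern `(1,1,2)`, `(0,2,3)`, the component `K` has one point. -/
theorem D0.bg (h : D0 b V K L p q i0 j0) (hKP : KP) (hL : eX b V L = 3) {k : α} (hk : K = {k})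
    (p2 : df b K p 2 = 2) (q1 : df b K q 1 = 2) (q2 : df b K q 2 = 3)
    (p0' : df b L p 0 = 3) (p1' : df b L p 1 = 3) (q0' : df b L q 0 = 4)
    (q1' : df b L q 1 = 2) : False := by
  have h1 : ¬ Ab b K (p 2) (q 2) := by
    intro h2
    have h3 := h.add1 hKP (i := 2) (j := 2) h2 (lt_of_lt_of_le (by omega) p0'.ge)
      (lt_of_lt_of_le (by omega) p1'.ge) (lt_of_lt_of_le (by omega) q0'.ge)
      (lt_of_lt_of_le (by omega) q1'.ge)
    have e1 : (2 : Fin 3) + 1 = 0 := rfl
    have e2 : (2 : Fin 3) + 2 = 1 := rfl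
    rw [e1, e2, p0', p1', q0', q1', hL] at h3
    unfold cpv at h3
    omega
  have h2 : Disjoint (BK b K (q 1)) (BK b K (q 2)) :=
    h.flip.disjP (i := 0) (by rw [q0']; omega) (by decide) (by decide) (by decide)
  have h3 : (BK b K (q 1) ∪ BK b K (q 2)).card = 5 := by
    rw [card_union_of_disjoint h2]
    unfold df at q1 q2
    omega
  have h4 : BK b K (p 2) ⊆ BK b K (p 2) ∩ BK b K (q 1) := by
    intro i hi
    refine mem_inter.mpr ⟨hi, ?_⟩
    have h5 := h.allK hk _ (by
      intro i hi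
      rcases mem_union.mp hi with hi | hi
      · exact (mem_BK.mp hi).2
      · exact (mem_BK.mp hi).2) h3 (mem_BK.mp hi).2
    rcases mem_union.mp h5 with h5 | h5
    · exact h5
    · exact absurd (common_ab h.cK h.vcK hi h5) h1
  have h5 := card_le_card h4
  have h6 := h.uniqK hk (p_Fs 2) (q_Fs 1) (h.pq 2 1)
  unfold df at p2
  omega

/-- A point with three (or two) labels on a one point component. -/
theorem D0.two_of (h : D0 b V K L p q i0 j0) {k : α} (hk : K = {k})
    (h0 : 0 < df b L p 0) (h1 : 0 < df b L p 1) (h2 : 0 < df b L p 2)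
    (hs : df b K p 0 + df b K p 1 + df b K p 2 = 5) (j : Fin 3) :
    df b K q j ≤ (BK b K (p 0) ∩ BK b K (q j)).card + (BK b K (p 1) ∩ BK b K (q j)).card +
      (BK b K (p 2) ∩ BK b K (q j)).card := by
  have h3 := h.union3 h0 h1 h2
  rw [hs] at h3
  have h4 : BK b K (q j) ⊆ (BK b K (p 0) ∩ BK b K (q j)) ∪ ((BK b K (p 1) ∩ BK b K (q j)) ∪
      (BK b K (p 2) ∩ BK b K (q j))) := by
    intro i hi
    have h5 := h.allK hk _ (by
      intro i hi
      rcases mem_union.mp hi with hi | hi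
      · exact (mem_BK.mp hi).2
      · rcases mem_union.mp hi with hi | hi
        · exact (mem_BK.mp hi).2
        · exact (mem_BK.mp hi).2) h3 (mem_BK.mp hi).2
    rw [mem_union, mem_union] at h5
    rw [mem_union, mem_union, mem_inter, mem_inter, mem_inter]
    tauto
  have h5 := card_le_card h4
  have h6 := card_union_le (BK b K (p 0) ∩ BK b K (q j)) ((BK b K (p 1) ∩ BK b K (q j)) ∪
      (BK b K (p 2) ∩ BK b K (q j)))
  have h7 := card_union_le (BK b K (p 1) ∩ BK b K (q j)) (BK b K (p 2) ∩ BK b K (q j))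
  unfold df
  omega

theorem D0.ab_of_card (h : D0 b V K L p q i0 j0) {x y : α}
    (h1 : 0 < (BK b K x ∩ BK b K y).card) : Ab b K x y := by
  obtain ⟨i, hi⟩ := card_pos.mp h1
  rw [mem_inter] at hi
  exact common_ab h.cK h.vcK hi.1 hi.2

/-- Pattern `(1,2,2)`, `(0,2,3)`, the component `K` has one point. -/
theorem D0.cgK (h : D0 b V K L p q i0 j0) (hKP : KP) (hL : eX b V L = 3) {k : α} (hk : K = {k})
    (p0 : df b K p 0 = 1) (p1 : df b K p 1 = 2) (p2 : df b K p 2 = 2)
    (q2 : df b K q 2 = 3) (p0' : df b L p 0 = 3) (p1' : df b L p 1 = 2) (p2' : df b L p 2 = 2)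
    (q0' : df b L q 0 = 4) (q1' : df b L q 1 = 2) : False := by
  have h1 := h.two_of hk (by omega) (by omega) (by omega) (by omega) 2
  have u0 := h.uniqK hk (p_Fs 0) (q_Fs 2) (h.pq 0 2)
  have u1 := h.uniqK hk (p_Fs 1) (q_Fs 2) (h.pq 1 2)
  have u2 := h.uniqK hk (p_Fs 2) (q_Fs 2) (h.pq 2 2)
  have a1 : Ab b K (p 1) (q 2) := h.ab_of_card (by omega)
  have a2 : Ab b K (p 2) (q 2) := h.ab_of_card (by omega)
  have h2 := h.swap.le_two 0
  unfold D2 at h2
  rw [if_pos (by omega)] at h2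
  have e1 : (0 : Fin 3) + 1 = 1 := rfl
  have e2 : (0 : Fin 3) + 2 = 2 := rfl
  rw [e1, e2] at h2
  have h3 := h.ga hKP (i := 0) (i' := 1) (i'' := 2) (j := 0) (j' := 1) (j'' := 2) (by decide)
    (by decide) (by decide) (by decide) (by decide) (by decide) a1 a2 (a := 3) (c := 4)
    (a' := 4) (c' := 2) (by omega) (by omega) (by omega) (by omega) (by omega) (by omega)
    (by omega) (by omega)
  rw [hL] at h3
  unfold cpv at h3
  omega

/-- Pattern `(1,2,2)`, `(1,2,2)`, the component `K` has one point. -/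
theorem D0.ccK (h : D0 b V K L p q i0 j0) (hKP : KP) (hL : eX b V L = 3) {k : α} (hk : K = {k})
    (p0 : df b K p 0 = 1) (p1 : df b K p 1 = 2) (p2 : df b K p 2 = 2)
    (q1 : df b K q 1 = 2) (q2 : df b K q 2 = 2) (p0' : df b L p 0 = 3) (p1' : df b L p 1 = 2)
    (p2' : df b L p 2 = 2) (q0' : df b L q 0 = 3) (q1' : df b L q 1 = 2)
    (q2' : df b L q 2 = 2) : False := by
  have h2 := h.swap.le_two 0
  unfold D2 at h2
  rw [if_pos (by omega)] at h2
  have e1 : (0 : Fin 3) + 1 = 1 := rfl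
  have e2 : (0 : Fin 3) + 2 = 2 := rfl
  rw [e1, e2] at h2
  have key : ∀ j j' : Fin 3, 0 ≠ j → 0 ≠ j' → j' ≠ j → df b K q j = 2 → df b L q j' = 2 →
      0 < (BK b K (p 0) ∩ BK b K (q j)).card := by
    intro j j' hj hj' hjj hd hd'
    by_contra hcon
    have h1 := h.two_of hk (by omega) (by omega) (by omega) (by omega) j
    have u1 := h.uniqK hk (p_Fs 1) (q_Fs j) (h.pq 1 j)
    have u2 := h.uniqK hk (p_Fs 2) (q_Fs j) (h.pq 2 j)
    have a1 : Ab b K (p 1) (q j) := h.ab_of_card (by omega)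
    have a2 : Ab b K (p 2) (q j) := h.ab_of_card (by omega)
    have h3 := h.ga hKP (i := 0) (i' := 1) (i'' := 2) (j := 0) (j' := j') (j'' := j) (by decide)
      (by decide) (by decide) hj' hj hjj a1 a2 (a := 3) (c := 4)
      (a' := 3) (c' := 2) (by omega) (by omega) (by omega) (by omega) (by omega) (by omega)
      (by omega) (by omega)
    rw [hL] at h3
    unfold cpv at h3
    omega
  have k1 := key 1 2 (by decide) (by decide) (by decide) q1 q2'
  have k2 := key 2 1 (by decide) (by decide) (by decide) q2 q1'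
  obtain ⟨i, hi⟩ := card_pos.mp k1
  obtain ⟨i', hi'⟩ := card_pos.mp k2
  rw [mem_inter] at hi hi'
  have h3 : i = i' := by
    unfold df at p0
    exact card_le_one.mp p0.le i hi.1 i' hi'.1
  rw [← h3] at hi'
  exact (disjoint_left.mp (h.flip.disjP (i := 0) (j := 1) (k := 2) (by omega) (by decide)
    (by decide) (by decide))) hi.2 hi'.2

end Pool.Agent.Helper20.C5
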