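import Pool.Agent.Helper20.C5.Nm

/-!
# The numerical checks, no inner blocks, `B = 4`
-/

namespace Pool.Agent.Helper20.C5

set_option maxRecDepth 100000

/-- Sorted triples. -/
def so (x : ℕ × ℕ × ℕ) : Bool := decide (x.1 ≤ x.2.1) && decide (x.2.1 ≤ x.2.2)

/-- The sum. -/
def sm (x : ℕ × ℕ × ℕ) : ℕ := x.1 + x.2.1 + x.2.2

/-- The exceptional pairs of patterns for `(1, 3)`. -/
def l13 : List ((ℕ × ℕ × ℕ) × (ℕ × ℕ × ℕ)) :=
  [((0, 2, 2), (1, 2, 2)), ((1, 2, 2), (0, 2, 2)), ((0, 2, 3), (1, 1, 2)), ((1, 1, 2), (0, 2, 3)),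
   ((0, 2, 3), (1, 2, 2)), ((1, 2, 2), (0, 2, 3)), ((1, 2, 2), (1, 2, 2))]

/-- The exceptions for `(1, 3)`. -/
def ex13 (x y : ℕ × ℕ × ℕ) : Bool :=
  !so x || !so y || decide (sm x + sm y ≤ 7) || decide ((x, y) ∈ l13)

/-- The exceptions for `(2, 2)`. -/
def ex22 (x y : ℕ × ℕ × ℕ) : Bool :=
  !so x || !so y || decide ((x, y) = ((2, 2, 2), (2, 2, 2)))

theorem nc4_0 : crs 4 4 4 4 4 4 0 4 (pts 4 4 4 0 4) (pts 4 4 4 0 4) (fun _ _ => false) = true := by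
  decide +kernel

theorem nc4_1 : crs 4 4 4 4 4 4 1 3 (pts 4 4 4 1 3) (pts 4 4 4 1 3) ex13 = true := by
  decide +kernel

theorem nc4_2 : crs 4 4 4 4 4 4 2 2 (pts 4 4 4 2 2) (pts 4 4 4 2 2) ex22 = true := by
  decide +kernel

end Pool.Agent.Helper20.C5
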