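import Pool.Agent.Helper20.C5.Dh
import Pool.Agent.Helper20.C5.Nd

/-!
# Double cuts with two components: the last patterns for `B = 4`
-/

set_option linter.unusedSectionVars false

open Finset

namespace Pool.Agent.Helper20.C5

open Pool.Agent.Helper74.C5

variable {α ι : Type} [DecidableEq α] [DecidableEq ι] [Fintype ι]
variable {b : ι → Finset α} {V K L : Finset α} {p q : Fin 3 → α} {i0 j0 : ι}

theorem D0.capv (h : D0 b V K L p q i0 j0) (hKP : KP) {G H : Finset α} (hG : G ⊆ Fs p q)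
    (hH : H ⊆ Fs p q) (hd : Disjoint G H) {a c : ℕ} (ha : 1 ≤ a) (hc : 1 ≤ c)
    (hn : ∀ x ∈ G, ∀ y ∈ H, ¬ Ab b K x y) (hv : eX b V K + 3 < cpv a c) (h0 : a ≤ dg b G K) :
    dg b H K < c := by
  by_contra hcon
  have h1 := h.cap hKP hG hH hd ha hc h0 (not_lt.mp hcon) hn
  omega

theorem sub_Fs2 {x y : α} (hx : x ∈ Fs p q) (hy : y ∈ Fs p q) : ({x, y} : Finset α) ⊆ Fs p q := by
  intro z hz
  rw [mem_insert, mem_singleton] at hz
  rcases hz with rfl | rfl
  · exact hx
  · exact hy

theorem disj22 {x y z w : α} (h1 : x ≠ z) (h2 : x ≠ w) (h3 : y ≠ z) (h4 : y ≠ w) :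
    Disjoint ({x, y} : Finset α) {z, w} := by
  rw [disjoint_left]
  intro t ht ht2
  rw [mem_insert, mem_singleton] at ht ht2
  rcases ht with rfl | rfl
  · rcases ht2 with h5 | h5
    · exact h1 h5
    · exact h2 h5
  · rcases ht2 with h5 | h5
    · exact h3 h5
    · exact h4 h5

theorem all22 {x y z w : α} {r : α → α → Prop} (h1 : r x z) (h2 : r x w) (h3 : r y z)
    (h4 : r y w) : ∀ s ∈ ({x, y} : Finset α), ∀ t ∈ ({z, w} : Finset α), r s t := by
  intro s hs t ht
  rw [mem_insert, mem_singleton] at hs ht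
  rcases hs with rfl | rfl
  · rcases ht with rfl | rfl
    · exact h1
    · exact h2
  · rcases ht with rfl | rfl
    · exact h3
    · exact h4

theorem D0.pne (h : D0 b V K L p q i0 j0) {i j : Fin 3} (hij : i ≠ j) : p i ≠ p j :=
  fun h5 => hij (h.pinj h5)

/-- The degree of two points without a common block. -/
theorem dg_two_add {x y : α} (h : ∀ i, x ∈ b i → y ∈ b i → False) :
    dg b {x, y} K = (BK b K x).card + (BK b K y).card := by
  rw [dg_two, card_union_of_disjoint]
  rw [disjoint_left]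
  intro i hi hi2
  exact h i (mem_BK.mp hi).1 (mem_BK.mp hi2).1

/-- The degree of two points with at most one common block. -/
theorem D0.dg_two_one (h : D0 b V K L p q i0 j0) {x y : α} (hx : x ∈ Fs p q) (hy : y ∈ Fs p q)
    (h1 : x ≠ y) (hn : nk b K 1 ≤ 1) :
    (BK b K x).card + (BK b K y).card ≤ dg b {x, y} K + 1 := by
  rw [dg_two]
  have h2 := h.com_le hx hy h1
  have h3 := card_union_add_card_inter (BK b K x) (BK b K y)
  omega

/-- Pattern `(1,2,2)`, `(1,2,2)`, matched. -/
theorem D0.ccL_aux (h : D0 b V K L p q i0 j0) (hKP : KP) (hK : eX b V K = 1)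
    (p0 : df b K p 0 = 1) (p1 : df b K p 1 = 2) (p2 : df b K p 2 = 2)
    (q0 : df b K q 0 = 1) (p0' : 0 < df b L p 0) (p1' : 0 < df b L p 1)
    (p2' : 0 < df b L p 2) (h20 : Ab b L (p 2) (q 2)) (h02 : Ab b L (p 0) (q 2))
    (h01 : Ab b L (p 0) (q 1)) (hb : ¬ (Ab b K (p 1) (q 0) ∧ Ab b K (p 2) (q 0)))
    (h11 : Ab b K (p 1) (q 1)) (h22 : Ab b K (p 2) (q 2)) : False := by
  have n00 : ∀ m, p 0 ∈ b m → q 0 ∈ b m → False := fun m h1 h2 =>
    h.rst (i := 1) (i' := 2) (i'' := 0) (j := 1) (j' := 2) (j'' := 0) (by decide)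
      (by decide) (by decide) (by decide) (by decide) (by decide) h11 h20 h1 h2
  have n20 : ∀ m, p 2 ∈ b m → q 0 ∈ b m → False := fun m h1 h2 =>
    h.rst (i := 1) (i' := 0) (i'' := 2) (j := 1) (j' := 2) (j'' := 0) (by decide)
      (by decide) (by decide) (by decide) (by decide) (by decide) h11 h02 h1 h2
  have n10 : ∀ m, p 1 ∈ b m → q 0 ∈ b m → False := fun m h1 h2 =>
    h.rst (i := 2) (i' := 0) (i'' := 1) (j := 2) (j' := 1) (j'' := 0) (by decide)
      (by decide) (by decide) (by decide) (by decide) (by decide) h22 h01 h1 h2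
  have a01 : ¬ Ab b K (p 0) (p 1) := h.nabP (i := 2) p2' (by decide) (by decide) (by decide)
  have a02 : ¬ Ab b K (p 0) (p 2) := h.nabP (i := 1) p1' (by decide) (by decide) (by decide)
  have a12 : ¬ Ab b K (p 1) (p 2) := h.nabP (i := 0) p0' (by decide) (by decide) (by decide)
  have d12 : 4 ≤ dg b {p 1, p 2} K := by
    have h2 := h.le_two 0
    unfold D2 at h2
    rw [if_pos p0'] at h2
    have e1 : (0 : Fin 3) + 1 = 1 := rfl
    have e2 : (0 : Fin 3) + 2 = 2 := rfl
    rw [e1, e2] at h2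
    omega
  have d01 := h.disjP (i := 2) (j := 0) (k := 1) p2' (by decide) (by decide) (by decide)
  have d02 := h.disjP (i := 1) (j := 0) (k := 2) p1' (by decide) (by decide) (by decide)
  have dq : ∀ i, (∀ m, p i ∈ b m → q 0 ∈ b m → False) →
      Disjoint (BK b K (p i)) (BK b K (q 0)) := by
    intro i hi
    rw [disjoint_left]
    intro m h1 h2
    exact hi m (mem_BK.mp h1).1 (mem_BK.mp h2).1
  have dq0 := dq 0 n00
  have dq1 := dq 1 n10
  have dq2 := dq 2 n20
  unfold df at p0 p1 p2 q0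
  have hcv : cpv 4 2 = 5 := by decide
  have hcv2 : cpv 2 4 = 5 := by decide
  have hsub1 : ∀ i, ({p i} : Finset α) ⊆ Fs p q := fun i => singleton_subset_iff.mpr (p_Fs i)
  have hsub3 : ∀ i, ({p 0, p i, q 0} : Finset α) ⊆ Fs p q := by
    intro i x hx
    rw [mem_insert, mem_insert, mem_singleton] at hx
    rcases hx with rfl | rfl | rfl
    · exact p_Fs _
    · exact p_Fs _
    · exact q_Fs _
  by_cases b1 : Ab b K (p 1) (q 0)
  · have b2 : ¬ Ab b K (p 2) (q 0) := fun h5 => hb ⟨b1, h5⟩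
    have h3 := h.cap hKP (G := {p 2}) (H := {p 0, p 1, q 0}) (a := 2) (c := 4)
      (hsub1 2) (hsub3 1)
      (by
        rw [disjoint_singleton_left, mem_insert, mem_insert, mem_singleton, not_or, not_or]
        exact ⟨h.pne (by decide), h.pne (by decide), h.pq 2 0⟩) (by omega) (by omega)
      (by rw [dg_one]; omega)
      (by
        rw [dg_three, card_union_of_disjoint, card_union_of_disjoint dq1]
        · omega
        · rw [disjoint_union_right]
          exact ⟨d01, dq0⟩)
      (by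
        intro x hx y hy
        rw [mem_singleton.mp hx]
        rw [mem_insert, mem_insert, mem_singleton] at hy
        rcases hy with rfl | rfl | rfl
        · exact fun h5 => a02 h5.symm
        · exact fun h5 => a12 h5.symm
        · exact b2)
    rw [hcv2] at h3
    omega
  · by_cases b2 : Ab b K (p 2) (q 0)
    · have h3 := h.cap hKP (G := {p 1}) (H := {p 0, p 2, q 0}) (a := 2) (c := 4)
        (hsub1 1) (hsub3 2)
        (by
          rw [disjoint_singleton_left, mem_insert, mem_insert, mem_singleton, not_or, not_or]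
          exact ⟨h.pne (by decide), h.pne (by decide), h.pq 1 0⟩) (by omega) (by omega)
        (by rw [dg_one]; omega)
        (by
          rw [dg_three, card_union_of_disjoint, card_union_of_disjoint dq2]
          · omega
          · rw [disjoint_union_right]
            exact ⟨d02, dq0⟩)
        (by
          intro x hx y hy
          rw [mem_singleton.mp hx]
          rw [mem_insert, mem_insert, mem_singleton] at hy
          rcases hy with rfl | rfl | rfl
          · exact fun h5 => a01 h5.symm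
          · exact a12
          · exact b1)
      rw [hcv2] at h3
      omega
    · have h3 := h.cap hKP (G := {p 1, p 2}) (H := {p 0, q 0}) (a := 4) (c := 2)
        (sub_Fs2 (p_Fs 1) (p_Fs 2)) (sub_Fs2 (p_Fs 0) (q_Fs 0))
        (disj22 (h.pne (by decide)) (h.pq 1 0) (h.pne (by decide)) (h.pq 2 0)) (by omega)
        (by omega) d12 (by rw [dg_two_add n00]; omega)
        (all22 (fun h5 => a01 h5.symm) b1 (fun h5 => a02 h5.symm) b2)
      rw [hcv] at h3
      omega

/-- Pattern `(1,2,2)`, `(1,2,2)`, the component `L` has at most one block with one point. -/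
theorem D0.ccL (h : D0 b V K L p q i0 j0) (hKP : KP) (hL : eX b V L = 3) (hK : eX b V K = 1)
    (p0 : df b K p 0 = 1) (p1 : df b K p 1 = 2) (p2 : df b K p 2 = 2) (q0 : df b K q 0 = 1)
    (q1 : df b K q 1 = 2) (q2 : df b K q 2 = 2) (p0' : df b L p 0 = 3) (p1' : df b L p 1 = 2)
    (p2' : df b L p 2 = 2) (q0' : df b L q 0 = 3) (q1' : df b L q 1 = 2)
    (q2' : df b L q 2 = 2) (hn : nk b L 1 ≤ 1) : False := by
  -- the pair `p 0, q 0` is not absorbed by `L`
  have a00 : ¬ Ab b L (p 0) (q 0) := by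
    intro h2
    have h3 := h.swap.add1 hKP (i := 0) (j := 0) h2 (lt_of_lt_of_le (by omega) p1.ge)
      (lt_of_lt_of_le (by omega) p2.ge) (lt_of_lt_of_le (by omega) q1.ge)
      (lt_of_lt_of_le (by omega) q2.ge)
    have e1 : (0 : Fin 3) + 1 = 1 := rfl
    have e2 : (0 : Fin 3) + 2 = 2 := rfl
    rw [e1, e2, hK, p1, p2, q1, q2] at h3
    have e3 : cpv 2 2 = 4 := by decide
    rw [e3] at h3
    omega
  have hcv : cpv 4 4 = 8 := by decide
  -- nonabsorption in `L` inside a face
  have nL : ∀ i j : Fin 3, i ≠ j → ¬ Ab b L (p i) (p j) := by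
    intro i j hij
    have : ∀ i j : Fin 3, i ≠ j → ∃ k, i ≠ k ∧ j ≠ k := by decide
    obtain ⟨k, hk1, hk2⟩ := this i j hij
    refine h.swap.nabP (i := k) ?_ hk1 hk2 hij
    rcases fin3_u k with rfl | rfl | rfl <;> omega
  have nL' : ∀ i j : Fin 3, i ≠ j → ¬ Ab b L (q i) (q j) := by
    intro i j hij
    have : ∀ i j : Fin 3, i ≠ j → ∃ k, i ≠ k ∧ j ≠ k := by decide
    obtain ⟨k, hk1, hk2⟩ := this i j hij
    refine h.swap.flip.nabP (i := k) ?_ hk1 hk2 hij
    rcases fin3_u k with rfl | rfl | rfl <;> omega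
  have dL : ∀ i j, 2 ≤ (BK b L (p i)).card ∧ 2 ≤ (BK b L (q j)).card := by
    intro i j
    unfold df at p0' p1' p2' q0' q1' q2'
    constructor
    · rcases fin3_u i with rfl | rfl | rfl <;> omega
    · rcases fin3_u j with rfl | rfl | rfl <;> omega
  have h3p : (BK b L (p 0)).card = 3 := p0'
  have h3q : (BK b L (q 0)).card = 3 := q0'
  -- degrees of the mixed groups
  have g1 : ∀ j, 4 ≤ dg b {p 0, q j} L := by
    intro j
    have h1 := h.swap.dg_two_one (p_Fs 0) (q_Fs j) (h.pq 0 j) hn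
    have := (dL 0 j).2
    omega
  have g2 : ∀ i, 4 ≤ dg b {q 0, p i} L := by
    intro i
    have h1 := h.swap.dg_two_one (q_Fs 0) (p_Fs i) (h.pq i 0).symm hn
    have := (dL i 0).1
    omega
  have c10 : ∀ i i' : Fin 3, i ≠ 0 → i' ≠ 0 → i ≠ i' → Ab b L (p i) (q 0) := by
    intro i i' hi hi' hii
    by_contra hcon
    have d1 : 4 ≤ dg b {p 0, p i} L := by
      have : Disjoint (BK b L (p 0)) (BK b L (p i)) := by
        refine h.swap.disjP (i := i') ?_ hi'.symm hii hi.symm
        rcases fin3_u i' with rfl | rfl | rfl <;> omega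
      rw [dg_two, card_union_of_disjoint this]
      have := (dL i 0).1
      omega
    have h4 := h.swap.cap hKP (G := {p 0, p i}) (H := {q 0, p i'}) (a := 4) (c := 4)
      (sub_Fs2 (p_Fs _) (p_Fs _)) (sub_Fs2 (q_Fs _) (p_Fs _))
      (disj22 (h.pq 0 0) (h.pne hi'.symm) (h.pq i 0) (h.pne hii)) (by omega) (by omega) d1 (g2 i')
      (all22 a00 (nL 0 i' hi'.symm) hcon (nL i i' hii))
    rw [hcv, hL] at h4
    omega
  have c01 : ∀ i i' : Fin 3, i ≠ 0 → i' ≠ 0 → i ≠ i' → Ab b L (p 0) (q i) := by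
    intro i i' hi hi' hii
    by_contra hcon
    have d1 : 4 ≤ dg b {q 0, q i} L := by
      have : Disjoint (BK b L (q 0)) (BK b L (q i)) := by
        refine h.swap.flip.disjP (i := i') ?_ hi'.symm hii hi.symm
        rcases fin3_u i' with rfl | rfl | rfl <;> omega
      rw [dg_two, card_union_of_disjoint this]
      have := (dL 0 i).2
      omega
    have h4 := h.swap.cap hKP (G := {q 0, q i}) (H := {p 0, q i'}) (a := 4) (c := 4)
      (sub_Fs2 (q_Fs _) (q_Fs _)) (sub_Fs2 (p_Fs _) (q_Fs _))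
      (disj22 (h.pq 0 0).symm (fun h5 => hi'.symm (h.qinj h5)) (h.pq 0 i).symm
        (fun h5 => hii (h.qinj h5))) (by omega) (by omega) d1 (g1 i')
      (all22 (fun h5 => a00 h5.symm) (nL' 0 i' hi'.symm) (fun h5 => hcon h5.symm) (nL' i i' hii))
    rw [hcv, hL] at h4
    omega
  have cc : ∀ i j : Fin 3, i ≠ 0 → j ≠ 0 → Ab b L (p i) (q j) := by
    intro i j hi hj
    by_contra hcon
    have h4 := h.swap.cap hKP (G := {p 0, q j}) (H := {q 0, p i}) (a := 4) (c := 4)
      (sub_Fs2 (p_Fs _) (q_Fs _)) (sub_Fs2 (q_Fs _) (p_Fs _))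
      (disj22 (h.pq 0 0) (h.pne hi.symm) (fun h5 => hj (h.qinj h5)) (h.pq i j).symm)
      (by omega) (by omega) (g1 j) (g2 i)
      (all22 a00 (nL 0 i hi.symm) (nL' j 0 hj) (fun h5 => hcon h5.symm))
    rw [hcv, hL] at h4
    omega
  -- the group rule
  have e34 : cpv 3 4 = 6 := by decide
  have e22 : cpv 2 2 = 4 := by decide
  have dpL : 4 ≤ dg b {p 1, p 2} L := by
    have h2 := h.swap.le_two 0
    unfold D2 at h2
    rw [if_pos (by omega)] at h2
    have e1 : (0 : Fin 3) + 1 = 1 := rfl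
    have e2 : (0 : Fin 3) + 2 = 2 := rfl
    rw [e1, e2] at h2
    omega
  have dqL : 4 ≤ dg b {q 1, q 2} L := by
    have h2 := h.flip.swap.le_two 0
    unfold D2 at h2
    rw [if_pos (by omega)] at h2
    have e1 : (0 : Fin 3) + 1 = 1 := rfl
    have e2 : (0 : Fin 3) + 2 = 2 := rfl
    rw [e1, e2] at h2
    omega
  have ex2 : ∀ j : Fin 3, ∃ j' j'' : Fin 3, j' ≠ j'' ∧ j' ≠ j ∧ j'' ≠ j := by decide
  have hb : ∀ j, ¬ (Ab b K (p 1) (q j) ∧ Ab b K (p 2) (q j)) := by
    rintro j ⟨h1, h2⟩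
    obtain ⟨j', j'', k1, k2, k3⟩ := ex2 j
    have h3 := h.ga hKP (i := 0) (i' := 1) (i'' := 2) (j := j') (j' := j'') (j'' := j) (by decide)
      (by decide) (by decide) k1 k2 k3 h1 h2 (a := 3) (c := 4)
      (a' := 2) (c' := 2) (by omega) (by omega) (by omega) (by omega) (by omega) dpL
      (dL 0 j').2 (dL 0 j'').2
    rw [hL, e34, e22] at h3
    omega
  have hb' : ∀ i, ¬ (Ab b K (p i) (q 1) ∧ Ab b K (p i) (q 2)) := by
    rintro i ⟨h1, h2⟩
    obtain ⟨j', j'', k1, k2, k3⟩ := ex2 i
    have h3 := h.flip.ga hKP (i := 0) (i' := 1) (i'' := 2) (j := j') (j' := j'') (j'' := i)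
      (by decide) (by decide) (by decide) k1 k2 k3 h1.symm h2.symm (a := 3) (c := 4)
      (a' := 2) (c' := 2) (by omega) (by omega) (by omega) (by omega) (by omega) dqL
      (dL j' 0).1 (dL j'' 0).1
    rw [hL, e34, e22] at h3
    omega
  have e42 : cpv 4 2 = 5 := by decide
  have dpK : 4 ≤ dg b {p 1, p 2} K := by
    have h2 := h.le_two 0
    unfold D2 at h2
    rw [if_pos (by omega)] at h2
    have e1 : (0 : Fin 3) + 1 = 1 := rfl
    have e2 : (0 : Fin 3) + 2 = 2 := rfl
    rw [e1, e2] at h2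
    omega
  have hor : ∀ j : Fin 3, j ≠ 0 → Ab b K (p 1) (q j) ∨ Ab b K (p 2) (q j) := by
    intro j hj
    by_contra hcon
    rw [not_or] at hcon
    have h3 := h.cap hKP (G := {p 1, p 2}) (H := {q j}) (a := 4) (c := 2)
      (sub_Fs2 (p_Fs 1) (p_Fs 2)) (singleton_subset_iff.mpr (q_Fs j))
      (by
        rw [disjoint_singleton_right, mem_insert, mem_singleton, not_or]
        exact ⟨(h.pq 1 j).symm, (h.pq 2 j).symm⟩) (by omega)
      (by omega) dpK
      (by
        rw [dg_one]
        unfold df at q1 q2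
        rcases fin3_u j with rfl | rfl | rfl
        · exact absurd rfl hj
        · omega
        · omega)
      (by
        intro x hx y hy
        rw [mem_singleton.mp hy]
        rw [mem_insert, mem_singleton] at hx
        rcases hx with rfl | rfl
        · exact hcon.1
        · exact hcon.2)
    rw [e42, hK] at h3
    omega
  rcases hor 1 (by decide) with h1 | h1
  · have h2 : Ab b K (p 2) (q 2) := by
      rcases hor 2 (by decide) with h2 | h2
      · exact absurd ⟨h1, h2⟩ (hb' 1)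
      · exact h2
    exact h.ccL_aux hKP hK p0 p1 p2 q0 (by omega) (by omega) (by omega)
      (cc 2 2 (by decide) (by decide)) (c01 2 1 (by decide) (by decide) (by decide))
      (c01 1 2 (by decide) (by decide) (by decide)) (hb 0) h1 h2
  · have h2 : Ab b K (p 1) (q 2) := by
      rcases hor 2 (by decide) with h2 | h2
      · exact h2
      · exact absurd ⟨h1, h2⟩ (hb' 2)
    have h3 := h.perm (Equiv.refl _) (Equiv.swap 1 2)
    exact h3.ccL_aux hKP hK p0 p1 p2 q0 (lt_of_lt_of_le (by omega) p0'.ge)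
      (lt_of_lt_of_le (by omega) p1'.ge) (lt_of_lt_of_le (by omega) p2'.ge)
      (cc 2 1 (by decide) (by decide)) (c01 1 2 (by decide) (by decide) (by decide))
      (c01 2 1 (by decide) (by decide) (by decide)) (hb 0) h2 h1

/-- Pattern `(2,2,2)`, `(2,2,2)`. -/
theorem D0.aa (h : D0 b V K L p q i0 j0) (hKP : KP) (hL : eX b V L = 2) (hK : eX b V K = 2)
    (hp : ∀ i, df b K p i = 2) (hq : ∀ i, df b K q i = 2) (hp' : ∀ i, df b L p i = 2)
    (hq' : ∀ i, df b L q i = 2) (hn : nk b K 1 ≤ 5) : False := by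
  have e24 : cpv 2 4 = 5 := by decide
  have e22 : cpv 2 2 = 4 := by decide
  have e43 : cpv 4 3 = 6 := by decide
  have hga : ∀ j i i' : Fin 3, i ≠ i' → Ab b K (p i) (q j) → Ab b K (p i') (q j) → False := by
    intro j i' i'' hii h1 h2
    have ex2 : ∀ j : Fin 3, ∃ j' j'' : Fin 3, j' ≠ j'' ∧ j' ≠ j ∧ j'' ≠ j := by decide
    have ex1 : ∀ i j : Fin 3, i ≠ j → ∃ k, k ≠ i ∧ k ≠ j := by decide
    obtain ⟨j', j'', k1, k2, k3⟩ := ex2 j
    obtain ⟨i, k4, k5⟩ := ex1 i' i'' hii
    have h3 := h.ga hKP (i := i) (i' := i') (i'' := i'') (j := j') (j' := j'') (j'' := j)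
      k4 k5 hii k1 k2 k3 h1 h2 (a := 2) (c := 4)
      (a' := 2) (c' := 2) (by omega) (by omega) (by omega) (by omega) (by rw [hp'])
      (by
        have : Disjoint (BK b L (p i')) (BK b L (p i'')) := by
          refine h.swap.disjP (i := i) ?_ k4.symm k5.symm hii
          rw [hp]
          omega
        rw [dg_two, card_union_of_disjoint this]
        have e1 := hp' i'
        have e2 := hp' i''
        unfold df at e1 e2
        omega)
      (by rw [hq']) (by rw [hq'])
    rw [hL, e24, e22] at h3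
    omega
  have key : ∀ j, ∃ i, BK b K (q j) ⊆ BK b K (p i) := by
    intro j
    have h1 : ∃ i, ∀ i', i' ≠ i → ¬ Ab b K (p i') (q j) := by
      by_cases h2 : ∃ i, Ab b K (p i) (q j)
      · obtain ⟨i, hi⟩ := h2
        exact ⟨i, fun i' hi' h3 => hga j i' i hi' h3 hi⟩
      · exact ⟨0, fun i' _ h3 => h2 ⟨i', h3⟩⟩
    obtain ⟨i, hi⟩ := h1
    refine ⟨i, ?_⟩
    have h2 : dg b {p i, q j} K ≤ 2 := by
      by_contra hcon
      have h3 := h.cap hKP (G := {p (i + 1), p (i + 2)}) (H := {p i, q j}) (a := 4) (c := 3)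
        (sub_Fs2 (p_Fs _) (p_Fs _)) (sub_Fs2 (p_Fs _) (q_Fs _))
        (disj22 (h.pne (fin3_ne1 i)) (h.pq _ _) (h.pne (fin3_ne2 i)) (h.pq _ _)) (by omega)
        (by omega)
        (by
          have h2 := h.le_two i
          unfold D2 at h2
          rw [if_pos (by rw [hp']; omega), hp, hp] at h2
          omega) (by omega)
        (all22 (h.nabP (i := i + 2) (by rw [hp']; omega) (fin3_ne3 i) (fin3_ne2 i).symm
            (fin3_ne1 i)) (hi _ (fin3_ne1 i))
          (h.nabP (i := i + 1) (by rw [hp']; omega) (fin3_ne3 i).symm (fin3_ne1 i).symm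
            (fin3_ne2 i)) (hi _ (fin3_ne2 i)))
      rw [e43, hK] at h3
      omega
    rw [dg_two] at h2
    have h3 : BK b K (p i) ∪ BK b K (q j) = BK b K (p i) := by
      refine (eq_of_subset_of_card_le subset_union_left ?_).symm
      have := hp i
      unfold df at this
      omega
    rw [← h3]
    exact subset_union_right
  have h1 := h.flip.union3 (by rw [hq']; omega) (by rw [hq']; omega) (by rw [hq']; omega)
  rw [hq, hq, hq] at h1
  have h2 : BK b K (q 0) ∪ (BK b K (q 1) ∪ BK b K (q 2)) ⊆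
      univ.filter fun i => (b i ∩ K).card = 1 := by
    intro m hm
    have h3 : ∃ j, m ∈ BK b K (q j) := by
      rw [mem_union, mem_union] at hm
      rcases hm with hm | hm | hm
      · exact ⟨0, hm⟩
      · exact ⟨1, hm⟩
      · exact ⟨2, hm⟩
    obtain ⟨j, hj⟩ := h3
    obtain ⟨i, hi⟩ := key j
    exact mem_filter.mpr ⟨mem_univ m, h.one_pt (p_Fs i) (q_Fs j) (h.pq i j) (hi hj) hj⟩
  have h3 := card_le_card h2
  unfold nk at hn
  omega

end Pool.Agent.Helper20.C5
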