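import Pool.Agent.Helper20.C5.Di

/-!
# Double cuts with two components: no inner blocks, `B = 4`
-/

set_option linter.unusedSectionVars false

open Finset

namespace Pool.Agent.Helper20.C5

open Pool.Agent.Helper74.C5

variable {α ι : Type} [DecidableEq α] [DecidableEq ι] [Fintype ι]
variable {b : ι → Finset α} {V K L : Finset α} {p q : Fin 3 → α} {i0 j0 : ι}

/-- The small blocks of a minimal counterexample with `e* = -2`. -/
def Smb (b : ι → Finset α) (V : Finset α) : Prop :=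
  (sp b V = ∅ ∧ 2 * nk b V 1 + nk b V 2 ≤ 2) ∨ ((sp b V).card = 1 ∧ nk b V 1 = 2 ∧ nk b V 2 = 0)

theorem D0.tlc (h : D0 b V K L p q i0 j0) (hm : Smb b V) :
    ((sp b V ∩ K).card = 0 ∧ tl b V K ≤ 2) ∨ ((sp b V ∩ K).card = 1 ∧ tl b V K = 4) := by
  have h1 := tl_le h.sys h.KV
  rcases hm with ⟨h2, h3⟩ | ⟨h2, h3, h4⟩
  · left
    rw [h2, empty_inter, card_empty]
    exact ⟨rfl, by omega⟩
  · obtain ⟨z, hz⟩ := card_eq_one.mp h2
    by_cases h5 : z ∈ K
    · right
      constructor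
      · rw [hz, inter_comm, inter_singleton_of_mem h5, card_singleton]
      · have h6 := tl_ge h.KV (z := z) (by rw [hz]; exact mem_singleton_self z) h5
        omega
    · left
      constructor
      · rw [hz, inter_comm, inter_singleton_of_notMem h5, card_empty]
      · have h6 := tl_zero h.sys h3 h4 h.KV (z := z) (by rw [hz]; exact mem_singleton_self z) h5
        omega

theorem D0.num1 (h : D0 b V K L p q i0 j0) (hKP : KP) (hm : Smb b V) (hf : nk b K 3 = 0)
    (he : eX b V K = 1) : ((∃ k, K = {k}) ∧ 8 ≤ sl b K p q) ∨ sl b K p q = 8 := by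
  have h1 := h.eX_eq hKP
  have h2 := h.slots
  obtain ⟨h3, h4⟩ := ff_num (h.sys.mono h.KV) h.tfK hf rfl
  rcases h.tlc hm with ⟨h5, h6⟩ | ⟨h5, h6⟩
  · left
    refine ⟨card_eq_one.mp ?_, ?_⟩ <;> omega
  · right
    omega

theorem D0.num2 (h : D0 b V K L p q i0 j0) (hKP : KP) (hm : Smb b V) (hf : nk b K 3 = 0)
    (he : eX b V K = 2) : nk b K 1 ≤ 5 := by
  have h1 := h.eX_eq hKP
  obtain ⟨h3, h4⟩ := ff_num (h.sys.mono h.KV) h.tfK hf rfl
  rcases h.tlc hm with ⟨h5, h6⟩ | ⟨h5, h6⟩ <;> omega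

theorem D0.num3 (h : D0 b V K L p q i0 j0) (hKP : KP) (hm : Smb b V) (hf : nk b K 3 = 0)
    (he : eX b V K = 3) : (nk b K 1 ≤ 1 ∧ sl b K p q ≤ 14) ∨ sl b K p q = 11 := by
  have h1 := h.eX_eq hKP
  have h2 := h.slots
  obtain ⟨h3, h4⟩ := ff_num (h.sys.mono h.KV) h.tfK hf rfl
  rcases h.tlc hm with ⟨h5, h6⟩ | ⟨h5, h6⟩
  · left
    constructor <;> omega
  · right
    omega

theorem D0.dead13 (h : D0 b V K L p q i0 j0) (hKP : KP) (h0 : kbs b V K L i0 j0 = ∅)
    (hK : eX b V K = 1) (hL : eX b V L = 3) (hm : Smb b V) (hs : nk b K 3 = 0 ∨ nk b L 3 = 0)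
    (s1 : df b K p 0 ≤ df b K p 1) (s2 : df b K p 1 ≤ df b K p 2)
    (s3 : df b K q 0 ≤ df b K q 1) (s4 : df b K q 1 ≤ df b K q 2) : False := by
  have t : ∀ i, df b K p i + df b L p i = 4 := by
    intro i
    have := h.tot i
    rw [h0, filter_empty, card_empty] at this
    exact this
  have s : ∀ i, df b K q i + df b L q i = 4 := by
    intro i
    have := h.totq i
    rw [h0, filter_empty, card_empty] at this
    exact this
  have h1 := nc4_1
  rw [← hK, ← hL] at h1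
  have h2 := h.crs hKP (t 0) (t 1) (t 2) (s 0) (s 1) (s 2) h1
  have t0 := t 0
  have t1 := t 1
  have t2 := t 2
  have s0' := s 0
  have s1' := s 1
  have s2' := s 2
  unfold ex13 so sm l13 at h2
  simp only [Bool.or_eq_true, Bool.not_eq_true', Bool.and_eq_false_iff, decide_eq_false_iff_not,
    decide_eq_true_eq, List.mem_cons, Prod.mk.injEq, List.not_mem_nil, or_false] at h2
  have hsum : sl b K p q + sl b L p q = 24 := by
    unfold sl
    omega
  have hsl : sl b K p q = df b K p 0 + df b K p 1 + df b K p 2 +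
      (df b K q 0 + df b K q 1 + df b K q 2) := rfl
  rcases hs with hs | hs
  · have h3 := h.num1 hKP hm hs hK
    rcases h2 with ((h2 | h2) | h2) | h2
    · omega
    · omega
    · omega
    · have h4 : ∃ k, K = {k} := by
        rcases h3 with h3 | h3
        · exact h3.1
        · omega
      obtain ⟨k, hk⟩ := h4
      rcases h2 with ⟨⟨a1, a2, a3⟩, a4, a5, a6⟩ | ⟨⟨a1, a2, a3⟩, a4, a5, a6⟩ |
        ⟨⟨a1, a2, a3⟩, a4, a5, a6⟩ | ⟨⟨a1, a2, a3⟩, a4, a5, a6⟩ | ⟨⟨a1, a2, a3⟩, a4, a5, a6⟩ |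
        ⟨⟨a1, a2, a3⟩, a4, a5, a6⟩ | ⟨⟨a1, a2, a3⟩, a4, a5, a6⟩
      · exact h.flip.cf hKP hL hK a5 a6 a2 a3 (by omega) (by omega) (by omega) (by omega)
      · exact h.cf hKP hL hK a2 a3 a5 a6 (by omega) (by omega) (by omega) (by omega)
      · exact h.flip.bg hKP hL hk a6 a2 a3 (by omega) (by omega) (by omega) (by omega)
      · exact h.bg hKP hL hk a3 a5 a6 (by omega) (by omega) (by omega) (by omega)
      · exact h.flip.cgK hKP hL hk a4 a5 a6 a3 (by omega) (by omega) (by omega) (by omega)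
          (by omega)
      · exact h.cgK hKP hL hk a1 a2 a3 a6 (by omega) (by omega) (by omega) (by omega)
          (by omega)
      · exact h.ccK hKP hL hk a1 a2 a3 a5 a6 (by omega) (by omega) (by omega) (by omega)
          (by omega) (by omega)
  · have h3 := h.swap.num3 hKP hm hs hL
    rcases h2 with ((h2 | h2) | h2) | h2
    · omega
    · omega
    · omega
    · rcases h2 with ⟨⟨a1, a2, a3⟩, a4, a5, a6⟩ | ⟨⟨a1, a2, a3⟩, a4, a5, a6⟩ |
        ⟨⟨a1, a2, a3⟩, a4, a5, a6⟩ | ⟨⟨a1, a2, a3⟩, a4, a5, a6⟩ | ⟨⟨a1, a2, a3⟩, a4, a5, a6⟩ |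
        ⟨⟨a1, a2, a3⟩, a4, a5, a6⟩ | ⟨⟨a1, a2, a3⟩, a4, a5, a6⟩
      · omega
      · omega
      · omega
      · omega
      · exact h.flip.cgL hKP hL hK a5 a6 a2 a3 (by omega) (by omega) (by omega) (by omega)
      · exact h.cgL hKP hL hK a2 a3 a5 a6 (by omega) (by omega) (by omega) (by omega)
      · exact h.ccL hKP hL hK a1 a2 a3 a4 a5 a6 (by omega) (by omega) (by omega) (by omega)
          (by omega) (by omega) (by omega)

theorem D0.dead04 (h : D0 b V K L p q i0 j0) (hKP : KP) (h0 : kbs b V K L i0 j0 = ∅)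
    (hK : eX b V K = 0) (hL : eX b V L = 4) : False := by
  have t : ∀ i, df b K p i + df b L p i = 4 := by
    intro i
    have := h.tot i
    rw [h0, filter_empty, card_empty] at this
    exact this
  have s : ∀ i, df b K q i + df b L q i = 4 := by
    intro i
    have := h.totq i
    rw [h0, filter_empty, card_empty] at this
    exact this
  have h1 : C5.crs 4 4 4 4 4 4 (eX b V K) (eX b V L) (pts 4 4 4 (eX b V K) (eX b V L))
      (pts 4 4 4 (eX b V K) (eX b V L)) (fun _ _ => false) = true := by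
    rw [hK, hL]
    exact nc4_0
  exact Bool.noConfusion (h.crs hKP (t 0) (t 1) (t 2) (s 0) (s 1) (s 2) h1)

theorem D0.dead22 (h : D0 b V K L p q i0 j0) (hKP : KP) (h0 : kbs b V K L i0 j0 = ∅)
    (hK : eX b V K = 2) (hL : eX b V L = 2) (hm : Smb b V) (hs : nk b K 3 = 0)
    (s1 : df b K p 0 ≤ df b K p 1) (s2 : df b K p 1 ≤ df b K p 2)
    (s3 : df b K q 0 ≤ df b K q 1) (s4 : df b K q 1 ≤ df b K q 2) : False := by
  have t : ∀ i, df b K p i + df b L p i = 4 := by
    intro i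
    have := h.tot i
    rw [h0, filter_empty, card_empty] at this
    exact this
  have s : ∀ i, df b K q i + df b L q i = 4 := by
    intro i
    have := h.totq i
    rw [h0, filter_empty, card_empty] at this
    exact this
  have h1 : C5.crs 4 4 4 4 4 4 (eX b V K) (eX b V L) (pts 4 4 4 (eX b V K) (eX b V L))
      (pts 4 4 4 (eX b V K) (eX b V L)) ex22 = true := by
    rw [hK, hL]
    exact nc4_2
  have h2 := h.crs hKP (t 0) (t 1) (t 2) (s 0) (s 1) (s 2) h1
  have t0 := t 0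
  have t1 := t 1
  have t2 := t 2
  have s0' := s 0
  have s1' := s 1
  have s2' := s 2
  unfold ex22 so at h2
  simp only [Bool.or_eq_true, Bool.not_eq_true', Bool.and_eq_false_iff, decide_eq_false_iff_not,
    decide_eq_true_eq, Prod.mk.injEq] at h2
  rcases h2 with (h2 | h2) | ⟨⟨a1, a2, a3⟩, a4, a5, a6⟩
  · omega
  · omega
  · refine h.aa hKP hL hK ?_ ?_ ?_ ?_ (h.num2 hKP hm hs hK) <;>
    · intro i
      rcases fin3_u i with rfl | rfl | rfl <;> omega

theorem exists_sort (f : Fin 3 → ℕ) : ∃ σ : Equiv.Perm (Fin 3), f (σ 0) ≤ f (σ 1) ∧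
    f (σ 1) ≤ f (σ 2) := by
  have h1 := Tuple.monotone_sort f
  exact ⟨Tuple.sort f, h1 (by decide), h1 (by decide)⟩

/-- **No inner blocks**, `B = 4`. -/
theorem D0.dead4 (h : D0 b V K L p q i0 j0) (hKP : KP) (h0 : kbs b V K L i0 j0 = ∅)
    (hB : eX b V K + eX b V L = 4) (hm : Smb b V) (hs : nk b K 3 = 0 ∨ nk b L 3 = 0) :
    False := by
  have h0' : kbs b V L K i0 j0 = ∅ := by
    rw [kbs_swap]
    exact h0
  have h5 : eX b V K = 0 ∨ eX b V K = 1 ∨ eX b V K = 2 ∨ eX b V K = 3 ∨ eX b V K = 4 := by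
    omega
  rcases h5 with h5 | h5 | h5 | h5 | h5
  · exact h.dead04 hKP h0 h5 (by omega)
  · obtain ⟨σ, k1, k2⟩ := exists_sort (df b K p)
    obtain ⟨τ, k3, k4⟩ := exists_sort (df b K q)
    exact (h.perm σ τ).dead13 hKP h0 h5 (by omega) hm hs k1 k2 k3 k4
  · rcases hs with hs | hs
    · obtain ⟨σ, k1, k2⟩ := exists_sort (df b K p)
      obtain ⟨τ, k3, k4⟩ := exists_sort (df b K q)
      exact (h.perm σ τ).dead22 hKP h0 h5 (by omega) hm hs k1 k2 k3 k4
    · obtain ⟨σ, k1, k2⟩ := exists_sort (df b L p)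
      obtain ⟨τ, k3, k4⟩ := exists_sort (df b L q)
      exact (h.swap.perm σ τ).dead22 hKP h0' (by omega) h5 hm hs k1 k2 k3 k4
  · obtain ⟨σ, k1, k2⟩ := exists_sort (df b L p)
    obtain ⟨τ, k3, k4⟩ := exists_sort (df b L q)
    exact (h.swap.perm σ τ).dead13 hKP h0' (by omega) h5 hm hs.symm k1 k2 k3 k4
  · exact h.swap.dead04 hKP h0' (by omega) h5

end Pool.Agent.Helper20.C5
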