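import Pool.Agent.Helper20.C5.Dj
import Pool.Agent.Helper74.C5.D1a

/-!
# Double cuts with two components: construction and the final contradiction
-/

set_option linter.unusedSectionVars false

open Finset

namespace Pool.Agent.Helper20.C5

open Pool.Agent.Helper74.C5

variable {α ι : Type} [DecidableEq α] [DecidableEq ι] [Fintype ι]
variable {b : ι → Finset α} {V U K L : Finset α} {p q : Fin 3 → α} {i0 j0 : ι}

theorem exists_fin3 {S : Finset α} (h : S.card = 3) :
    ∃ p : Fin 3 → α, Function.Injective p ∧ S = univ.image p := by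
  refine ⟨fun i => ((S.equivFinOfCardEq h).symm i : α), ?_, ?_⟩
  · intro i j hij
    exact (S.equivFinOfCardEq h).symm.injective (Subtype.ext hij)
  · ext x
    rw [mem_image]
    constructor
    · intro hx
      refine ⟨S.equivFinOfCardEq h ⟨x, hx⟩, mem_univ _, ?_⟩
      rw [Equiv.symm_apply_apply]
    · rintro ⟨i, -, rfl⟩
      exact ((S.equivFinOfCardEq h).symm i).2

/-- All the points outside of `U` are points of the two faces. -/
theorem DV.out (h : DV b V U i0 j0 0) {x : α} (hx : x ∈ V) (hxU : x ∉ U) :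
    x ∈ b i0 ∩ V ∨ x ∈ b j0 ∩ V := by
  have h1 : (b i0 ∩ V) ∪ (b j0 ∩ V) = V \ U := by
    apply eq_of_subset_of_card_le (union_subset h.subP h.subQ)
    rw [card_union_of_disjoint h.pq, h.p3, h.q3, h.scard]
  have h2 : x ∈ (b i0 ∩ V) ∪ (b j0 ∩ V) := by
    rw [h1]
    exact mem_sdiff.mpr ⟨hx, hxU⟩
  exact mem_union.mp h2

/-- The two components. -/
theorem DV.two (h : DV b V U i0 j0 0) (hK : K ∈ cps b U) :
    ∃ L, L ≠ K ∧ L ∈ cps b U ∧ cps b U = {K, L} := by
  have h1 := h.num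
  have h2 : ((cps b U).erase K).card = 1 := by
    rw [card_erase_of_mem hK]
    omega
  obtain ⟨L, hL⟩ := card_eq_one.mp h2
  have h3 : L ∈ (cps b U).erase K := by
    rw [hL]
    exact mem_singleton_self L
  obtain ⟨h4, h5⟩ := mem_erase.mp h3
  refine ⟨L, h4, h5, ?_⟩
  rw [← insert_erase hK, hL]

theorem DV.in_two (_h : DV b V U i0 j0 0) (h2 : cps b U = {K, L}) {x : α} (hx : x ∈ U) :
    x ∈ K ∨ x ∈ L := by
  have h1 : Cmp b U x ∈ cps b U := mem_cps.mpr ⟨x, hx, rfl⟩
  have h3 := self_Cmp (b := b) hx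
  rw [h2, mem_insert, mem_singleton] at h1
  rcases h1 with h1 | h1
  · left
    rw [← h1]
    exact h3
  · right
    rw [← h1]
    exact h3

theorem DV.att (h : DV b V U i0 j0 0) {C : Finset α} (hC : C ∈ cps b U)
    (hP : b i0 ∩ V = univ.image p) (v : Fin 3) : ∃ i, i ≠ v ∧ Aj b (p i) C := by
  obtain ⟨x, hx, hxj, hxv, hxC⟩ := h.attP C hC (p v)
  rw [mem_sdiff] at hx
  rcases DV.out h hx.1 hx.2 with h1 | h1
  · rw [hP] at h1
    obtain ⟨i, -, rfl⟩ := mem_image.mp h1
    exact ⟨i, fun h2 => hxv (h2 ▸ rfl), hxC⟩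
  · exact absurd (mem_inter.mp h1).1 hxj

/-- The data of a double cut with two components. -/
theorem DV.d0 (h : DV b V U i0 j0 0) (hMC : MC b V) (hKP : KP) (hFM : FM)
    (he : ee b V - ((sp b V).card : ℤ) ≤ -2) (hK : K ∈ cps b U) :
    ∃ L p q, D0 b V K L p q i0 j0 ∧ U = K ∪ L ∧ cps b U = {K, L} ∧ K ≠ L := by
  obtain ⟨L, hne, hL, h2⟩ := DV.two h hK
  obtain ⟨p, hp, hP⟩ := exists_fin3 h.p3
  obtain ⟨q, hq, hQ⟩ := exists_fin3 h.q3
  have hsys := hMC.sys
  have hcb := hsys.cb
  have hpP : ∀ i, p i ∈ b i0 ∩ V := fun i => by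
    rw [hP]
    exact mem_image_of_mem p (mem_univ i)
  have hqQ : ∀ i, q i ∈ b j0 ∩ V := fun i => by
    rw [hQ]
    exact mem_image_of_mem q (mem_univ i)
  have hpU : ∀ i, p i ∉ U := fun i h3 => (mem_sdiff.mp (h.subP (hpP i))).2 h3
  have hqU : ∀ i, q i ∉ U := fun i h3 => (mem_sdiff.mp (h.subQ (hqQ i))).2 h3
  have hUKL : U = K ∪ L := by
    ext x
    rw [mem_union]
    constructor
    · exact DV.in_two h h2
    · rintro (h3 | h3)
      · exact cps_sub hK h3
      · exact cps_sub hL h3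
  refine ⟨L, p, q, ?_, hUKL, h2, hne.symm⟩
  exact {
    sys := hsys
    hP := hP
    hQ := hQ
    pinj := hp
    qinj := hq
    pq := fun i j h3 => (disjoint_left.mp h.pq) (hpP i) (h3 ▸ hqQ j)
    KV := (cps_sub hK).trans h.sub
    LV := (cps_sub hL).trans h.sub
    pK := fun i h3 => hpU i (cps_sub hK h3)
    pL := fun i h3 => hpU i (cps_sub hL h3)
    qK := fun i h3 => hqU i (cps_sub hK h3)
    qL := fun i h3 => hqU i (cps_sub hL h3)
    KL := by
      intro i x hx y hy hxi hyi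
      refine cps_sep hK i x hx y (mem_sdiff.mpr ⟨cps_sub hL hy, ?_⟩) hxi hyi
      exact fun h3 => (disjoint_left.mp (cps_disj hL hK hne)) hy h3
    cov := by
      intro x hx
      by_cases hxU : x ∈ U
      · rcases DV.in_two h h2 hxU with h3 | h3
        · exact Or.inl h3
        · exact Or.inr (Or.inl h3)
      · rcases DV.out h hx hxU with h3 | h3
        · rw [hP] at h3
          obtain ⟨i, -, hi⟩ := mem_image.mp h3
          exact Or.inr (Or.inr (Or.inl ⟨i, hi.symm⟩))
        · rw [hQ] at h3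
          obtain ⟨i, -, hi⟩ := mem_image.mp h3
          exact Or.inr (Or.inr (Or.inr ⟨i, hi.symm⟩))
    neK := cps_ne hK
    neL := cps_ne hL
    conK := cps_con hK
    conL := cps_con hL
    vcK := h.typ K hK
    vcL := h.typ L hL
    tfK := h.tf K hK
    tfL := h.tf L hL
    tt := by
      have h3 := tau_cps (hcb.mono h.sub)
      rw [h2, sum_pair hne.symm] at h3
      have h4 := h.tt
      omega
    aPK := DV.att h hK hP
    aPL := DV.att h hL hP
    aQK := DV.att h.symm hK hQ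
    aQL := DV.att h.symm hL hQ
    uq := fun i j hi hj hji => hMC.unique hKP hFM he hi hj hji }

/-- The budget. -/
theorem DV.bud (h : DV b V U i0 j0 0) (hMC : MC b V) (hKP : KP) (hFM : FM)
    (he : ee b V - ((sp b V).card : ℤ) ≤ -2) (hD : D0 b V K L p q i0 j0) (hU : U = K ∪ L)
    (h2 : cps b U = {K, L}) (hne : K ≠ L) :
    ((eX b V K : ℕ) : ℤ) + eX b V L + 2 * (kbs b V K L i0 j0).card =
      ee b V - ((sp b V).card : ℤ) + 6 := by
  have h3 := h.sum hMC.sys
  rw [h2, sum_pair hne] at h3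
  have h4 := hD.ins_card
  rw [← hU] at h4
  have h5 := hD.eX_eq hKP
  have h6 := hD.swap.eX_eq hKP
  have h7 : (sp b V ∩ (V \ U)).card = 0 := by
    rw [hMC.nosp hKP hFM he h.p3, empty_inter, card_empty]
  rw [h7, h4] at h3
  push_cast at h3
  linarith

/-- The final contradiction. -/
theorem DV.dead (h : DV b V U i0 j0 0) (hMC : MC b V) (hKP : KP) (hFM : FM)
    (he : ee b V - ((sp b V).card : ℤ) ≤ -2) (hK : K ∈ cps b U) (hf : nk b K 3 = 0) : False := by
  obtain ⟨L, p, q, hD, hU, h2, hne⟩ := DV.d0 h hMC hKP hFM he hK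
  have h3 := DV.bud h hMC hKP hFM he hD hU h2 hne
  have h4 := (hMC.face hKP hFM he h.p3).2.2.1
  have h5 : (kbs b V K L i0 j0).card = 0 ∨ (kbs b V K L i0 j0).card = 1 ∨
      (kbs b V K L i0 j0).card = 2 := by omega
  rcases h5 with h5 | h5 | h5
  · have h6 := card_eq_zero.mp h5
    rw [h5] at h3
    push_cast at h3
    have h7 : ee b V - ((sp b V).card : ℤ) = -3 ∨ ee b V - ((sp b V).card : ℤ) = -2 := by omega
    rcases h7 with h7 | h7
    · exact hD.dead3 hKP h6 (by omega)
    · exact hD.dead4 hKP h6 (by omega) (Pool.Agent.Helper20.C5.MC.two hMC h7) (Or.inl hf)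
  · rw [h5] at h3
    push_cast at h3
    exact hD.dead1 hKP h5 (by omega)
  · rw [h5] at h3
    push_cast at h3
    exact hD.dead00 hKP h5 (by omega)

theorem dead0_aux (hMC : MC b V) (hKP : KP) (hFM : FM)
    (he : ee b V - ((sp b V).card : ℤ) ≤ -2)
    (hall : ∀ i0 j0 U k, DV b V U i0 j0 k → k = 0) : ∀ n, ∀ i0 j0 U K, K.card < n →
      DV b V U i0 j0 0 → K ∈ cps b U → False := by
  classical
  intro n
  induction n with
  | zero => exact fun _ _ _ _ h => absurd h (Nat.not_lt_zero _)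
  | succ n ih =>
    intro i0 j0 U K hn h hK
    by_cases hf : nk b K 3 = 0
    · exact DV.dead h hMC hKP hFM he hK hf
    obtain ⟨m, hm⟩ := card_pos.mp (Nat.pos_of_ne_zero hf)
    have hm3 := (mem_filter.mp hm).2
    have hKV := (cps_sub hK).trans h.sub
    have hsys := hMC.sys
    have hcb := hsys.cb
    have hmV : b m ∩ K = b m ∩ V := by
      apply eq_of_subset_of_card_le (inter_subset_inter_left hKV)
      rw [hm3]
      exact hsys.sz m
    have hm3' : (b m ∩ V).card = 3 := by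
      rw [← hmV]
      exact hm3
    have hd : Disjoint (b i0 ∩ V) (b m ∩ V) := by
      rw [disjoint_left]
      intro x hx hx2
      rw [← hmV] at hx2
      exact (mem_sdiff.mp (h.subP hx)).2 (cps_sub hK (mem_inter.mp hx2).2)
    obtain ⟨U', k', h', hk'⟩ := exists_DV hFM hsys hMC.tf (hMC.ring hKP hFM he h.p3)
      (hMC.ring hKP hFM he hm3') hd
    have hk0 := hall _ _ _ _ h'
    subst hk0
    have hU' := hk' rfl
    obtain ⟨L, hne, hL, h2⟩ := DV.two h hK
    -- the component of `Q`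
    obtain ⟨y, hy⟩ : (b j0 ∩ V).Nonempty := card_pos.mp (by rw [h.q3]; omega)
    have hQU : b j0 ∩ V ⊆ U' := by
      intro x hx
      rw [hU', mem_sdiff, mem_sdiff]
      refine ⟨⟨(mem_inter.mp hx).2, fun h3 => (disjoint_left.mp h.pq) h3 hx⟩, fun h3 => ?_⟩
      rw [← hmV] at h3
      exact (mem_sdiff.mp (h.subQ hx)).2 (cps_sub hK (mem_inter.mp h3).2)
    have hLU : L ⊆ U' := by
      intro x hx
      rw [hU', mem_sdiff, mem_sdiff]
      refine ⟨⟨h.sub (cps_sub hL hx), fun h3 => (mem_sdiff.mp (h.subP h3)).2 (cps_sub hL hx)⟩,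
        fun h3 => ?_⟩
      rw [← hmV] at h3
      exact (disjoint_left.mp (cps_disj hL hK hne)) hx (mem_inter.mp h3).2
    have hDc : Cmp b U' y ∈ cps b U' := mem_cps.mpr ⟨y, hQU hy, rfl⟩
    have hQD : b j0 ∩ V ⊆ Cmp b U' y := by
      intro x hx
      by_contra h3
      exact Cmp_sep j0 y (self_Cmp (hQU hy)) x (mem_sdiff.mpr ⟨hQU hx, h3⟩)
        (mem_inter.mp hy).1 (mem_inter.mp hx).1
    have hLD : L ⊆ Cmp b U' y := by
      obtain ⟨x, hx, hxi, -, i, hxm, c, hc, hcm⟩ := h.attQ L hL y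
      have hxQ : x ∈ b j0 ∩ V := by
        rw [mem_sdiff] at hx
        rcases DV.out h hx.1 hx.2 with h3 | h3
        · exact absurd (mem_inter.mp h3).1 hxi
        · exact h3
      have hcD : c ∈ Cmp b U' y := by
        by_contra h3
        exact Cmp_sep i x (hQD hxQ) c (mem_sdiff.mpr ⟨hLU hc, h3⟩) hxm hcm
      intro w hw
      by_contra h3
      obtain ⟨i', u, hu, huD, hui, w', hw', hw'D, hw'i⟩ :=
        Pool.Agent.Helper34.C5.con_exit (cps_con hL) hc hcD hw h3
      exact Cmp_sep i' u huD w' (mem_sdiff.mpr ⟨hLU hw', hw'D⟩) hui hw'i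
    obtain ⟨D, hDne, hD, -⟩ := DV.two h' hDc
    refine ih i0 m U' D ?_ h' hD
    have h3 : D ⊆ K \ (b m ∩ K) := by
      intro x hx
      have hxU := cps_sub hD hx
      rw [hU', mem_sdiff, mem_sdiff] at hxU
      have hxn : x ∉ Cmp b U' y := fun h4 => (disjoint_left.mp (cps_disj hD hDc hDne)) hx h4
      rw [mem_sdiff]
      refine ⟨?_, fun h4 => hxU.2 (by rw [← hmV]; exact h4)⟩
      by_cases h5 : x ∈ U
      · rcases DV.in_two h h2 h5 with h6 | h6
        · exact h6
        · exact absurd (hLD h6) hxn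
      · rcases DV.out h hxU.1.1 h5 with h6 | h6
        · exact absurd h6 hxU.1.2
        · exact absurd (hQD h6) hxn
    have h4 := card_le_card h3
    have h5 := card_sdiff_add_card_eq_card (inter_subset_right : b m ∩ K ⊆ K)
    omega

/-- **Double cuts with two components only**: contradiction. -/
theorem dead0 (hMC : MC b V) (hKP : KP) (hFM : FM)
    (he : ee b V - ((sp b V).card : ℤ) ≤ -2)
    (hall : ∀ i0 j0 U k, DV b V U i0 j0 k → k = 0) {i0 j0 : ι} {U : Finset α} {k : ℕ}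
    (h : DV b V U i0 j0 k) : False := by
  have hk := hall _ _ _ _ h
  subst hk
  have h1 := h.num
  obtain ⟨K, hK⟩ : (cps b U).Nonempty := card_pos.mp (by omega)
  exact dead0_aux hMC hKP hFM he hall (K.card + 1) i0 j0 U K (by omega) h hK

/-- There is a double cut. -/
theorem exists_double (hMC : MC b V) (hKP : KP) (hFM : FM)
    (he : ee b V - ((sp b V).card : ℤ) ≤ -2) : ∃ i0 j0 U k, DV b V U i0 j0 k := by
  have hsys := hMC.sys
  have n1 := ee_nk hsys
  have n2 := hMC.tf
  have n3 := two_sp_nk (b := b) (U := V)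
  have n4 := hMC.neg
  have n5 := nk_deg hsys
  unfold Pot at n4
  have h1 : 0 < nk b V 3 := by omega
  obtain ⟨i0, hi0⟩ := card_pos.mp h1
  have hi3 := (mem_filter.mp hi0).2
  have hR := hMC.ring hKP hFM he hi3
  obtain ⟨-, -, h2, h3⟩ := hMC.face hKP hFM he hi3
  rw [hMC.nosp hKP hFM he hi3, empty_inter, card_empty] at h3
  have hsp : (sp b V).card = 0 := by rw [hMC.nosp hKP hFM he hi3, card_empty]
  have h4 : 0 < nk b (V \ (b i0 ∩ V)) 3 := by
    by_contra h5
    obtain ⟨h6, h7⟩ := ff_num (hsys.mono sdiff_subset) hR.tf (by omega) rfl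
    have h8 := card_sdiff_add_card_eq_card (inter_subset_right : b i0 ∩ V ⊆ V)
    omega
  obtain ⟨j0, hj0⟩ := card_pos.mp h4
  have hj3 := (mem_filter.mp hj0).2
  have hjV : b j0 ∩ (V \ (b i0 ∩ V)) = b j0 ∩ V := by
    apply eq_of_subset_of_card_le (inter_subset_inter_left sdiff_subset)
    rw [hj3]
    exact hsys.sz j0
  have hd : Disjoint (b i0 ∩ V) (b j0 ∩ V) := by
    rw [disjoint_left]
    intro x hx hx2
    rw [← hjV] at hx2
    exact (mem_sdiff.mp (mem_inter.mp hx2).2).2 hx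
  obtain ⟨U, k, h, -⟩ := exists_DV hFM hsys hMC.tf hR
    (hMC.ring hKP hFM he (by rw [← hjV]; exact hj3)) hd
  exact ⟨i0, j0, U, k, h⟩

end Pool.Agent.Helper20.C5
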