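import Pool.Agent.Helper20.C5.Dz

/-!
# Double cuts with two components: soundness of the numerical rules
-/

set_option linter.unusedSectionVars false

open Finset

namespace Pool.Agent.Helper20.C5

open Pool.Agent.Helper74.C5

variable {α ι : Type} [DecidableEq α] [DecidableEq ι] [Fintype ι]
variable {b : ι → Finset α} {V K L : Finset α} {p q : Fin 3 → α} {i0 j0 : ι}

/-- The degrees. -/
def df (b : ι → Finset α) (K : Finset α) (p : Fin 3 → α) : Fin 3 → ℕ :=
  fun i => (BK b K (p i)).card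

theorem df_aj {i : Fin 3} : 0 < df b K p i ↔ Aj b (p i) K := BK_aj

theorem D0.disjP (h : D0 b V K L p q i0 j0) {i j k : Fin 3} (hi : 0 < df b L p i) (h1 : j ≠ i)
    (h2 : k ≠ i) (h3 : j ≠ k) : Disjoint (BK b K (p j)) (BK b K (p k)) :=
  nab_disj h.cK h.vcK (h.naP' (df_aj.mp hi) h1 h2 h3)

theorem D0.le_two (h : D0 b V K L p q i0 j0) (i : Fin 3) :
    D2 (df b K p) (df b L p) i ≤ dg b {p (i + 1), p (i + 2)} K := by
  rw [dg_two]
  unfold D2
  split_ifs with h1
  · rw [card_union_of_disjoint (h.disjP h1 (fin3_ne1 i) (fin3_ne2 i) (fin3_ne3 i))]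
    exact le_rfl
  · exact max_le (card_le_card subset_union_left) (card_le_card subset_union_right)

theorem D0.le_three (h : D0 b V K L p q i0 j0) :
    D3 (df b K p) (df b L p) ≤ dg b {p 0, p 1, p 2} K := by
  rw [dg_three]
  unfold D3
  split_ifs with h1
  · rw [card_union_of_disjoint, card_union_of_disjoint]
    · show _ + _ + _ ≤ _ + (_ + _)
      rw [add_assoc]
      exact le_rfl
    · exact h.disjP h1.1 (by decide) (by decide) (by decide)
    · rw [disjoint_union_right]
      exact ⟨h.disjP h1.2.2 (by decide) (by decide) (by decide),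
        h.disjP h1.2.1 (by decide) (by decide) (by decide)⟩
  · refine max_le (card_le_card subset_union_left) (max_le ?_ ?_)
    · exact card_le_card (subset_union_left.trans subset_union_right)
    · exact card_le_card (subset_union_right.trans subset_union_right)

/-- The set of points of a group. -/
def Gp.set (p : Fin 3 → α) : Gp → Finset α
  | .s i => {p i}
  | .t i => {p (i + 1), p (i + 2)}
  | .u => {p 0, p 1, p 2}

theorem fin3_ne : ∀ i j : Fin 3, j ≠ i ↔ j = i + 1 ∨ j = i + 2 := by decide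

theorem fin3_u : ∀ j : Fin 3, j = 0 ∨ j = 1 ∨ j = 2 := by decide

theorem Gp.mem_set {G : Gp} {x : α} : x ∈ G.set p ↔ ∃ i, G.mem i = true ∧ x = p i := by
  cases G with
  | s i =>
    show x ∈ ({p i} : Finset α) ↔ ∃ j, decide (j = i) = true ∧ x = p j
    simp
  | t i =>
    show x ∈ ({p (i + 1), p (i + 2)} : Finset α) ↔ ∃ j, decide (j ≠ i) = true ∧ x = p j
    rw [mem_insert, mem_singleton]
    constructor
    · rintro (h | h)
      · exact ⟨i + 1, by rw [decide_eq_true_eq]; exact fin3_ne1 i, h⟩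
      · exact ⟨i + 2, by rw [decide_eq_true_eq]; exact fin3_ne2 i, h⟩
    · rintro ⟨j, hj, h⟩
      rw [decide_eq_true_eq, fin3_ne] at hj
      rcases hj with rfl | rfl
      · exact Or.inl h
      · exact Or.inr h
  | u =>
    show x ∈ ({p 0, p 1, p 2} : Finset α) ↔ ∃ j, true = true ∧ x = p j
    rw [mem_insert, mem_insert, mem_singleton]
    constructor
    · rintro (h | h | h)
      · exact ⟨0, rfl, h⟩
      · exact ⟨1, rfl, h⟩
      · exact ⟨2, rfl, h⟩
    · rintro ⟨j, -, h⟩
      rcases fin3_u j with rfl | rfl | rfl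
      · exact Or.inl h
      · exact Or.inr (Or.inl h)
      · exact Or.inr (Or.inr h)

theorem D0.le_set (h : D0 b V K L p q i0 j0) (G : Gp) :
    G.D (df b K p) (df b L p) ≤ dg b (G.set p) K := by
  cases G with
  | s i => exact dg_one.ge
  | t i => exact h.le_two i
  | u => exact h.le_three

theorem al3_iff {f : Fin 3 → Bool} : al3 f = true ↔ ∀ i, f i = true := by
  unfold al3
  rw [Bool.and_eq_true, Bool.and_eq_true]
  constructor
  · rintro ⟨⟨h1, h2⟩, h3⟩ i
    rcases fin3_u i with rfl | rfl | rfl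
    · exact h1
    · exact h2
    · exact h3
  · exact fun h => ⟨⟨h 0, h 1⟩, h 2⟩

theorem D0.set_Fs (_h : D0 b V K L p q i0 j0) (G : Gp) : G.set p ⊆ Fs p q := by
  intro x hx
  obtain ⟨i, -, rfl⟩ := Gp.mem_set.mp hx
  exact p_Fs i

theorem D0.set_Fs' (_h : D0 b V K L p q i0 j0) (G : Gp) : G.set q ⊆ Fs p q := by
  intro x hx
  obtain ⟨i, -, rfl⟩ := Gp.mem_set.mp hx
  exact q_Fs i

theorem Gp.D_pos {G : Gp} {d o : Fin 3 → ℕ} (h : ∀ i, G.mem i = true → 0 < d i) :
    1 ≤ G.D d o := by
  cases G with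
  | s i => exact h i (by show decide (i = i) = true; simp)
  | t i =>
    have h1 := h (i + 1) (by show decide (i + 1 ≠ i) = true; rw [decide_eq_true_eq]; exact fin3_ne1 i)
    show 1 ≤ D2 d o i
    unfold D2
    split_ifs
    · omega
    · exact le_max_of_le_left h1
  | u =>
    have h1 := h 0 rfl
    show 1 ≤ D3 d o
    unfold D3
    split_ifs
    · omega
    · exact le_max_of_le_left h1

/-- The rule ADD for single points. -/
theorem D0.add1 (h : D0 b V K L p q i0 j0) (hKP : KP) {i j : Fin 3} (hab : Ab b K (p i) (q j))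
    (h1 : 0 < df b L p (i + 1)) (h2 : 0 < df b L p (i + 2)) (h3 : 0 < df b L q (j + 1))
    (h4 : 0 < df b L q (j + 2)) :
    cpv (df b L p (i + 1)) (df b L p (i + 2)) + cpv (df b L q (j + 1)) (df b L q (j + 2)) ≤
      eX b V L + 6 := by
  have key : ∀ i i'' : Fin 3, i'' ≠ i + 1 → i'' ≠ i + 2 → i'' = i := by decide
  refine h.add hKP (A := {i + 1}) (A' := {i + 2}) (B := {j + 1}) (B' := {j + 2})
    (disjoint_singleton.mpr (fin3_ne3 i)) (disjoint_singleton.mpr (fin3_ne3 j))
    (singleton_nonempty _) (singleton_nonempty _) (singleton_nonempty _) (singleton_nonempty _)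
    h1 h2 ?_ ?_ h3 h4 ?_ ?_ ?_
  · rw [image_singleton, dg_one]
    exact le_rfl
  · rw [image_singleton, dg_one]
    exact le_rfl
  · rw [image_singleton, dg_one]
    exact le_rfl
  · rw [image_singleton, dg_one]
    exact le_rfl
  · intro a ha a' ha' a'' h5 h6 c hc c' hc' c'' h7 h8
    rw [mem_singleton] at ha ha' hc hc'
    rw [ha] at h5
    rw [ha'] at h6
    rw [hc] at h7
    rw [hc'] at h8
    rw [key i a'' h5 h6, key j c'' h7 h8]
    exact hab

/-- **Soundness of KILL.** -/
theorem D0.kill (h : D0 b V K L p q i0 j0) (hKP : KP)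
    (hk : kill (df b K p) (df b L p) (df b K q) (df b L q) (eX b V K) (eX b V L) = true) :
    False := by
  unfold C5.kill at hk
  rw [List.any_eq_true] at hk
  obtain ⟨G, -, hk⟩ := hk
  rw [List.any_eq_true] at hk
  obtain ⟨H, -, hk⟩ := hk
  rw [Bool.and_eq_true, Bool.and_eq_true, Bool.and_eq_true, al3_iff, al3_iff, al3_iff,
    decide_eq_true_eq] at hk
  obtain ⟨⟨⟨h1, h2⟩, h3⟩, h4⟩ := hk
  have h1' : ∀ i, G.mem i = true → 0 < df b K p i := by
    intro i hi
    have := h1 i
    rw [hi] at this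
    simpa using this
  have h2' : ∀ i, H.mem i = true → 0 < df b K q i := by
    intro i hi
    have := h2 i
    rw [hi] at this
    simpa using this
  have hdis : Disjoint (G.set p) (H.set q) := by
    rw [disjoint_left]
    intro x hx hx2
    obtain ⟨i, -, rfl⟩ := Gp.mem_set.mp hx
    obtain ⟨j, -, hj⟩ := Gp.mem_set.mp hx2
    exact h.pq i j hj
  have h5 : ∃ x ∈ G.set p, ∃ y ∈ H.set q, Ab b K x y := by
    by_contra hcon
    push Not at hcon
    have h6 := h.cap hKP (h.set_Fs G) (h.set_Fs' H) hdis (Gp.D_pos h1') (Gp.D_pos h2')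
      (h.le_set G) (h.flip.le_set H) hcon
    omega
  obtain ⟨x, hx, y, hy, hxy⟩ := h5
  obtain ⟨i, hi, rfl⟩ := Gp.mem_set.mp hx
  obtain ⟨j, hj, rfl⟩ := Gp.mem_set.mp hy
  have h6 := h4 i
  rw [hi] at h6
  simp only [Bool.not_true, Bool.false_or] at h6
  rw [al3_iff] at h6
  have h7 := h6 j
  rw [hj] at h7
  simp only [Bool.not_true, Bool.false_or] at h7
  unfold adv at h7
  simp only [Bool.and_eq_true, decide_eq_true_eq] at h7
  obtain ⟨⟨⟨⟨h8, h9⟩, h10⟩, h11⟩, h12⟩ := h7
  have := h.add1 hKP hxy h8 h9 h10 h11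
  omega

/-- A pair which must be absorbed. -/
theorem D0.fc (h : D0 b V K L p q i0 j0) (hKP : KP) {i j : Fin 3}
    (hf : fc (df b K p i) (df b K q j) (eX b V K) = true) : Ab b K (p i) (q j) := by
  unfold C5.fc at hf
  simp only [Bool.and_eq_true, decide_eq_true_eq] at hf
  by_contra hcon
  have h1 := h.cap hKP (G := {p i}) (H := {q j}) (singleton_subset_iff.mpr (p_Fs i))
    (singleton_subset_iff.mpr (q_Fs j)) (disjoint_singleton.mpr (h.pq i j)) hf.1.1 hf.1.2
    dg_one.ge dg_one.ge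
    (fun x hx y hy => by
      rw [mem_singleton.mp hx, mem_singleton.mp hy]
      exact hcon)
  omega

/-- **Soundness of the rule for an inner block through `p 0` and `q 0`.** -/
theorem D0.k11 (h : D0 b V K L p q i0 j0) (hKP : KP) {m : ι} (hm : p 0 ∈ b m) (hm2 : q 0 ∈ b m)
    (hk : k11 (df b K p) (df b L p) (df b K q) (df b L q) (eX b V K) (eX b V L) = true) :
    False := by
  unfold C5.k11 at hk
  simp only [Bool.or_eq_true, Bool.and_eq_true] at hk
  rcases hk with ((⟨h1, h2⟩ | ⟨h1, h2⟩) | ⟨h1, h2⟩) | ⟨h1, h2⟩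
  · exact h.rst (i := 1) (i' := 2) (i'' := 0) (j := 1) (j' := 2) (j'' := 0) (by decide)
      (by decide) (by decide) (by decide) (by decide) (by decide) (h.fc hKP h1)
      (h.swap.fc hKP h2) hm hm2
  · exact h.rst (i := 1) (i' := 2) (i'' := 0) (j := 2) (j' := 1) (j'' := 0) (by decide)
      (by decide) (by decide) (by decide) (by decide) (by decide) (h.fc hKP h1)
      (h.swap.fc hKP h2) hm hm2
  · exact h.rst (i := 2) (i' := 1) (i'' := 0) (j := 1) (j' := 2) (j'' := 0) (by decide)
      (by decide) (by decide) (by decide) (by decide) (by decide) (h.fc hKP h1)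
      (h.swap.fc hKP h2) hm hm2
  · exact h.rst (i := 2) (i' := 1) (i'' := 0) (j := 2) (j' := 1) (j'' := 0) (by decide)
      (by decide) (by decide) (by decide) (by decide) (by decide) (h.fc hKP h1)
      (h.swap.fc hKP h2) hm hm2

/-- Nonabsorption from an inner block `p 0, p 1, q 0`. -/
theorem D0.na21 (h : D0 b V K L p q i0 j0) {m : ι} (hm : p 0 ∈ b m) (hm1 : p 1 ∈ b m)
    (hm2 : q 0 ∈ b m) {j j' : Fin 3} (hj : j ≠ 0) (hj' : j' ≠ 0) (hjj : j ≠ j')
    (ha : 0 < df b L q j') : ¬ Ab b K (p 2) (q j) := by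
  intro h1
  have h2 := h.cover (T := {p 2, q j}) (S := {q j'}) (R := b m) (r := 1)
    (sub2 (h.pV _) (h.qV _)) (singleton_subset_iff.mpr (h.qV _)) (cv_block m (Subset.refl _))
    (by
      intro k
      rcases fin3_u k with rfl | rfl | rfl
      · exact Or.inr (Or.inr hm)
      · exact Or.inr (Or.inr hm1)
      · exact Or.inl (by simp))
    (by
      intro k
      rcases fin3_third j j' 0 k hjj hj.symm hj'.symm with rfl | rfl | rfl
      · exact Or.inl (by simp)
      · exact Or.inr (Or.inl (by simp))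
      · exact Or.inr (Or.inr hm2))
  have h3 := h.abS (df_aj.mp ha)
  unfold Ab at h1
  omega

/-- **Soundness of the rule for an inner block `p 0, p 1, q 0`.** -/
theorem D0.k21 (h : D0 b V K L p q i0 j0) (hKP : KP) {m : ι} (hm : p 0 ∈ b m) (hm1 : p 1 ∈ b m)
    (hm2 : q 0 ∈ b m) (hk : k21 (df b K p) (df b K q) (df b L q) (eX b V K) = true) :
    False := by
  unfold C5.k21 at hk
  simp only [Bool.or_eq_true, Bool.and_eq_true, decide_eq_true_eq] at hk
  rcases hk with (⟨h1, h2⟩ | ⟨h1, h2⟩) | ⟨⟨⟨⟨h1, h2⟩, h3⟩, h4⟩, h5⟩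
  · exact h.na21 hm hm1 hm2 (j := 1) (j' := 2) (by decide) (by decide) (by decide) h1
      (h.fc hKP h2)
  · exact h.na21 hm hm1 hm2 (j := 2) (j' := 1) (by decide) (by decide) (by decide) h1
      (h.fc hKP h2)
  · unfold C5.fc at h5
    simp only [Bool.and_eq_true, decide_eq_true_eq] at h5
    have h6 := h.cap hKP (G := {p 2}) (H := {q 1, q 2}) (singleton_subset_iff.mpr (p_Fs 2))
      (by
        intro x hx
        rw [mem_insert, mem_singleton] at hx
        rcases hx with rfl | rfl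
        · exact q_Fs 1
        · exact q_Fs 2)
      (by
        rw [disjoint_singleton_left, mem_insert, mem_singleton, not_or]
        exact ⟨h.pq 2 1, h.pq 2 2⟩) h5.1.1 h5.1.2 dg_one.ge (h.flip.le_two 0)
      (by
        intro x hx y hy
        rw [mem_singleton.mp hx]
        rw [mem_insert, mem_singleton] at hy
        rcases hy with rfl | rfl
        · exact h.na21 hm hm1 hm2 (by decide) (by decide) (by decide) h2
        · exact h.na21 hm hm1 hm2 (by decide) (by decide) (by decide) h1)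
    omega

/-- The caps of `K` at the face `p`. -/
theorem D0.pl1 (h : D0 b V K L p q i0 j0) (hKP : KP) :
    pl1 (df b K p) (df b L p) (eX b V K) := by
  refine ⟨?_, ?_, ?_⟩
  · intro i h1 h2 h3
    refine h.cap hKP (G := {p (i + 1)}) (H := {p (i + 2)}) (singleton_subset_iff.mpr (p_Fs _))
      (singleton_subset_iff.mpr (p_Fs _))
      (disjoint_singleton.mpr fun h4 => fin3_ne3 i (h.pinj h4)) h2 h3 dg_one.ge dg_one.ge ?_
    intro x hx y hy
    rw [mem_singleton.mp hx, mem_singleton.mp hy]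
    exact h.naP (df_aj.mp h1)
  · intro i h1 h2 h3 h4
    refine h.cap hKP (G := {p i}) (H := {p (i + 1), p (i + 2)}) (singleton_subset_iff.mpr (p_Fs _))
      ?_ ?_ h3 h4 dg_one.ge (h.le_two i) ?_
    · intro x hx
      rw [mem_insert, mem_singleton] at hx
      rcases hx with rfl | rfl
      · exact p_Fs _
      · exact p_Fs _
    · rw [disjoint_singleton_left, mem_insert, mem_singleton, not_or]
      exact ⟨fun h5 => fin3_ne1 i (h.pinj h5).symm, fun h5 => fin3_ne2 i (h.pinj h5).symm⟩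
    · intro x hx y hy
      rw [mem_singleton.mp hx]
      rw [mem_insert, mem_singleton] at hy
      rcases hy with rfl | rfl
      · exact h.naP' (df_aj.mp h2) (fin3_ne2 i).symm (fin3_ne3 i) (fin3_ne1 i).symm
      · exact h.naP' (df_aj.mp h1) (fin3_ne1 i).symm (fin3_ne3 i).symm (fin3_ne2 i).symm
  · intro v
    obtain ⟨i, hi, h1⟩ := h.aPK v
    exact ⟨i, hi, df_aj.mpr h1⟩

theorem fn_eq {f : Fin 3 → ℕ} : fn (f 0) (f 1) (f 2) = f := by
  funext i
  rcases fin3_u i with rfl | rfl | rfl <;> rfl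

theorem mem_pts {t0 t1 t2 a b c e f : ℕ} (ha : a ≤ t0) (hb : b ≤ t1) (hc : c ≤ t2)
    (h : plv t0 t1 t2 a b c e f = true) : (a, b, c) ∈ pts t0 t1 t2 e f := by
  unfold pts
  rw [List.mem_flatMap]
  refine ⟨a, List.mem_range.mpr (by omega), ?_⟩
  rw [List.mem_flatMap]
  refine ⟨b, List.mem_range.mpr (by omega), ?_⟩
  rw [List.mem_flatMap]
  refine ⟨c, List.mem_range.mpr (by omega), ?_⟩
  rw [if_pos h]
  exact List.mem_singleton_self _

/-- The pattern at the face `p`. -/
theorem D0.mem_pts (h : D0 b V K L p q i0 j0) (hKP : KP) {t0 t1 t2 : ℕ}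
    (h0 : df b K p 0 + df b L p 0 = t0) (h1 : df b K p 1 + df b L p 1 = t1)
    (h2 : df b K p 2 + df b L p 2 = t2) :
    (df b K p 0, df b K p 1, df b K p 2) ∈ pts t0 t1 t2 (eX b V K) (eX b V L) := by
  refine C5.mem_pts (by omega) (by omega) (by omega) ?_
  have e0 : t0 - df b K p 0 = df b L p 0 := by omega
  have e1 : t1 - df b K p 1 = df b L p 1 := by omega
  have e2 : t2 - df b K p 2 = df b L p 2 := by omega
  unfold plv
  rw [Bool.and_eq_true, decide_eq_true_eq, decide_eq_true_eq, e0, e1, e2, fn_eq, fn_eq]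
  exact ⟨h.pl1 hKP, h.swap.pl1 hKP⟩

/-- **Soundness of the cross check.** -/
theorem D0.crs (h : D0 b V K L p q i0 j0) (hKP : KP) {t0 t1 t2 s0 s1 s2 : ℕ}
    {ex : (ℕ × ℕ × ℕ) → (ℕ × ℕ × ℕ) → Bool}
    (h0 : df b K p 0 + df b L p 0 = t0) (h1 : df b K p 1 + df b L p 1 = t1)
    (h2 : df b K p 2 + df b L p 2 = t2) (h0' : df b K q 0 + df b L q 0 = s0)
    (h1' : df b K q 1 + df b L q 1 = s1) (h2' : df b K q 2 + df b L q 2 = s2)
    (hc : crs t0 t1 t2 s0 s1 s2 (eX b V K) (eX b V L) (pts t0 t1 t2 (eX b V K) (eX b V L))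
      (pts s0 s1 s2 (eX b V K) (eX b V L)) ex = true) :
    ex (df b K p 0, df b K p 1, df b K p 2) (df b K q 0, df b K q 1, df b K q 2) = true := by
  have e0 : t0 - df b K p 0 = df b L p 0 := by omega
  have e1 : t1 - df b K p 1 = df b L p 1 := by omega
  have e2 : t2 - df b K p 2 = df b L p 2 := by omega
  have e0' : s0 - df b K q 0 = df b L q 0 := by omega
  have e1' : s1 - df b K q 1 = df b L q 1 := by omega
  have e2' : s2 - df b K q 2 = df b L q 2 := by omega
  unfold C5.crs at hc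
  rw [List.all_eq_true] at hc
  have h3 := hc _ (h.mem_pts hKP h0 h1 h2)
  rw [List.all_eq_true] at h3
  have h4 := h3 _ (h.flip.mem_pts hKP h0' h1' h2')
  simp only [e0, e1, e2, e0', e1', e2', fn_eq, Bool.or_eq_true] at h4
  rcases h4 with (h4 | h4) | h4
  · exact h4
  · exact (h.kill hKP h4).elim
  · exact (h.swap.kill hKP h4).elim

end Pool.Agent.Helper20.C5
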