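import Mathlib

/-!
# The numerical rules for double cuts with two components
-/

namespace Pool.Agent.Helper20.C5

/-- The value of the pair cap. -/
def cpv (a c : ℕ) : ℕ := 2 * min (min a c) 4 + if min a c + 2 ≤ min (max a c) 4 then 1 else 0

theorem cpv_comm (a c : ℕ) : cpv a c = cpv c a := by
  unfold cpv
  rw [min_comm a c, max_comm a c]

/-- Lower bound for the degree of the pair opposite to `i`. -/
def D2 (d o : Fin 3 → ℕ) (i : Fin 3) : ℕ :=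
  if 0 < o i then d (i + 1) + d (i + 2) else max (d (i + 1)) (d (i + 2))

/-- Lower bound for the degree of the triple. -/
def D3 (d o : Fin 3 → ℕ) : ℕ :=
  if 0 < o 0 ∧ 0 < o 1 ∧ 0 < o 2 then d 0 + d 1 + d 2 else max (d 0) (max (d 1) (d 2))

/-- The caps of one component at one face. -/
def pl1 (d o : Fin 3 → ℕ) (e : ℕ) : Prop :=
  (∀ i : Fin 3, 0 < o i → 0 < d (i + 1) → 0 < d (i + 2) → cpv (d (i + 1)) (d (i + 2)) ≤ e + 3) ∧
  (∀ i : Fin 3, 0 < o (i + 1) → 0 < o (i + 2) → 0 < d i → 0 < D2 d o i →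
    cpv (d i) (D2 d o i) ≤ e + 3) ∧
  (∀ v : Fin 3, ∃ i, i ≠ v ∧ 0 < d i)

/-- The groups. -/
inductive Gp
  | s (i : Fin 3)
  | t (i : Fin 3)
  | u
  deriving DecidableEq

/-- Membership in a group. -/
def Gp.mem : Gp → Fin 3 → Bool
  | .s i, j => decide (j = i)
  | .t i, j => decide (j ≠ i)
  | .u, _ => true

/-- Lower bound for the degree of a group. -/
def Gp.D (d o : Fin 3 → ℕ) : Gp → ℕ
  | .s i => d i
  | .t i => D2 d o i
  | .u => D3 d o

/-- All groups. -/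
def Gp.all : List Gp := [.s 0, .s 1, .s 2, .t 0, .t 1, .t 2, .u]

/-- All indices. -/
def al3 (f : Fin 3 → Bool) : Bool := f 0 && f 1 && f 2

/-- The ADD values at one pair. -/
def adv (o o2 : Fin 3 → ℕ) (f : ℕ) (i j : Fin 3) : Bool :=
  decide (0 < o (i + 1)) && decide (0 < o (i + 2)) && decide (0 < o2 (j + 1)) &&
    decide (0 < o2 (j + 2)) &&
    decide (f + 6 < cpv (o (i + 1)) (o (i + 2)) + cpv (o2 (j + 1)) (o2 (j + 2)))

/-- The rule KILL. -/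
def kill (d o d2 o2 : Fin 3 → ℕ) (e f : ℕ) : Bool :=
  Gp.all.any fun G => Gp.all.any fun H =>
    al3 (fun i => !G.mem i || decide (0 < d i)) && al3 (fun i => !H.mem i || decide (0 < d2 i)) &&
    decide (e + 3 < cpv (G.D d o) (H.D d2 o2)) &&
    al3 fun i => !G.mem i || al3 fun j => !H.mem j || adv o o2 f i j

/-- A function on three indices. -/
def fn (a b c : ℕ) : Fin 3 → ℕ
  | 0 => a
  | 1 => b
  | 2 => c

instance (d o : Fin 3 → ℕ) (e : ℕ) : Decidable (pl1 d o e) := by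
  unfold pl1
  infer_instance

/-- Both components. -/
def plv (t0 t1 t2 a b c e f : ℕ) : Bool :=
  decide (pl1 (fn a b c) (fn (t0 - a) (t1 - b) (t2 - c)) e) &&
    decide (pl1 (fn (t0 - a) (t1 - b) (t2 - c)) (fn a b c) f)

/-- The list of patterns. -/
def pts (t0 t1 t2 e f : ℕ) : List (ℕ × ℕ × ℕ) :=
  (List.range (t0 + 1)).flatMap fun a => (List.range (t1 + 1)).flatMap fun b =>
    (List.range (t2 + 1)).flatMap fun c => if plv t0 t1 t2 a b c e f then [(a, b, c)] else []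

/-- The cross check. -/
def crs (t0 t1 t2 s0 s1 s2 e f : ℕ) (L M : List (ℕ × ℕ × ℕ))
    (ex : (ℕ × ℕ × ℕ) → (ℕ × ℕ × ℕ) → Bool) : Bool :=
  L.all fun x => M.all fun y => ex x y ||
    kill (fn x.1 x.2.1 x.2.2) (fn (t0 - x.1) (t1 - x.2.1) (t2 - x.2.2))
      (fn y.1 y.2.1 y.2.2) (fn (s0 - y.1) (s1 - y.2.1) (s2 - y.2.2)) e f ||
    kill (fn (t0 - x.1) (t1 - x.2.1) (t2 - x.2.2)) (fn x.1 x.2.1 x.2.2)
      (fn (s0 - y.1) (s1 - y.2.1) (s2 - y.2.2)) (fn y.1 y.2.1 y.2.2) f e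

/-- A pair which must be absorbed. -/
def fc (x y e : ℕ) : Bool := decide (0 < x) && decide (0 < y) && decide (e + 3 < cpv x y)

/-- The rule for an inner block through `p 0` and `q 0`. -/
def k11 (d o d2 o2 : Fin 3 → ℕ) (e f : ℕ) : Bool :=
  (fc (d 1) (d2 1) e && fc (o 2) (o2 2) f) || (fc (d 1) (d2 2) e && fc (o 2) (o2 1) f) ||
  (fc (d 2) (d2 1) e && fc (o 1) (o2 2) f) || (fc (d 2) (d2 2) e && fc (o 1) (o2 1) f)

/-- The rule for an inner block `p 0, p 1, q 0`, one component. -/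
def k21 (d d2 o2 : Fin 3 → ℕ) (e : ℕ) : Bool :=
  (decide (0 < o2 2) && fc (d 2) (d2 1) e) || (decide (0 < o2 1) && fc (d 2) (d2 2) e) ||
  (decide (0 < o2 1) && decide (0 < o2 2) && decide (0 < d2 1) && decide (0 < d2 2) &&
    fc (d 2) (D2 d2 o2 0) e)

/-- The exceptions for the type `11`. -/
def ex11 (t0 t1 t2 s0 s1 s2 e f : ℕ) (x y : ℕ × ℕ × ℕ) : Bool :=
  k11 (fn x.1 x.2.1 x.2.2) (fn (t0 - x.1) (t1 - x.2.1) (t2 - x.2.2))
      (fn y.1 y.2.1 y.2.2) (fn (s0 - y.1) (s1 - y.2.1) (s2 - y.2.2)) e f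

/-- The exceptions for the type `21`. -/
def ex21 (t0 t1 t2 s0 s1 s2 e f : ℕ) (x y : ℕ × ℕ × ℕ) : Bool :=
  k21 (fn x.1 x.2.1 x.2.2) (fn y.1 y.2.1 y.2.2) (fn (s0 - y.1) (s1 - y.2.1) (s2 - y.2.2)) e ||
  k21 (fn (t0 - x.1) (t1 - x.2.1) (t2 - x.2.2)) (fn (s0 - y.1) (s1 - y.2.1) (s2 - y.2.2))
    (fn y.1 y.2.1 y.2.2) f

end Pool.Agent.Helper20.C5
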