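import Pool.Agent.Helper20.C5.Add
import Pool.Agent.Helper20.C5.Nm

/-!
# Double cuts with two components: set-up
-/

set_option linter.unusedSectionVars false

open Finset

namespace Pool.Agent.Helper20.C5

open Pool.Agent.Helper74.C5

variable {α ι : Type} [DecidableEq α] [DecidableEq ι] [Fintype ι]

/-- The absorption of two points. -/
def Ab (b : ι → Finset α) (K : Finset α) (x y : α) : Prop := tau b (K ∪ {x, y}) ≤ tau b K

theorem Ab.symm {b : ι → Finset α} {K : Finset α} {x y : α} (h : Ab b K x y) : Ab b K y x := by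
  unfold Ab at h ⊢
  rwa [pair_comm]

/-- The blocks through `x` meeting `K`. -/
def BK (b : ι → Finset α) (K : Finset α) (x : α) : Finset ι :=
  univ.filter fun i => x ∈ b i ∧ (b i ∩ K).Nonempty

theorem mem_BK {b : ι → Finset α} {K : Finset α} {x : α} {i : ι} :
    i ∈ BK b K x ↔ x ∈ b i ∧ (b i ∩ K).Nonempty := by
  unfold BK
  rw [mem_filter]
  exact ⟨fun h => h.2, fun h => ⟨mem_univ i, h⟩⟩

theorem dg_BK {b : ι → Finset α} {K G : Finset α} : dg b G K = (G.biUnion (BK b K)).card := by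
  unfold dg
  congr 1
  ext i
  rw [mem_filter, mem_biUnion]
  constructor
  · rintro ⟨-, ⟨x, hx⟩, h2⟩
    rw [mem_inter] at hx
    exact ⟨x, hx.2, mem_BK.mpr ⟨hx.1, h2⟩⟩
  · rintro ⟨x, hx, h⟩
    rw [mem_BK] at h
    exact ⟨mem_univ i, ⟨x, mem_inter.mpr ⟨h.1, hx⟩⟩, h.2⟩

theorem dg_one {b : ι → Finset α} {K : Finset α} {x : α} : dg b {x} K = (BK b K x).card := by
  rw [dg_BK, singleton_biUnion]

theorem dg_two {b : ι → Finset α} {K : Finset α} {x y : α} :
    dg b {x, y} K = (BK b K x ∪ BK b K y).card := by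
  rw [dg_BK, biUnion_insert, singleton_biUnion]

theorem dg_three {b : ι → Finset α} {K : Finset α} {x y z : α} :
    dg b {x, y, z} K = (BK b K x ∪ (BK b K y ∪ BK b K z)).card := by
  rw [dg_BK, biUnion_insert, biUnion_insert, singleton_biUnion]

theorem dg_mono {b : ι → Finset α} {K G H : Finset α} (h : G ⊆ H) : dg b G K ≤ dg b H K := by
  rw [dg_BK, dg_BK]
  exact card_le_card (biUnion_subset_biUnion_of_subset_left _ h)

theorem BK_aj {b : ι → Finset α} {K : Finset α} {x : α} :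
    0 < (BK b K x).card ↔ Aj b x K := by
  rw [card_pos]
  constructor
  · rintro ⟨i, hi⟩
    obtain ⟨h1, y, hy⟩ := mem_BK.mp hi
    rw [mem_inter] at hy
    exact ⟨i, h1, y, hy.2, hy.1⟩
  · rintro ⟨i, h1, y, hy, hy2⟩
    exact ⟨i, mem_BK.mpr ⟨h1, y, mem_inter.mpr ⟨hy2, hy⟩⟩⟩

/-- A common block gives absorption. -/
theorem common_ab {b : ι → Finset α} {K : Finset α} (hc : Cb b K) (hv : Vc b K) {x y : α} {i : ι}
    (hx : i ∈ BK b K x) (hy : i ∈ BK b K y) : Ab b K x y := by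
  obtain ⟨h1, c, hc1⟩ := mem_BK.mp hx
  rw [mem_inter] at hc1
  refine absorb hc hv hc1.2 hc1.1 ?_
  intro z hz
  rw [mem_insert, mem_singleton] at hz
  rcases hz with rfl | rfl
  · exact h1
  · exact (mem_BK.mp hy).1

/-- Nonabsorbed points have disjoint sets of blocks. -/
theorem nab_disj {b : ι → Finset α} {K : Finset α} (hc : Cb b K) (hv : Vc b K) {x y : α}
    (h : ¬ Ab b K x y) : Disjoint (BK b K x) (BK b K y) := by
  rw [disjoint_left]
  exact fun i hi hi2 => h (common_ab hc hv hi hi2)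

/-- A double cut with two components. -/
structure D0 (b : ι → Finset α) (V K L : Finset α) (p q : Fin 3 → α) (i0 j0 : ι) : Prop where
  sys : Sys b V
  hP : b i0 ∩ V = univ.image p
  hQ : b j0 ∩ V = univ.image q
  pinj : Function.Injective p
  qinj : Function.Injective q
  pq : ∀ i j, p i ≠ q j
  KV : K ⊆ V
  LV : L ⊆ V
  pK : ∀ i, p i ∉ K
  pL : ∀ i, p i ∉ L
  qK : ∀ i, q i ∉ K
  qL : ∀ i, q i ∉ L
  KL : Sep b K L
  cov : ∀ x ∈ V, x ∈ K ∨ x ∈ L ∨ (∃ i, x = p i) ∨ ∃ i, x = q i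
  neK : K.Nonempty
  neL : L.Nonempty
  conK : Con b K
  conL : Con b L
  vcK : Vc b K
  vcL : Vc b L
  tfK : 2 * tau b K = K.card + 1
  tfL : 2 * tau b L = L.card + 1
  tt : tau b K + tau b L + 2 = tau b V
  aPK : ∀ v : Fin 3, ∃ i, i ≠ v ∧ Aj b (p i) K
  aPL : ∀ v : Fin 3, ∃ i, i ≠ v ∧ Aj b (p i) L
  aQK : ∀ v : Fin 3, ∃ i, i ≠ v ∧ Aj b (q i) K
  aQL : ∀ v : Fin 3, ∃ i, i ≠ v ∧ Aj b (q i) L
  uq : ∀ i j, (b i ∩ V).card = 3 → (b j ∩ V).Nonempty → b j ∩ V ⊆ b i → j = i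

theorem fin3_cases : ∀ i k : Fin 3, k = i ∨ k = i + 1 ∨ k = i + 2 := by decide

theorem fin3_ne1 : ∀ i : Fin 3, i + 1 ≠ i := by decide

theorem fin3_ne2 : ∀ i : Fin 3, i + 2 ≠ i := by decide

theorem fin3_ne3 : ∀ i : Fin 3, i + 1 ≠ i + 2 := by decide

theorem fin3_third : ∀ i i' i'' k : Fin 3, i ≠ i' → i'' ≠ i → i'' ≠ i' →
    k = i ∨ k = i' ∨ k = i'' := by decide

section

variable {b : ι → Finset α} {V K L : Finset α} {p q : Fin 3 → α} {i0 j0 : ι}

theorem D0.swap (h : D0 b V K L p q i0 j0) : D0 b V L K p q i0 j0 where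
  sys := h.sys
  hP := h.hP
  hQ := h.hQ
  pinj := h.pinj
  qinj := h.qinj
  pq := h.pq
  KV := h.LV
  LV := h.KV
  pK := h.pL
  pL := h.pK
  qK := h.qL
  qL := h.qK
  KL := h.KL.symm
  cov := fun x hx => by
    have := h.cov x hx
    tauto
  neK := h.neL
  neL := h.neK
  conK := h.conL
  conL := h.conK
  vcK := h.vcL
  vcL := h.vcK
  tfK := h.tfL
  tfL := h.tfK
  tt := by rw [add_comm (tau b L)]; exact h.tt
  aPK := h.aPL
  aPL := h.aPK
  aQK := h.aQL
  aQL := h.aQK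
  uq := h.uq

theorem D0.flip (h : D0 b V K L p q i0 j0) : D0 b V K L q p j0 i0 where
  sys := h.sys
  hP := h.hQ
  hQ := h.hP
  pinj := h.qinj
  qinj := h.pinj
  pq := fun i j => (h.pq j i).symm
  KV := h.KV
  LV := h.LV
  pK := h.qK
  pL := h.qL
  qK := h.pK
  qL := h.pL
  KL := h.KL
  cov := fun x hx => by
    have := h.cov x hx
    tauto
  neK := h.neK
  neL := h.neL
  conK := h.conK
  conL := h.conL
  vcK := h.vcK
  vcL := h.vcL
  tfK := h.tfK
  tfL := h.tfL
  tt := h.tt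
  aPK := h.aQK
  aPL := h.aQL
  aQK := h.aPK
  aQL := h.aPL
  uq := h.uq

theorem image_perm {p : Fin 3 → α} (σ : Equiv.Perm (Fin 3)) :
    univ.image (fun i => p (σ i)) = univ.image p := by
  ext x
  rw [mem_image, mem_image]
  constructor
  · rintro ⟨i, -, rfl⟩
    exact ⟨σ i, mem_univ _, rfl⟩
  · rintro ⟨i, -, rfl⟩
    exact ⟨σ.symm i, mem_univ _, by rw [Equiv.apply_symm_apply]⟩

theorem att_perm {p : Fin 3 → α} (σ : Equiv.Perm (Fin 3)) {C : Finset α}
    (h : ∀ v : Fin 3, ∃ i, i ≠ v ∧ Aj b (p i) C) :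
    ∀ v : Fin 3, ∃ i, i ≠ v ∧ Aj b (p (σ i)) C := by
  intro v
  obtain ⟨i, hi, h2⟩ := h (σ v)
  refine ⟨σ.symm i, ?_, by rw [Equiv.apply_symm_apply]; exact h2⟩
  intro h3
  apply hi
  rw [← h3, Equiv.apply_symm_apply]

theorem D0.perm (h : D0 b V K L p q i0 j0) (σ τ : Equiv.Perm (Fin 3)) :
    D0 b V K L (fun i => p (σ i)) (fun i => q (τ i)) i0 j0 where
  sys := h.sys
  hP := by rw [image_perm]; exact h.hP
  hQ := by rw [image_perm]; exact h.hQ
  pinj := fun i j hij => σ.injective (h.pinj hij)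
  qinj := fun i j hij => τ.injective (h.qinj hij)
  pq := fun i j => h.pq _ _
  KV := h.KV
  LV := h.LV
  pK := fun i => h.pK _
  pL := fun i => h.pL _
  qK := fun i => h.qK _
  qL := fun i => h.qL _
  KL := h.KL
  cov := fun x hx => by
    rcases h.cov x hx with h1 | h1 | ⟨i, h1⟩ | ⟨i, h1⟩
    · exact Or.inl h1
    · exact Or.inr (Or.inl h1)
    · exact Or.inr (Or.inr (Or.inl ⟨σ.symm i, by rw [Equiv.apply_symm_apply]; exact h1⟩))
    · exact Or.inr (Or.inr (Or.inr ⟨τ.symm i, by rw [Equiv.apply_symm_apply]; exact h1⟩))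
  neK := h.neK
  neL := h.neL
  conK := h.conK
  conL := h.conL
  vcK := h.vcK
  vcL := h.vcL
  tfK := h.tfK
  tfL := h.tfL
  tt := h.tt
  aPK := att_perm σ h.aPK
  aPL := att_perm σ h.aPL
  aQK := att_perm τ h.aQK
  aQL := att_perm τ h.aQL
  uq := h.uq

theorem D0.pV (h : D0 b V K L p q i0 j0) (i : Fin 3) : p i ∈ V := by
  have h1 : p i ∈ b i0 ∩ V := by
    rw [h.hP]
    exact mem_image_of_mem p (mem_univ i)
  exact (mem_inter.mp h1).2

theorem D0.pi (h : D0 b V K L p q i0 j0) (i : Fin 3) : p i ∈ b i0 := by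
  have h1 : p i ∈ b i0 ∩ V := by
    rw [h.hP]
    exact mem_image_of_mem p (mem_univ i)
  exact (mem_inter.mp h1).1

theorem D0.qV (h : D0 b V K L p q i0 j0) (i : Fin 3) : q i ∈ V := h.flip.pV i

theorem D0.qi (h : D0 b V K L p q i0 j0) (i : Fin 3) : q i ∈ b j0 := h.flip.pi i

theorem D0.cK (h : D0 b V K L p q i0 j0) : Cb b K := h.sys.cb.mono h.KV

theorem D0.cL (h : D0 b V K L p q i0 j0) : Cb b L := h.sys.cb.mono h.LV

/-- The covering inequality. -/
theorem D0.cover (h : D0 b V K L p q i0 j0) {T S R : Finset α} {r : ℕ} (hT : T ⊆ V) (hS : S ⊆ V)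
    (hR : Cv b R r) (hp : ∀ i, p i ∈ T ∨ p i ∈ S ∨ p i ∈ R)
    (hq : ∀ i, q i ∈ T ∨ q i ∈ S ∨ q i ∈ R) :
    tau b K + tau b L + 2 ≤ tau b (K ∪ T) + tau b (L ∪ S) + r := by
  have hcb := h.sys.cb
  have h1 := tau_cv (hcb.mono (union_subset h.KV hT))
  have h2 := tau_cv (hcb.mono (union_subset h.LV hS))
  have h3 := cv_union (cv_union h1 h2) hR
  rw [h.tt]
  apply tau_le
  refine h3.mono ?_ le_rfl
  intro x hx
  rw [mem_union, mem_union, mem_union, mem_union]
  rcases h.cov x hx with h4 | h4 | ⟨i, rfl⟩ | ⟨i, rfl⟩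
  · exact Or.inl (Or.inl (Or.inl h4))
  · exact Or.inl (Or.inr (Or.inl h4))
  · have := hp i
    tauto
  · have := hq i
    tauto

theorem D0.abT (_h : D0 b V K L p q i0 j0) {x : α} (hx : Aj b x K) :
    tau b (K ∪ {x}) ≤ tau b K := absorb_aj _h.cK _h.vcK hx

theorem D0.abS (_h : D0 b V K L p q i0 j0) {x : α} (hx : Aj b x L) :
    tau b (L ∪ {x}) ≤ tau b L := absorb_aj _h.cL _h.vcL hx

theorem sub2 {x y : α} (hx : x ∈ V) (hy : y ∈ V) : ({x, y} : Finset α) ⊆ V := by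
  intro z hz
  rw [mem_insert, mem_singleton] at hz
  rcases hz with rfl | rfl
  · exact hx
  · exact hy

/-- Two points of a face are not absorbed if the third is attached to the other component. -/
theorem D0.naP (h : D0 b V K L p q i0 j0) {i : Fin 3} (hi : Aj b (p i) L) :
    ¬ Ab b K (p (i + 1)) (p (i + 2)) := by
  intro h1
  have h2 := h.cover (T := {p (i + 1), p (i + 2)}) (S := {p i}) (R := b j0) (r := 1)
    (sub2 (h.pV _) (h.pV _)) (singleton_subset_iff.mpr (h.pV _)) (cv_block j0 (Subset.refl _))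
    (by
      intro k
      rcases fin3_cases i k with rfl | rfl | rfl
      · exact Or.inr (Or.inl (mem_singleton_self _))
      · exact Or.inl (by simp)
      · exact Or.inl (by simp))
    (fun k => Or.inr (Or.inr (h.qi k)))
  have h3 := h.abS hi
  unfold Ab at h1
  omega

/-- General form for pairs. -/
theorem D0.naP' (h : D0 b V K L p q i0 j0) {i j k : Fin 3} (hi : Aj b (p i) L) (h1 : j ≠ i)
    (h2 : k ≠ i) (h3 : j ≠ k) : ¬ Ab b K (p j) (p k) := by
  have h4 := h.naP hi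
  rcases fin3_cases i j with rfl | rfl | rfl
  · exact absurd rfl h1
  · rcases fin3_cases i k with rfl | rfl | rfl
    · exact absurd rfl h2
    · exact absurd rfl h3
    · exact h4
  · rcases fin3_cases i k with rfl | rfl | rfl
    · exact absurd rfl h2
    · exact fun h5 => h4 h5.symm
    · exact absurd rfl h3

/-- The rule `R*`. -/
theorem D0.rst (h : D0 b V K L p q i0 j0) {i i' i'' j j' j'' : Fin 3} {m : ι}
    (hi : i ≠ i') (hi2 : i'' ≠ i) (hi3 : i'' ≠ i') (hj : j ≠ j') (hj2 : j'' ≠ j) (hj3 : j'' ≠ j')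
    (h1 : Ab b K (p i) (q j)) (h2 : Ab b L (p i') (q j')) (hm : p i'' ∈ b m)
    (hm2 : q j'' ∈ b m) : False := by
  have h3 := h.cover (T := {p i, q j}) (S := {p i', q j'}) (R := b m) (r := 1)
    (sub2 (h.pV _) (h.qV _)) (sub2 (h.pV _) (h.qV _)) (cv_block m (Subset.refl _))
    (by
      intro k
      rcases fin3_third i i' i'' k hi hi2 hi3 with rfl | rfl | rfl
      · exact Or.inl (by simp)
      · exact Or.inr (Or.inl (by simp))
      · exact Or.inr (Or.inr hm))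
    (by
      intro k
      rcases fin3_third j j' j'' k hj hj2 hj3 with rfl | rfl | rfl
      · exact Or.inl (by simp)
      · exact Or.inr (Or.inl (by simp))
      · exact Or.inr (Or.inr hm2))
  unfold Ab at h1 h2
  omega

/-- The excess of a component. -/
noncomputable def eX (b : ι → Finset α) (V C : Finset α) : ℕ :=
  (ee b C - ((sp b V ∩ C).card : ℤ)).toNat

theorem D0.eX_eq (h : D0 b V K L p q i0 j0) (hKP : KP) :
    ((eX b V K : ℕ) : ℤ) = ee b K - ((sp b V ∩ K).card : ℤ) := by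
  unfold eX
  rw [Int.toNat_of_nonneg]
  exact ee_spV hKP h.sys h.KV h.neK h.conK h.vcK h.tfK

/-- The set of points of the two faces. -/
def Fs (p q : Fin 3 → α) : Finset α := univ.image p ∪ univ.image q

theorem p_Fs (i : Fin 3) : p i ∈ Fs p q := mem_union_left _ (mem_image_of_mem p (mem_univ i))

theorem q_Fs (i : Fin 3) : q i ∈ Fs p q := mem_union_right _ (mem_image_of_mem q (mem_univ i))

theorem D0.FsK (h : D0 b V K L p q i0 j0) : Fs p q ⊆ V \ K := by
  intro x hx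
  rcases mem_union.mp hx with hx | hx
  · obtain ⟨i, -, rfl⟩ := mem_image.mp hx
    exact mem_sdiff.mpr ⟨h.pV i, h.pK i⟩
  · obtain ⟨i, -, rfl⟩ := mem_image.mp hx
    exact mem_sdiff.mpr ⟨h.qV i, h.qK i⟩

theorem D0.cap_aux (h : D0 b V K L p q i0 j0) (hKP : KP) {G H : Finset α} (hG : G ⊆ Fs p q)
    (hH : H ⊆ Fs p q) (hd : Disjoint G H) {a c : ℕ} (ha : 1 ≤ a) (hac : a ≤ c)
    (h0 : a ≤ dg b G K) (h1 : c ≤ dg b H K) (hn : ∀ x ∈ G, ∀ y ∈ H, ¬ Ab b K x y) :
    cpv a c ≤ eX b V K + 3 := by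
  have h2 := (pairV h.sys h.KV h.neK h.conK h.vcK (hG.trans h.FsK) (hH.trans h.FsK) hd
    (a := min a 4) (c := min c 4) (by omega) (by omega) (by omega) (by omega) (by omega)
    (fun x hx y hy => by
      have := hn x hx y hy
      unfold Ab at this
      omega)).1 hKP
  have h3 := h.eX_eq hKP
  have h4 := h.tfK
  zify at h4 ⊢
  rw [h3]
  unfold cpv
  rw [min_eq_left hac, max_eq_right hac]
  have h5 : (min a 4 + 2 ≤ min c 4) ↔ a + 2 ≤ min c 4 := by omega
  simp only [h5] at h2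
  push_cast at h2 ⊢
  linarith

/-- **The pair cap.** -/
theorem D0.cap (h : D0 b V K L p q i0 j0) (hKP : KP) {G H : Finset α} (hG : G ⊆ Fs p q)
    (hH : H ⊆ Fs p q) (hd : Disjoint G H) {a c : ℕ} (ha : 1 ≤ a) (hc : 1 ≤ c)
    (h0 : a ≤ dg b G K) (h1 : c ≤ dg b H K) (hn : ∀ x ∈ G, ∀ y ∈ H, ¬ Ab b K x y) :
    cpv a c ≤ eX b V K + 3 := by
  rcases le_total a c with h2 | h2
  · exact h.cap_aux hKP hG hH hd ha h2 h0 h1 hn
  · rw [cpv_comm]
    exact h.cap_aux hKP hH hG hd.symm hc h2 h1 h0 (fun x hx y hy h3 => hn y hy x hx h3.symm)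

/-- **The four group cap.** -/
theorem D0.add_aux (h : D0 b V K L p q i0 j0) (hKP : KP) {A A' B B' : Finset α}
    (hA : A ⊆ Fs p q) (hA' : A' ⊆ Fs p q) (hB : B ⊆ Fs p q) (hB' : B' ⊆ Fs p q)
    (hdA : Disjoint A A') (hdB : Disjoint B B') (hd1 : Disjoint A B) (hd2 : Disjoint A B')
    (hd3 : Disjoint A' B) (hd4 : Disjoint A' B') {a c a' c' : ℕ} (ha : 1 ≤ a) (hac : a ≤ c)
    (h0 : a ≤ dg b A L) (h1 : c ≤ dg b A' L) (ha' : 1 ≤ a') (hac' : a' ≤ c')
    (h0' : a' ≤ dg b B L) (h1' : c' ≤ dg b B' L)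
    (hnA : ∀ x ∈ A, ∀ y ∈ A', ¬ Ab b L x y) (hnB : ∀ x ∈ B, ∀ y ∈ B', ¬ Ab b L x y)
    (hnAB : ∀ x ∈ A, ∀ y ∈ A', ∀ z ∈ B, ∀ w ∈ B', tau b L + 2 ≤ tau b (L ∪ {x, y, z, w})) :
    cpv a c + cpv a' c' ≤ eX b V L + 6 := by
  have hS := h.swap
  have h2 := quadV hKP h.sys h.LV h.neL h.conL h.vcL h.tfL (hA.trans hS.FsK) (hA'.trans hS.FsK)
    (hB.trans hS.FsK) (hB'.trans hS.FsK) hdA hdB hd1 hd2 hd3 hd4
    (a := min a 4) (c := min c 4) (a' := min a' 4) (c' := min c' 4)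
    (by omega) (by omega) (by omega) (by omega) (by omega)
    (by omega) (by omega) (by omega) (by omega) (by omega)
    (fun x hx y hy => by
      have := hnA x hx y hy
      unfold Ab at this
      omega)
    (fun x hx y hy => by
      have := hnB x hx y hy
      unfold Ab at this
      omega) hnAB
  have h3 := hS.eX_eq hKP
  zify
  rw [h3]
  unfold cpv
  rw [min_eq_left hac, max_eq_right hac, min_eq_left hac', max_eq_right hac']
  have h5 : (min a 4 + 2 ≤ min c 4) ↔ a + 2 ≤ min c 4 := by omega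
  have h6 : (min a' 4 + 2 ≤ min c' 4) ↔ a' + 2 ≤ min c' 4 := by omega
  simp only [h5, h6] at h2
  push_cast at h2 ⊢
  linarith

/-- **The four group cap.** -/
theorem D0.add_aux2 (h : D0 b V K L p q i0 j0) (hKP : KP) {A A' B B' : Finset α}
    (hA : A ⊆ Fs p q) (hA' : A' ⊆ Fs p q) (hB : B ⊆ Fs p q) (hB' : B' ⊆ Fs p q)
    (hdA : Disjoint A A') (hdB : Disjoint B B') (hd1 : Disjoint A B) (hd2 : Disjoint A B')
    (hd3 : Disjoint A' B) (hd4 : Disjoint A' B') {a c a' c' : ℕ} (ha : 1 ≤ a) (hc : 1 ≤ c)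
    (h0 : a ≤ dg b A L) (h1 : c ≤ dg b A' L) (ha' : 1 ≤ a') (hc' : 1 ≤ c')
    (h0' : a' ≤ dg b B L) (h1' : c' ≤ dg b B' L)
    (hnA : ∀ x ∈ A, ∀ y ∈ A', ¬ Ab b L x y) (hnB : ∀ x ∈ B, ∀ y ∈ B', ¬ Ab b L x y)
    (hnAB : ∀ x ∈ A, ∀ y ∈ A', ∀ z ∈ B, ∀ w ∈ B', tau b L + 2 ≤ tau b (L ∪ {x, y, z, w})) :
    cpv a c + cpv a' c' ≤ eX b V L + 6 := by
  have s1 : ∀ x y z w : α, ({y, x, z, w} : Finset α) = {x, y, z, w} := by
    intro x y z w
    exact insert_comm y x {z, w}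
  have s2 : ∀ x y z w : α, ({x, y, w, z} : Finset α) = {x, y, z, w} := by
    intro x y z w
    rw [pair_comm w z]
  rcases le_total a c with h2 | h2
  · rcases le_total a' c' with h3 | h3
    · exact h.add_aux hKP hA hA' hB hB' hdA hdB hd1 hd2 hd3 hd4 ha h2 h0 h1 ha' h3 h0' h1'
        hnA hnB hnAB
    · rw [cpv_comm a' c']
      exact h.add_aux hKP hA hA' hB' hB hdA hdB.symm hd2 hd1 hd4 hd3 ha h2 h0 h1 hc' h3 h1' h0'
        hnA (fun x hx y hy h4 => hnB y hy x hx h4.symm)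
        (fun x hx y hy z hz w hw => by rw [s2]; exact hnAB x hx y hy w hw z hz)
  · rw [cpv_comm a c]
    rcases le_total a' c' with h3 | h3
    · exact h.add_aux hKP hA' hA hB hB' hdA.symm hdB hd3 hd4 hd1 hd2 hc h2 h1 h0 ha' h3 h0' h1'
        (fun x hx y hy h4 => hnA y hy x hx h4.symm) hnB
        (fun x hx y hy z hz w hw => by rw [s1]; exact hnAB y hy x hx z hz w hw)
    · rw [cpv_comm a' c']
      exact h.add_aux hKP hA' hA hB' hB hdA.symm hdB.symm hd4 hd3 hd2 hd1 hc h2 h1 h0 hc' h3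
        h1' h0' (fun x hx y hy h4 => hnA y hy x hx h4.symm)
        (fun x hx y hy h4 => hnB y hy x hx h4.symm)
        (fun x hx y hy z hz w hw => by rw [s1, s2]; exact hnAB y hy x hx w hw z hz)

/-- **The rule ADD**: groups of indices; `K` absorbs all the complementary pairs. -/
theorem D0.add (h : D0 b V K L p q i0 j0) (hKP : KP) {A A' B B' : Finset (Fin 3)}
    (hdA : Disjoint A A') (hdB : Disjoint B B') (hA0 : A.Nonempty) (hA0' : A'.Nonempty)
    (hB0 : B.Nonempty) (hB0' : B'.Nonempty) {a c a' c' : ℕ} (ha : 1 ≤ a) (hc : 1 ≤ c)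
    (h0 : a ≤ dg b (A.image p) L) (h1 : c ≤ dg b (A'.image p) L) (ha' : 1 ≤ a') (hc' : 1 ≤ c')
    (h0' : a' ≤ dg b (B.image q) L) (h1' : c' ≤ dg b (B'.image q) L)
    (hab : ∀ i ∈ A, ∀ i' ∈ A', ∀ i'', i'' ≠ i → i'' ≠ i' → ∀ j ∈ B, ∀ j' ∈ B', ∀ j'', j'' ≠ j →
      j'' ≠ j' → Ab b K (p i'') (q j'')) :
    cpv a c + cpv a' c' ≤ eX b V L + 6 := by
  have hpF : ∀ A : Finset (Fin 3), A.image p ⊆ Fs p q := fun A =>
    (image_subset_image (subset_univ A)).trans subset_union_left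
  have hqF : ∀ A : Finset (Fin 3), A.image q ⊆ Fs p q := fun A =>
    (image_subset_image (subset_univ A)).trans subset_union_right
  have hpd : ∀ A A' : Finset (Fin 3), Disjoint A A' → Disjoint (A.image p) (A'.image p) :=
    fun A A' hAA => (disjoint_image h.pinj).mpr hAA
  have hqd : ∀ A A' : Finset (Fin 3), Disjoint A A' → Disjoint (A.image q) (A'.image q) :=
    fun A A' hAA => (disjoint_image h.qinj).mpr hAA
  have hpqd : ∀ A A' : Finset (Fin 3), Disjoint (A.image p) (A'.image q) := by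
    intro A A'
    rw [disjoint_left]
    intro x hx hx2
    obtain ⟨i, -, rfl⟩ := mem_image.mp hx
    obtain ⟨j, -, hj⟩ := mem_image.mp hx2
    exact h.pq i j hj.symm
  have third : ∀ i i' : Fin 3, i ≠ i' → ∃ i'', i'' ≠ i ∧ i'' ≠ i' := by decide
  have hne : ∀ {A A' : Finset (Fin 3)}, Disjoint A A' → ∀ {i i' : Fin 3}, i ∈ A → i' ∈ A' →
      i ≠ i' := by
    intro A A' hAA i i' hi hi' h2
    rw [h2] at hi
    exact (disjoint_left.mp hAA) hi hi'
  refine h.add_aux2 hKP (hpF A) (hpF A') (hqF B) (hqF B') (hpd _ _ hdA) (hqd _ _ hdB)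
    (hpqd _ _) (hpqd _ _) (hpqd _ _) (hpqd _ _) ha hc h0 h1 ha' hc' h0' h1' ?_ ?_ ?_
  · intro x hx y hy h2
    obtain ⟨i, hi, rfl⟩ := mem_image.mp hx
    obtain ⟨i', hi', rfl⟩ := mem_image.mp hy
    have hii := hne hdA hi hi'
    obtain ⟨i'', h3, h4⟩ := third i i' hii
    obtain ⟨j, hj⟩ := hB0
    obtain ⟨j', hj'⟩ := hB0'
    have hjj := hne hdB hj hj'
    obtain ⟨j'', h5, h6⟩ := third j j' hjj
    have h7 := hab i hi i' hi' i'' h3 h4 j hj j' hj' j'' h5 h6
    have h8 := h.cover (T := {p i'', q j''}) (S := {p i, p i'}) (R := b j0) (r := 1)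
      (sub2 (h.pV _) (h.qV _)) (sub2 (h.pV _) (h.pV _)) (cv_block j0 (Subset.refl _))
      (by
        intro k
        rcases fin3_third i i' i'' k hii h3 h4 with rfl | rfl | rfl
        · exact Or.inr (Or.inl (by simp))
        · exact Or.inr (Or.inl (by simp))
        · exact Or.inl (by simp))
      (fun k => Or.inr (Or.inr (h.qi k)))
    unfold Ab at h2 h7
    omega
  · intro x hx y hy h2
    obtain ⟨j, hj, rfl⟩ := mem_image.mp hx
    obtain ⟨j', hj', rfl⟩ := mem_image.mp hy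
    have hjj := hne hdB hj hj'
    obtain ⟨j'', h5, h6⟩ := third j j' hjj
    obtain ⟨i, hi⟩ := hA0
    obtain ⟨i', hi'⟩ := hA0'
    have hii := hne hdA hi hi'
    obtain ⟨i'', h3, h4⟩ := third i i' hii
    have h7 := hab i hi i' hi' i'' h3 h4 j hj j' hj' j'' h5 h6
    have h8 := h.cover (T := {p i'', q j''}) (S := {q j, q j'}) (R := b i0) (r := 1)
      (sub2 (h.pV _) (h.qV _)) (sub2 (h.qV _) (h.qV _)) (cv_block i0 (Subset.refl _))
      (fun k => Or.inr (Or.inr (h.pi k)))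
      (by
        intro k
        rcases fin3_third j j' j'' k hjj h5 h6 with rfl | rfl | rfl
        · exact Or.inr (Or.inl (by simp))
        · exact Or.inr (Or.inl (by simp))
        · exact Or.inl (by simp))
    unfold Ab at h2 h7
    omega
  · intro x hx y hy z hz w hw
    obtain ⟨i, hi, rfl⟩ := mem_image.mp hx
    obtain ⟨i', hi', rfl⟩ := mem_image.mp hy
    obtain ⟨j, hj, rfl⟩ := mem_image.mp hz
    obtain ⟨j', hj', rfl⟩ := mem_image.mp hw
    have hii := hne hdA hi hi'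
    obtain ⟨i'', h3, h4⟩ := third i i' hii
    have hjj := hne hdB hj hj'
    obtain ⟨j'', h5, h6⟩ := third j j' hjj
    have h7 := hab i hi i' hi' i'' h3 h4 j hj j' hj' j'' h5 h6
    have h8 := h.cover (T := {p i'', q j''}) (S := {p i, p i', q j, q j'}) (R := ∅) (r := 0)
      (sub2 (h.pV _) (h.qV _))
      (by
        intro z hz
        rw [mem_insert, mem_insert, mem_insert, mem_singleton] at hz
        rcases hz with rfl | rfl | rfl | rfl
        · exact h.pV _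
        · exact h.pV _
        · exact h.qV _
        · exact h.qV _)
      ⟨∅, by simp, fun x hx => absurd hx (notMem_empty x)⟩
      (by
        intro k
        rcases fin3_third i i' i'' k hii h3 h4 with rfl | rfl | rfl
        · exact Or.inr (Or.inl (by simp))
        · exact Or.inr (Or.inl (by simp))
        · exact Or.inl (by simp))
      (by
        intro k
        rcases fin3_third j j' j'' k hjj h5 h6 with rfl | rfl | rfl
        · exact Or.inr (Or.inl (by simp))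
        · exact Or.inr (Or.inl (by simp))
        · exact Or.inl (by simp))
    unfold Ab at h7
    omega

end

end Pool.Agent.Helper20.C5
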