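import Pool.Agent.Helper20.C5.Red

/-!
# Overlays of two matchings and Gallai's lemma
-/

set_option linter.unusedSectionVars false

open Finset

namespace Pool.Agent.Helper20.C5

variable {α ι : Type} [DecidableEq α] [DecidableEq ι] [Fintype ι]

/-- The overlay graph of two involutions. -/
def Gn (μ ν : α → α) : SimpleGraph α where
  Adj x y := x ≠ y ∧ ((μ x = y ∨ μ y = x) ∨ (ν x = y ∨ ν y = x))
  symm := ⟨by
    rintro x y ⟨h, (h1 | h1) | (h1 | h1)⟩
    · exact ⟨h.symm, Or.inl (Or.inr h1)⟩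
    · exact ⟨h.symm, Or.inl (Or.inl h1)⟩
    · exact ⟨h.symm, Or.inr (Or.inr h1)⟩
    · exact ⟨h.symm, Or.inr (Or.inl h1)⟩⟩
  loopless := ⟨fun x h => h.1 rfl⟩

theorem nonfixed_parts {μ : α → α} {Z : Finset α} (hi : ∀ x, μ (μ x) = x)
    (hZ : ∀ x ∈ Z, μ x ∈ Z) :
    2 * ((Z \ ex μ Z).image fun x => ({x, μ x} : Finset α)).card + (ex μ Z).card = Z.card := by
  have h1 : ∀ x ∈ Z \ ex μ Z, μ x ∈ Z \ ex μ Z := by
    intro x hx
    rw [mem_sdiff, mem_ex] at hx ⊢
    refine ⟨hZ x hx.1, fun h => hx.2 ⟨hx.1, ?_⟩⟩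
    have := h.2
    rw [hi] at this
    exact this.symm
  have h2 := parts_card hi h1
  have h3 : ex μ (Z \ ex μ Z) = ∅ := by
    ext x
    rw [mem_ex, mem_sdiff, mem_ex]
    constructor
    · rintro ⟨⟨h4, h5⟩, h6⟩
      exact absurd ⟨h4, h6⟩ h5
    · exact fun h => absurd h (notMem_empty x)
  have h4 : ex μ Z ⊆ Z := filter_subset _ _
  rw [h3, card_empty, card_sdiff_of_subset h4] at h2
  have := card_le_card h4
  omega

/-- A connected overlay has at most two exposed ends. -/
theorem two_ends {μ ν : α → α} {Z : Finset α} (hμ : ∀ x, μ (μ x) = x) (hν : ∀ x, ν (ν x) = x)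
    (hZμ : ∀ x ∈ Z, μ x ∈ Z) (hZν : ∀ x ∈ Z, ν x ∈ Z) {u : α} (hu : u ∈ Z)
    (hconn : ∀ x ∈ Z, (Gn μ ν).Reachable u x) : (ex μ Z).card + (ex ν Z).card ≤ 2 := by
  classical
  let V := {x // x ∈ Z}
  let Γ : SimpleGraph V := (Gn μ ν).comap Subtype.val
  have hstay : ∀ (x y : α) (p : (Gn μ ν).Walk x y) (hx : x ∈ Z),
      ∃ hy : y ∈ Z, Γ.Reachable ⟨x, hx⟩ ⟨y, hy⟩ := by
    intro x y p
    induction p with
    | nil => exact fun hx => ⟨hx, SimpleGraph.Reachable.refl _⟩
    | @cons x w y hadj q ih =>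
      intro hx
      have hw : w ∈ Z := by
        obtain ⟨-, (h1 | h1) | (h1 | h1)⟩ := (id hadj : (Gn μ ν).Adj x w)
        · rw [← h1]
          exact hZμ x hx
        · have := hZμ x hx
          rwa [← h1, hμ] at this
        · rw [← h1]
          exact hZν x hx
        · have := hZν x hx
          rwa [← h1, hν] at this
      obtain ⟨hy, h2⟩ := ih hw
      refine ⟨hy, SimpleGraph.Reachable.trans (SimpleGraph.Adj.reachable ?_) h2⟩
      exact hadj
  have hne : Nonempty V := ⟨⟨u, hu⟩⟩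
  have hΓ : Γ.Connected := by
    rw [SimpleGraph.connected_iff_exists_forall_reachable]
    refine ⟨⟨u, hu⟩, ?_⟩
    rintro ⟨x, hx⟩
    obtain ⟨p⟩ := hconn x hx
    obtain ⟨_, h⟩ := hstay u x p hu
    exact h
  have h1 := hΓ.card_vert_le_card_edgeSet_add_one
  have hVc : Nat.card V = Z.card := by
    rw [Nat.card_eq_fintype_card, Fintype.card_coe]
  rw [hVc] at h1
  -- edges inject into parts
  let T : Finset (Finset α) := ((Z \ ex μ Z).image fun x => ({x, μ x} : Finset α)) ∪
    ((Z \ ex ν Z).image fun x => ({x, ν x} : Finset α))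
  have hedge : Nat.card Γ.edgeSet ≤ T.card := by
    let f : Sym2 V → Finset α := fun e => Sym2.lift ⟨fun x y => ({x.1, y.1} : Finset α),
      fun x y => pair_comm _ _⟩ e
    have hf : ∀ x y : V, f s(x, y) = {x.1, y.1} := fun x y => rfl
    have hmaps : ∀ e : Γ.edgeSet, f e.1 ∈ T := by
      rintro ⟨e, he⟩
      induction e using Sym2.ind with
      | _ x y =>
        rw [SimpleGraph.mem_edgeSet] at he
        show f s(x, y) ∈ T
        rw [hf]
        obtain ⟨hxy, h⟩ : x.1 ≠ y.1 ∧ ((μ x.1 = y.1 ∨ μ y.1 = x.1) ∨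
          (ν x.1 = y.1 ∨ ν y.1 = x.1)) := he
        rw [mem_union]
        rcases h with (h2 | h2) | (h2 | h2)
        · left
          refine mem_image.mpr ⟨x.1, ?_, by rw [h2]⟩
          rw [mem_sdiff, mem_ex]
          exact ⟨x.2, fun h3 => hxy (h3.2.symm.trans h2)⟩
        · left
          refine mem_image.mpr ⟨y.1, ?_, by rw [h2, pair_comm]⟩
          rw [mem_sdiff, mem_ex]
          exact ⟨y.2, fun h3 => hxy (h2.symm.trans h3.2)⟩
        · right
          refine mem_image.mpr ⟨x.1, ?_, by rw [h2]⟩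
          rw [mem_sdiff, mem_ex]
          exact ⟨x.2, fun h3 => hxy (h3.2.symm.trans h2)⟩
        · right
          refine mem_image.mpr ⟨y.1, ?_, by rw [h2, pair_comm]⟩
          rw [mem_sdiff, mem_ex]
          exact ⟨y.2, fun h3 => hxy (h2.symm.trans h3.2)⟩
    have hinj : ∀ e e' : Sym2 V, f e = f e' → e = e' := by
      intro e e' h
      induction e using Sym2.ind with
      | _ x y =>
        induction e' using Sym2.ind with
        | _ x' y' =>
          rw [hf, hf] at h
          rw [Sym2.eq_iff]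
          have h2 : x.1 ∈ ({x'.1, y'.1} : Finset α) := by
            rw [← h]
            exact mem_insert_self _ _
          have h3 : y.1 ∈ ({x'.1, y'.1} : Finset α) := by
            rw [← h]
            exact mem_insert_of_mem (mem_singleton_self _)
          have h4 : x'.1 ∈ ({x.1, y.1} : Finset α) := by
            rw [h]
            exact mem_insert_self _ _
          have h5 : y'.1 ∈ ({x.1, y.1} : Finset α) := by
            rw [h]
            exact mem_insert_of_mem (mem_singleton_self _)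
          rw [mem_insert, mem_singleton] at h2 h3 h4 h5
          rcases h2 with h2 | h2
          · have e1 : x = x' := Subtype.ext h2
            rcases h5 with h5 | h5
            · rcases h3 with h3 | h3
              · left
                exact ⟨e1, Subtype.ext (h3.trans (h2.symm.trans h5.symm))⟩
              · exact Or.inl ⟨e1, Subtype.ext h3⟩
            · exact Or.inl ⟨e1, Subtype.ext h5.symm⟩
          · have e1 : x = y' := Subtype.ext h2
            rcases h4 with h4 | h4
            · rcases h3 with h3 | h3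
              · exact Or.inr ⟨e1, Subtype.ext h3⟩
              · right
                exact ⟨e1, Subtype.ext (h3.trans (h2.symm.trans h4.symm))⟩
            · exact Or.inr ⟨e1, Subtype.ext h4.symm⟩
    rw [Nat.card_eq_fintype_card, ← card_univ]
    refine card_le_card_of_injOn (fun e => f e.1) (fun e _ => hmaps e) ?_
    intro e _ e' _ h
    exact Subtype.ext (hinj _ _ h)
  have h2 : T.card ≤ ((Z \ ex μ Z).image fun x => ({x, μ x} : Finset α)).card +
      ((Z \ ex ν Z).image fun x => ({x, ν x} : Finset α)).card := card_union_le _ _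
  have h3 := nonfixed_parts hμ hZμ
  have h4 := nonfixed_parts hν hZν
  omega

/-- Mixed matchings. -/
noncomputable def mix (Z : Finset α) (μ ν : α → α) : α → α := fun v => if v ∈ Z then μ v else ν v

theorem mix_mt {b : ι → Finset α} {U Z : Finset α} {μ ν : α → α} (hμ : Mt b U μ)
    (hν : Mt b U ν) (hZμ : ∀ x ∈ Z, μ x ∈ Z) (hZν : ∀ x ∈ Z, ν x ∈ Z) :
    Mt b U (mix Z μ ν) := by
  have hZν' : ∀ x, x ∉ Z → ν x ∉ Z := by
    intro x hx h
    have := hZν _ h
    rw [hν.inv] at this
    exact hx this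
  refine ⟨?_, ?_, ?_⟩
  · intro x
    unfold mix
    by_cases h : x ∈ Z
    · rw [if_pos h, if_pos (hZμ x h), hμ.inv]
    · rw [if_neg h, if_neg (hZν' x h), hν.inv]
  · intro x hx
    unfold mix
    by_cases h : x ∈ Z
    · rw [if_pos h, hμ.out x hx]
    · rw [if_neg h, hν.out x hx]
  · intro x hx
    unfold mix at hx ⊢
    by_cases h : x ∈ Z
    · rw [if_pos h] at hx ⊢
      exact hμ.adj x hx
    · rw [if_neg h] at hx ⊢
      exact hν.adj x hx

theorem mix_ex {U Z : Finset α} {μ ν : α → α} (hZU : Z ⊆ U) :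
    (ex (mix Z μ ν) U).card = (ex μ Z).card + (ex ν (U \ Z)).card := by
  rw [← card_union_of_disjoint]
  · congr 1
    ext v
    rw [mem_union, mem_ex, mem_ex, mem_ex, mem_sdiff]
    unfold mix
    by_cases h : v ∈ Z
    · rw [if_pos h]
      constructor
      · exact fun h1 => Or.inl ⟨h, h1.2⟩
      · rintro (h1 | h1)
        · exact ⟨hZU h, h1.2⟩
        · exact absurd h h1.1.2
    · rw [if_neg h]
      constructor
      · exact fun h1 => Or.inr ⟨⟨h1.1, h⟩, h1.2⟩
      · rintro (h1 | h1)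
        · exact absurd h1.1 h
        · exact ⟨h1.1.1, h1.2⟩
  · rw [disjoint_left]
    intro v hv hv2
    exact (mem_sdiff.mp (mem_ex.mp hv2).1).2 (mem_ex.mp hv).1

theorem mix_self_ex {U Z : Finset α} {μ : α → α} (hZU : Z ⊆ U) :
    (ex μ U).card = (ex μ Z).card + (ex μ (U \ Z)).card := by
  have := mix_ex (μ := μ) (ν := μ) hZU
  have e : mix Z μ μ = μ := by
    funext v
    unfold mix
    rw [ite_self]
  rwa [e] at this

/-- The mixture of two optimal matchings is optimal. -/
theorem mix_om {b : ι → Finset α} {U Z : Finset α} {μ ν : α → α} (hc : Cb b U) (hμ : Om b U μ)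
    (hν : Om b U ν) (hZU : Z ⊆ U) (hZμ : ∀ x ∈ Z, μ x ∈ Z) (hZν : ∀ x ∈ Z, ν x ∈ Z) :
    Om b U (mix Z μ ν) := by
  refine ⟨mix_mt hμ.1 hν.1 hZμ hZν, ?_⟩
  have h1 := (mix_mt hν.1 hμ.1 hZν hZμ).two_tau_le hc
  have h2 := (mix_mt hμ.1 hν.1 hZμ hZν).two_tau_le hc
  rw [mix_ex hZU] at h1 h2 ⊢
  have h3 := hμ.2
  have h4 := hν.2
  have h5 := mix_self_ex (μ := μ) hZU
  have h6 := mix_self_ex (μ := ν) hZU
  omega

/-- The block graph. -/
def Bg (b : ι → Finset α) (U : Finset α) : SimpleGraph α where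
  Adj x y := x ≠ y ∧ x ∈ U ∧ y ∈ U ∧ ∃ i, x ∈ b i ∧ y ∈ b i
  symm := ⟨by
    rintro x y ⟨h, h1, h2, i, h3, h4⟩
    exact ⟨h.symm, h2, h1, i, h4, h3⟩⟩
  loopless := ⟨fun x h => h.1 rfl⟩

open Classical in
/-- The component of `x` in the overlay. -/
noncomputable def Zc (μ ν : α → α) (U : Finset α) (x : α) : Finset α :=
  U.filter fun v => (Gn μ ν).Reachable x v

theorem mem_Zc {μ ν : α → α} {U : Finset α} {x v : α} :
    v ∈ Zc μ ν U x ↔ v ∈ U ∧ (Gn μ ν).Reachable x v := by
  classical
  unfold Zc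
  rw [mem_filter]

theorem comp_closed {μ ν : α → α} {U : Finset α} (hμU : ∀ x ∈ U, μ x ∈ U) (x : α) :
    ∀ v ∈ Zc μ ν U x, μ v ∈ Zc μ ν U x := by
  intro v hv
  rw [mem_Zc] at hv ⊢
  by_cases h : μ v = v
  · rwa [h]
  · exact ⟨hμU v hv.1, hv.2.trans (SimpleGraph.Adj.reachable
      (show (Gn μ ν).Adj v (μ v) from ⟨Ne.symm h, Or.inl (Or.inl rfl)⟩))⟩

theorem comp_closed' {μ ν : α → α} {U : Finset α} (hνU : ∀ x ∈ U, ν x ∈ U) (x : α) :
    ∀ v ∈ Zc μ ν U x, ν v ∈ Zc μ ν U x := by
  intro v hv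
  rw [mem_Zc] at hv ⊢
  by_cases h : ν v = v
  · rwa [h]
  · exact ⟨hνU v hv.1, hv.2.trans (SimpleGraph.Adj.reachable
      (show (Gn μ ν).Adj v (ν v) from ⟨Ne.symm h, Or.inr (Or.inl rfl)⟩))⟩

/-- **L2** (Gallai's lemma). -/
theorem gallai {b : ι → Finset α} {U : Finset α} (hc : Cb b U)
    (hconn : ∀ x ∈ U, ∀ y ∈ U, (Bg b U).Reachable x y)
    (hall : ∀ x ∈ U, ∃ ν, Om b U ν ∧ ν x = x) {μ : α → α} (hμ : Om b U μ) :
    (ex μ U).card ≤ 1 := by
  classical
  have key : ∀ (d : ℕ) (x y : α), x ∈ U → y ∈ U → x ≠ y → (Bg b U).dist x y = d →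
      ∀ μ, Om b U μ → μ x = x → μ y = y → False := by
    intro d
    induction d using Nat.strong_induction_on with
    | _ d ih =>
      intro x y hx hy hxy hd μ hμ hμx hμy
      obtain ⟨p, hp⟩ := (hconn x hx y hy).exists_walk_length_eq_dist
      rw [hd] at hp
      cases p with
      | nil => exact hxy rfl
      | @cons _ w _ h q =>
        rw [SimpleGraph.Walk.length_cons] at hp
        obtain ⟨hxw, -, hw, i, hi, hi2⟩ := h
        by_cases hwy : w = y
        · subst hwy
          exact om_exposed hμ hc hx hy hxy hμx hμy hi hi2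
        have hdw : (Bg b U).dist w y < d := by
          have := SimpleGraph.dist_le q
          omega
        obtain ⟨ν, hν, hνw⟩ := hall w hw
        have hμw : μ w ≠ w := fun h => om_exposed hμ hc hx hw hxw hμx h hi hi2
        -- component of x
        set Z := Zc μ ν U x with hZ
        have hZU : Z ⊆ U := fun v hv => (mem_Zc.mp hv).1
        have hZμ := comp_closed (μ := μ) (ν := ν) (fun x hx => hμ.1.mem hx) x
        have hZν := comp_closed' (μ := μ) (ν := ν) (fun x hx => hν.1.mem hx) x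
        have hxZ : x ∈ Z := mem_Zc.mpr ⟨hx, SimpleGraph.Reachable.refl x⟩
        have hwZ : w ∈ Z := by
          by_contra hwZ
          have h1 := mix_om hc hμ hν hZU hZμ hZν
          refine om_exposed h1 hc hx hw hxw ?_ ?_ hi hi2
          · unfold mix
            rw [if_pos hxZ, hμx]
          · unfold mix
            rw [if_neg hwZ, hνw]
        -- component of y
        set Z' := Zc μ ν U y with hZ'
        have hZU' : Z' ⊆ U := fun v hv => (mem_Zc.mp hv).1
        have hZμ' := comp_closed (μ := μ) (ν := ν) (fun x hx => hμ.1.mem hx) y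
        have hZν' := comp_closed' (μ := μ) (ν := ν) (fun x hx => hν.1.mem hx) y
        have hyZ' : y ∈ Z' := mem_Zc.mpr ⟨hy, SimpleGraph.Reachable.refl y⟩
        have hwZ' : w ∈ Z' := by
          by_contra hwZ
          have h1 := mix_om hc hμ hν hZU' hZμ' hZν'
          refine ih _ hdw w y hw hy hwy rfl _ h1 ?_ ?_
          · unfold mix
            rw [if_neg hwZ, hνw]
          · unfold mix
            rw [if_pos hyZ', hμy]
        have hyZ : y ∈ Z := by
          rw [hZ, mem_Zc]
          refine ⟨hy, ?_⟩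
          have h1 := (mem_Zc.mp hwZ).2
          have h2 := (mem_Zc.mp hwZ').2
          exact h1.trans h2.symm
        have h1 := two_ends (Z := Z) hμ.1.inv hν.1.inv hZμ hZν hxZ
          (fun v hv => (mem_Zc.mp hv).2)
        have h2 : ({x, y} : Finset α) ⊆ ex μ Z := by
          intro v hv
          rw [mem_insert, mem_singleton] at hv
          rw [mem_ex]
          rcases hv with rfl | rfl
          · exact ⟨hxZ, hμx⟩
          · exact ⟨hyZ, hμy⟩
        have h3 : w ∈ ex ν Z := mem_ex.mpr ⟨hwZ, hνw⟩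
        have h4 := card_le_card h2
        rw [card_pair hxy] at h4
        have h5 : 0 < (ex ν Z).card := card_pos.mpr ⟨w, h3⟩
        omega
  by_contra hcon
  obtain ⟨x, hx, y, hy, hxy⟩ := one_lt_card.mp (not_le.mp hcon)
  rw [mem_ex] at hx hy
  exact key _ x y hx.1 hy.1 hxy rfl μ hμ hx.2 hy.2

end Pool.Agent.Helper20.C5
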