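import Pool.Agent.Helper20.C5.Tau

/-!
# Redundant points (a substitute for the Gallai-Edmonds theorem)

If `U` is in `CC`, `u` is missed by an optimal matching, `a` is in a block with `u` and is not missed
by any optimal matching, then `tau (U - a) = tau U`.
-/

set_option linter.unusedSectionVars false

open Finset

namespace Pool.Agent.Helper20.C5

variable {α ι : Type} [DecidableEq α] [DecidableEq ι] [Fintype ι]

/-- Replace `x - x, y - z` by `x - y, z - z`. -/
def shf (μ : α → α) (x y z : α) : α → α := fun v =>
  if v = x then y else if v = y then x else if v = z then z else μ v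

theorem shf_om {b : ι → Finset α} {U : Finset α} {μ : α → α} (h : Om b U μ) {x y : α}
    (hx : x ∈ U) (hy : y ∈ U) (hxy : x ≠ y) (hμ : μ x = x) (hyy : μ y ≠ y) {i : ι}
    (hi : x ∈ b i) (hi2 : y ∈ b i) : Om b U (shf μ x y (μ y)) := by
  have hzx : μ y ≠ x := by
    intro h1
    have h2 := h.1.inv y
    rw [h1, hμ] at h2
    exact hxy h2
  have hzU := h.1.mem hy
  refine ⟨⟨?_, ?_, ?_⟩, ?_⟩
  · intro v
    unfold shf
    by_cases h1 : v = x
    · subst h1
      rw [if_pos rfl, if_neg (Ne.symm hxy), if_pos rfl]
    rw [if_neg h1]
    by_cases h2 : v = y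
    · subst h2
      rw [if_pos rfl, if_pos rfl]
    rw [if_neg h2]
    by_cases h3 : v = μ y
    · rw [if_pos h3, if_neg hzx, if_neg hyy, if_pos rfl]
      exact h3.symm
    rw [if_neg h3]
    have h4 : μ v ≠ x := by
      intro h5
      have h6 := h.1.inv v
      rw [h5, hμ] at h6
      exact h1 h6.symm
    have h5 : μ v ≠ y := by
      intro h5
      have h6 := h.1.inv v
      rw [h5] at h6
      exact h3 h6.symm
    have h6 : μ v ≠ μ y := by
      intro h5
      have h6 := h.1.inv v
      rw [h5, h.1.inv] at h6
      exact h2 h6.symm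
    rw [if_neg h4, if_neg h5, if_neg h6]
    exact h.1.inv v
  · intro v hv
    have h1 : v ≠ x := fun h => hv (h ▸ hx)
    have h2 : v ≠ y := fun h => hv (h ▸ hy)
    unfold shf
    rw [if_neg h1, if_neg h2]
    by_cases h3 : v = μ y
    · rw [if_pos h3]
      exact h3.symm
    · rw [if_neg h3]
      exact h.1.out v hv
  · intro v hv
    unfold shf at hv ⊢
    by_cases h1 : v = x
    · subst h1
      rw [if_pos rfl]
      exact ⟨i, hi, hi2⟩
    rw [if_neg h1] at hv ⊢
    by_cases h2 : v = y
    · subst h2
      rw [if_pos rfl]
      exact ⟨i, hi2, hi⟩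
    rw [if_neg h2] at hv ⊢
    by_cases h3 : v = μ y
    · rw [if_pos h3] at hv
      exact absurd h3.symm hv
    rw [if_neg h3] at hv ⊢
    exact h.1.adj v hv
  · have e : ex (shf μ x y (μ y)) U = insert (μ y) ((ex μ U).erase x) := by
      ext v
      rw [mem_ex, mem_insert, mem_erase, mem_ex]
      unfold shf
      by_cases h1 : v = x
      · subst h1
        rw [if_pos rfl]
        constructor
        · exact fun h => absurd h.2 (Ne.symm hxy)
        · rintro (h | h)
          · exact absurd h.symm hzx
          · exact absurd rfl h.1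
      rw [if_neg h1]
      by_cases h2 : v = y
      · subst h2
        rw [if_pos rfl]
        constructor
        · exact fun h => absurd h.2 hxy
        · rintro (h | h)
          · exact absurd h.symm hyy
          · exact absurd h.2.2 hyy
      rw [if_neg h2]
      by_cases h3 : v = μ y
      · rw [if_pos h3]
        constructor
        · exact fun _ => Or.inl h3
        · exact fun _ => ⟨h3 ▸ hzU, h3.symm⟩
      rw [if_neg h3]
      constructor
      · exact fun h => Or.inr ⟨h1, h⟩
      · rintro (h | h)
        · exact absurd h h3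
        · exact h.2
    have h1 : μ y ∉ (ex μ U).erase x := by
      rw [mem_erase, mem_ex]
      rintro ⟨-, -, h2⟩
      rw [h.1.inv] at h2
      exact hyy h2.symm
    have h2 : x ∈ ex μ U := mem_ex.mpr ⟨hx, hμ⟩
    rw [e, card_insert_of_notMem h1, card_erase_of_mem h2]
    have h3 : 0 < (ex μ U).card := card_pos.mpr ⟨x, h2⟩
    have := h.2
    omega

/-- Two exposed points of an optimal matching are not in a common block. -/
theorem om_exposed {b : ι → Finset α} {U : Finset α} {μ : α → α} (h : Om b U μ) (hc : Cb b U)
    {x y : α} (hx : x ∈ U) (hy : y ∈ U) (hxy : x ≠ y) (hμx : μ x = x) (hμy : μ y = y) {i : ι}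
    (hi : x ∈ b i) (hi2 : y ∈ b i) : False := by
  let ν : α → α := fun v => if v = x then y else if v = y then x else μ v
  have hν : Mt b U ν := by
    refine ⟨?_, ?_, ?_⟩
    · intro v
      show ν (ν v) = v
      by_cases h1 : v = x
      · have e1 : ν v = y := if_pos h1
        have e2 : ν y = x := by
          show (if y = x then y else if y = y then x else μ y) = x
          rw [if_neg (Ne.symm hxy), if_pos rfl]
        rw [e1, e2, h1]
      by_cases h2 : v = y
      · have e1 : ν v = x := by
          show (if v = x then y else if v = y then x else μ v) = x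
          rw [if_neg h1, if_pos h2]
        have e2 : ν x = y := if_pos rfl
        rw [e1, e2, h2]
      have e1 : ν v = μ v := by
        show (if v = x then y else if v = y then x else μ v) = μ v
        rw [if_neg h1, if_neg h2]
      have h4 : μ v ≠ x := by
        intro h5
        have h6 := h.1.inv v
        rw [h5, hμx] at h6
        exact h1 h6.symm
      have h5 : μ v ≠ y := by
        intro h5
        have h6 := h.1.inv v
        rw [h5, hμy] at h6
        exact h2 h6.symm
      have e2 : ν (μ v) = μ (μ v) := by
        show (if μ v = x then y else if μ v = y then x else μ (μ v)) = μ (μ v)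
        rw [if_neg h4, if_neg h5]
      rw [e1, e2, h.1.inv]
    · intro v hv
      have h1 : v ≠ x := fun h => hv (h ▸ hx)
      have h2 : v ≠ y := fun h => hv (h ▸ hy)
      show (if v = x then y else if v = y then x else μ v) = v
      rw [if_neg h1, if_neg h2]
      exact h.1.out v hv
    · intro v hv
      by_cases h1 : v = x
      · have e1 : ν v = y := if_pos h1
        rw [e1, h1]
        exact ⟨i, hi, hi2⟩
      by_cases h2 : v = y
      · have e1 : ν v = x := by
          show (if v = x then y else if v = y then x else μ v) = x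
          rw [if_neg h1, if_pos h2]
        rw [e1, h2]
        exact ⟨i, hi2, hi⟩
      have e1 : ν v = μ v := by
        show (if v = x then y else if v = y then x else μ v) = μ v
        rw [if_neg h1, if_neg h2]
      rw [e1] at hv ⊢
      exact h.1.adj v hv
  have e : ex ν U = ((ex μ U).erase x).erase y := by
    ext v
    rw [mem_ex, mem_erase, mem_erase, mem_ex]
    by_cases h1 : v = x
    · have e1 : ν v = y := if_pos h1
      rw [e1]
      constructor
      · exact fun h => absurd (h.2.trans h1) (Ne.symm hxy)
      · exact fun h => absurd h1 h.2.1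
    by_cases h2 : v = y
    · have e1 : ν v = x := by
        show (if v = x then y else if v = y then x else μ v) = x
        rw [if_neg h1, if_pos h2]
      rw [e1]
      constructor
      · exact fun h => absurd (h.2.trans h2) hxy
      · exact fun h => absurd h2 h.1
    have e1 : ν v = μ v := by
      show (if v = x then y else if v = y then x else μ v) = μ v
      rw [if_neg h1, if_neg h2]
    rw [e1]
    constructor
    · exact fun h => ⟨h2, h1, h⟩
    · exact fun h => h.2.2
  have h2 : x ∈ ex μ U := mem_ex.mpr ⟨hx, hμx⟩
  have h3 : y ∈ (ex μ U).erase x := mem_erase.mpr ⟨Ne.symm hxy, mem_ex.mpr ⟨hy, hμy⟩⟩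
  have h4 := hν.two_tau_le hc
  rw [e, card_erase_of_mem h3, card_erase_of_mem h2] at h4
  have h5 : 0 < (ex μ U).card := card_pos.mpr ⟨x, h2⟩
  have h6 : 0 < ((ex μ U).erase x).card := card_pos.mpr ⟨y, h3⟩
  rw [card_erase_of_mem h2] at h6
  have := h.2
  omega

/-- The overlay graph of a matching and an assignment. -/
def Gm (μ : α → α) (c : α → ι) (W : Finset α) : SimpleGraph α where
  Adj x y := x ≠ y ∧ (μ x = y ∨ μ y = x ∨ (x ∈ W ∧ y ∈ W ∧ c x = c y))
  symm := ⟨by
    rintro x y ⟨h, h1 | h1 | ⟨h1, h2, h3⟩⟩
    · exact ⟨h.symm, Or.inr (Or.inl h1)⟩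
    · exact ⟨h.symm, Or.inl h1⟩
    · exact ⟨h.symm, Or.inr (Or.inr ⟨h2, h1, h3.symm⟩)⟩⟩
  loopless := ⟨fun x h => h.1 rfl⟩

theorem path_case {b : ι → Finset α} {U : Finset α} (hc : Cb b U) {a : α} {c : α → ι}
    (hcb : ∀ x ∈ U.erase a, x ∈ b (c x)) : ∀ (r : ℕ) (μ : α → α) (x : α), Om b U μ → x ∈ U →
    μ x = x → ∀ p : (Gm μ c (U.erase a)).Walk x a, p.length = r → ∃ ν, Om b U ν ∧ ν a = a := by
  intro r
  induction r using Nat.strong_induction_on with
  | _ r ih =>
    intro μ x hμ hx hxx p hp
    by_cases hshort : ∃ q : (Gm μ c (U.erase a)).Walk x a, q.length < r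
    · obtain ⟨q, hq⟩ := hshort
      exact ih q.length hq μ x hμ hx hxx q rfl
    have hmin : ∀ q : (Gm μ c (U.erase a)).Walk x a, r ≤ q.length := fun q =>
      not_lt.mp fun h => hshort ⟨q, h⟩
    cases p with
    | nil => exact ⟨μ, hμ, hxx⟩
    | @cons _ y _ h q =>
      rw [SimpleGraph.Walk.length_cons] at hp
      obtain ⟨hxy, h1 | h1 | ⟨hxW, hyW, hcc⟩⟩ := h
      · exact absurd (hxx.symm.trans h1) hxy
      · have := hμ.1.inv y
        rw [h1, hxx] at this
        exact absurd this hxy
      have hyU := mem_of_mem_erase hyW
      have hbx : x ∈ b (c x) := hcb x hxW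
      have hby : y ∈ b (c x) := hcc ▸ hcb y hyW
      have hyy : μ y ≠ y := fun h => om_exposed hμ hc hx hyU hxy hxx h hbx hby
      have hadj : (Gm μ c (U.erase a)).Adj x y := ⟨hxy, Or.inr (Or.inr ⟨hxW, hyW, hcc⟩)⟩
      cases q with
      | nil => exact absurd rfl (ne_of_mem_erase hyW)
      | @cons _ z _ h2 q2 =>
        rw [SimpleGraph.Walk.length_cons] at hp
        have hz : μ y = z := by
          obtain ⟨hyz, h3 | h3 | ⟨-, hzW, hcz⟩⟩ := h2
          · exact h3
          · rw [← h3, hμ.1.inv]
          · exfalso
            by_cases hxz : x = z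
            · subst hxz
              have := hmin q2
              omega
            · have h4 : (Gm μ c (U.erase a)).Adj x z :=
                ⟨hxz, Or.inr (Or.inr ⟨hxW, hzW, hcc.trans hcz⟩)⟩
              have := hmin (SimpleGraph.Walk.cons h4 q2)
              rw [SimpleGraph.Walk.length_cons] at this
              omega
        subst hz
        have hxs : x ∉ q2.support := by
          intro hs
          have h4 := hmin (q2.dropUntil x hs)
          have h5 := q2.length_dropUntil_le_length hs
          omega
        have hys : y ∉ q2.support := by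
          intro hs
          have h4 := hmin (SimpleGraph.Walk.cons hadj (q2.dropUntil y hs))
          rw [SimpleGraph.Walk.length_cons] at h4
          have h5 := q2.length_dropUntil_le_length hs
          omega
        have hom := shf_om hμ hx hyU hxy hxx hyy hbx hby
        have hzz : shf μ x y (μ y) (μ y) = μ y := by
          unfold shf
          have hzx : μ y ≠ x := by
            intro h1
            have h2 := hμ.1.inv y
            rw [h1, hxx] at h2
            exact hxy h2
          rw [if_neg hzx, if_neg hyy, if_pos rfl]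
        have htr : ∀ e ∈ q2.edges, e ∈ (Gm (shf μ x y (μ y)) c (U.erase a)).edgeSet := by
          intro e he
          induction e using Sym2.ind with
          | _ v w =>
            have hv := q2.fst_mem_support_of_mem_edges he
            have hw := q2.snd_mem_support_of_mem_edges he
            have hadj2 := q2.adj_of_mem_edges he
            rw [SimpleGraph.mem_edgeSet]
            have hvx : v ≠ x := fun h => hxs (h ▸ hv)
            have hvy : v ≠ y := fun h => hys (h ▸ hv)
            have hwx : w ≠ x := fun h => hxs (h ▸ hw)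
            have hwy : w ≠ y := fun h => hys (h ▸ hw)
            have key : ∀ s t, s ≠ x → s ≠ y → t ≠ y → μ s = t →
                shf μ x y (μ y) s = t := by
              intro s t h1 h2 h3 h4
              unfold shf
              have h5 : s ≠ μ y := by
                intro h5
                rw [h5, hμ.1.inv] at h4
                exact h3 h4.symm
              rw [if_neg h1, if_neg h2, if_neg h5, h4]
            obtain ⟨hvw, h3 | h3 | h3⟩ := hadj2
            · exact ⟨hvw, Or.inl (key v w hvx hvy hwy h3)⟩
            · exact ⟨hvw, Or.inr (Or.inl (key w v hwx hwy hvy h3))⟩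
            · exact ⟨hvw, Or.inr (Or.inr h3)⟩
        exact ih q2.length (by omega) _ (μ y) hom (hμ.1.mem hyU) hzz (q2.transfer _ htr)
          (SimpleGraph.Walk.length_transfer _ _)

/-- **L1.** -/
theorem redundant {b : ι → Finset α} {U : Finset α} (hc : Cb b U) {μ : α → α} (hμ : Om b U μ)
    {u a : α} (hu : u ∈ U) (ha : a ∈ U) (hua : u ≠ a) {i : ι} (hi : u ∈ b i) (hi2 : a ∈ b i)
    (huu : μ u = u) (hna : ∀ ν, Om b U ν → ν a ≠ a) : tau b (U.erase a) = tau b U := by
  classical
  have hle := tau_mono hc (erase_subset a U)
  by_contra hne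
  have hlt : tau b (U.erase a) < tau b U := lt_of_le_of_ne hle hne
  have hcW : Cb b (U.erase a) := hc.mono (erase_subset a U)
  obtain ⟨c, hcb, hcc⟩ := exists_assign hcW ⟨u, mem_erase.mpr ⟨hua, hu⟩⟩
  set W := U.erase a with hW
  set Z := U.filter fun v => (Gm μ c W).Reachable u v with hZ
  have haZ : ¬ (Gm μ c W).Reachable u a := by
    rintro ⟨p⟩
    obtain ⟨ν, h1, h2⟩ := path_case hc (a := a) hcb p.length μ u hμ hu huu p rfl
    exact hna ν h1 h2
  have hZU : Z ⊆ U := filter_subset _ _
  have hmZ : ∀ v, v ∈ Z ↔ v ∈ U ∧ (Gm μ c W).Reachable u v := fun v => by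
    rw [hZ, mem_filter]
  have huZ : u ∈ Z := (hmZ u).mpr ⟨hu, SimpleGraph.Reachable.refl u⟩
  have hZW : ∀ v ∈ Z, v ∈ W := by
    intro v hv
    rw [hW, mem_erase]
    refine ⟨?_, hZU hv⟩
    rintro rfl
    exact haZ ((hmZ _).mp hv).2
  have hZμ : ∀ v ∈ Z, μ v ∈ Z := by
    intro v hv
    by_cases h : μ v = v
    · rwa [h]
    · rw [hmZ]
      refine ⟨hμ.1.mem (hZU hv), ((hmZ v).mp hv).2.trans ?_⟩
      exact SimpleGraph.Adj.reachable (show (Gm μ c W).Adj v (μ v) from
        ⟨Ne.symm h, Or.inl rfl⟩)
  have hZμ' : ∀ v ∈ U \ Z, μ v ∈ U \ Z := by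
    intro v hv
    rw [mem_sdiff] at hv ⊢
    refine ⟨hμ.1.mem hv.1, fun h => hv.2 ?_⟩
    have := hZμ _ h
    rwa [hμ.1.inv] at this
  have hZc : ∀ v ∈ Z, ∀ w ∈ W, c v = c w → w ∈ Z := by
    intro v hv w hw h
    by_cases h1 : v = w
    · rwa [← h1]
    · rw [hmZ]
      refine ⟨mem_of_mem_erase hw, ((hmZ v).mp hv).2.trans ?_⟩
      exact SimpleGraph.Adj.reachable (show (Gm μ c W).Adj v w from
        ⟨h1, Or.inr (Or.inr ⟨hZW v hv, hw, h⟩)⟩)
  let l : α → Finset α := fun v => {v, μ v}
  -- first mixed cover: `c` on `Z`, `μ` outside
  have h1 : tau b U ≤ (Z.image c).card + ((U \ Z).image l).card := by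
    let κ : α → Finset α ⊕ ι := fun v => if v ∈ Z then Sum.inr (c v) else Sum.inl (l v)
    have hκ : tau b U ≤ (U.image κ).card := by
      apply tau_label
      intro y hy
      obtain ⟨v, hv, rfl⟩ := mem_image.mp hy
      by_cases hvZ : v ∈ Z
      · refine ⟨c v, fun w hw hwv => ?_⟩
        have e1 : κ v = Sum.inr (c v) := if_pos hvZ
        rw [e1] at hwv
        by_cases hwZ : w ∈ Z
        · have e2 : κ w = Sum.inr (c w) := if_pos hwZ
          rw [e2] at hwv
          have e3 : c w = c v := Sum.inr_injective hwv
          rw [← e3]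
          exact hcb w (hZW w hwZ)
        · have e2 : κ w = Sum.inl (l w) := if_neg hwZ
          rw [e2] at hwv
          exact absurd hwv Sum.inl_ne_inr
      · have e1 : κ v = Sum.inl (l v) := if_neg hvZ
        obtain ⟨j, hj⟩ : ∃ j, ∀ w ∈ l v, w ∈ b j := by
          by_cases hf : μ v = v
          · obtain ⟨j, hj⟩ := hc v hv
            refine ⟨j, fun w hw => ?_⟩
            have : w ∈ ({v, μ v} : Finset α) := hw
            rw [hf, pair_eq_singleton, mem_singleton] at this
            rw [this]
            exact hj
          · obtain ⟨j, hj, hj2⟩ := hμ.1.adj v hf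
            refine ⟨j, fun w hw => ?_⟩
            have : w ∈ ({v, μ v} : Finset α) := hw
            rw [mem_insert, mem_singleton] at this
            rcases this with rfl | rfl
            · exact hj
            · exact hj2
        refine ⟨j, fun w hw hwv => ?_⟩
        rw [e1] at hwv
        by_cases hwZ : w ∈ Z
        · have e2 : κ w = Sum.inr (c w) := if_pos hwZ
          rw [e2] at hwv
          exact absurd hwv Sum.inr_ne_inl
        · have e2 : κ w = Sum.inl (l w) := if_neg hwZ
          rw [e2] at hwv
          have e3 : l w = l v := Sum.inl_injective hwv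
          apply hj
          rw [← e3]
          exact mem_insert_self _ _
    refine hκ.trans ?_
    have hsub : U.image κ ⊆ ((Z.image c).image Sum.inr) ∪ (((U \ Z).image l).image Sum.inl) := by
      intro y hy
      obtain ⟨v, hv, rfl⟩ := mem_image.mp hy
      rw [mem_union]
      by_cases hvZ : v ∈ Z
      · left
        have e1 : κ v = Sum.inr (c v) := if_pos hvZ
        rw [e1]
        exact mem_image_of_mem _ (mem_image_of_mem _ hvZ)
      · right
        have e1 : κ v = Sum.inl (l v) := if_neg hvZ
        rw [e1]
        exact mem_image_of_mem _ (mem_image_of_mem _ (mem_sdiff.mpr ⟨hv, hvZ⟩))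
    exact (card_le_card hsub).trans ((card_union_le _ _).trans
      (add_le_add card_image_le card_image_le))
  -- second mixed cover: `μ` on `Z` with `a` joined to `u`, `c` outside
  have h2 : tau b U ≤ (Z.image l).card + ((W \ Z).image c).card := by
    let κ : α → Finset α ⊕ ι := fun v =>
      if v = a then Sum.inl (l u) else if v ∈ Z then Sum.inl (l v) else Sum.inr (c v)
    have hlu : l u = {u} := by
      show ({u, μ u} : Finset α) = {u}
      rw [huu, pair_eq_singleton]
    have hκ : tau b U ≤ (U.image κ).card := by
      apply tau_label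
      intro y hy
      obtain ⟨v, hv, rfl⟩ := mem_image.mp hy
      -- the label of `u` and `a`
      have hmem : ∀ w ∈ U, ∀ T : Finset α, κ w = Sum.inl T → (w = a ∧ T = {u}) ∨
          (w ∈ Z ∧ T = l w) := by
        intro w hw T hT
        by_cases h3 : w = a
        · have e1 : κ w = Sum.inl (l u) := if_pos h3
          rw [e1] at hT
          have := Sum.inl_injective hT
          exact Or.inl ⟨h3, by rw [← this, hlu]⟩
        by_cases h4 : w ∈ Z
        · have e1 : κ w = Sum.inl (l w) := by
            show (if w = a then Sum.inl (l u) else if w ∈ Z then Sum.inl (l w)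
              else Sum.inr (c w)) = Sum.inl (l w)
            rw [if_neg h3, if_pos h4]
          rw [e1] at hT
          exact Or.inr ⟨h4, (Sum.inl_injective hT).symm⟩
        · have e1 : κ w = Sum.inr (c w) := by
            show (if w = a then Sum.inl (l u) else if w ∈ Z then Sum.inl (l w)
              else Sum.inr (c w)) = Sum.inr (c w)
            rw [if_neg h3, if_neg h4]
          rw [e1] at hT
          exact absurd hT Sum.inr_ne_inl
      by_cases hva : v = a ∨ v = u
      · have e1 : κ v = Sum.inl {u} := by
          rcases hva with rfl | rfl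
          · have e1 : κ v = Sum.inl (l u) := if_pos rfl
            rw [e1, hlu]
          · show (if v = a then Sum.inl (l v) else if v ∈ Z then Sum.inl (l v)
              else Sum.inr (c v)) = Sum.inl {v}
            rw [if_neg hua, if_pos huZ, hlu]
        refine ⟨i, fun w hw hwv => ?_⟩
        rw [e1] at hwv
        rcases hmem w hw _ hwv with ⟨rfl, -⟩ | ⟨hwZ, h3⟩
        · exact hi2
        · have h4 : w ∈ l w := mem_insert_self _ _
          rw [← h3, mem_singleton] at h4
          rw [h4]
          exact hi
      rw [not_or] at hva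
      by_cases hvZ : v ∈ Z
      · have e1 : κ v = Sum.inl (l v) := by
          show (if v = a then Sum.inl (l u) else if v ∈ Z then Sum.inl (l v)
            else Sum.inr (c v)) = Sum.inl (l v)
          rw [if_neg hva.1, if_pos hvZ]
        obtain ⟨j, hj⟩ : ∃ j, ∀ w ∈ l v, w ∈ b j := by
          by_cases hf : μ v = v
          · obtain ⟨j, hj⟩ := hc v hv
            refine ⟨j, fun w hw => ?_⟩
            have : w ∈ ({v, μ v} : Finset α) := hw
            rw [hf, pair_eq_singleton, mem_singleton] at this
            rw [this]
            exact hj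
          · obtain ⟨j, hj, hj2⟩ := hμ.1.adj v hf
            refine ⟨j, fun w hw => ?_⟩
            have : w ∈ ({v, μ v} : Finset α) := hw
            rw [mem_insert, mem_singleton] at this
            rcases this with rfl | rfl
            · exact hj
            · exact hj2
        refine ⟨j, fun w hw hwv => ?_⟩
        rw [e1] at hwv
        rcases hmem w hw _ hwv with ⟨-, h3⟩ | ⟨hwZ, h3⟩
        · exfalso
          have h4 : v ∈ l v := mem_insert_self _ _
          rw [h3, mem_singleton] at h4
          exact hva.2 h4
        · apply hj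
          rw [h3]
          exact mem_insert_self _ _
      · have e1 : κ v = Sum.inr (c v) := by
          show (if v = a then Sum.inl (l u) else if v ∈ Z then Sum.inl (l v)
            else Sum.inr (c v)) = Sum.inr (c v)
          rw [if_neg hva.1, if_neg hvZ]
        refine ⟨c v, fun w hw hwv => ?_⟩
        rw [e1] at hwv
        by_cases h3 : w = a
        · have e2 : κ w = Sum.inl (l u) := if_pos h3
          rw [e2] at hwv
          exact absurd hwv Sum.inl_ne_inr
        by_cases h4 : w ∈ Z
        · have e2 : κ w = Sum.inl (l w) := by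
            show (if w = a then Sum.inl (l u) else if w ∈ Z then Sum.inl (l w)
              else Sum.inr (c w)) = Sum.inl (l w)
            rw [if_neg h3, if_pos h4]
          rw [e2] at hwv
          exact absurd hwv Sum.inl_ne_inr
        · have e2 : κ w = Sum.inr (c w) := by
            show (if w = a then Sum.inl (l u) else if w ∈ Z then Sum.inl (l w)
              else Sum.inr (c w)) = Sum.inr (c w)
            rw [if_neg h3, if_neg h4]
          rw [e2] at hwv
          rw [← Sum.inr_injective hwv]
          exact hcb w (mem_erase.mpr ⟨h3, hw⟩)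
    refine hκ.trans ?_
    have hsub : U.image κ ⊆ ((Z.image l).image Sum.inl) ∪ (((W \ Z).image c).image Sum.inr) := by
      intro y hy
      obtain ⟨v, hv, rfl⟩ := mem_image.mp hy
      rw [mem_union]
      by_cases h3 : v = a
      · left
        have e2 : κ v = Sum.inl (l u) := if_pos h3
        rw [e2]
        exact mem_image_of_mem _ (mem_image_of_mem _ huZ)
      by_cases h4 : v ∈ Z
      · left
        have e2 : κ v = Sum.inl (l v) := by
          show (if v = a then Sum.inl (l u) else if v ∈ Z then Sum.inl (l v)
            else Sum.inr (c v)) = Sum.inl (l v)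
          rw [if_neg h3, if_pos h4]
        rw [e2]
        exact mem_image_of_mem _ (mem_image_of_mem _ h4)
      · right
        have e2 : κ v = Sum.inr (c v) := by
          show (if v = a then Sum.inl (l u) else if v ∈ Z then Sum.inl (l v)
            else Sum.inr (c v)) = Sum.inr (c v)
          rw [if_neg h3, if_neg h4]
        rw [e2]
        exact mem_image_of_mem _ (mem_image_of_mem _
          (mem_sdiff.mpr ⟨mem_erase.mpr ⟨h3, hv⟩, h4⟩))
    exact (card_le_card hsub).trans ((card_union_le _ _).trans
      (add_le_add card_image_le card_image_le))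
  -- counting
  have h3 : (Z.image c).card + ((W \ Z).image c).card ≤ tau b W := by
    refine le_trans ?_ hcc
    rw [← card_union_of_disjoint]
    · apply card_le_card
      intro y hy
      rcases mem_union.mp hy with hy | hy
      · obtain ⟨v, hv, rfl⟩ := mem_image.mp hy
        exact mem_image_of_mem _ (hZW v hv)
      · obtain ⟨v, hv, rfl⟩ := mem_image.mp hy
        exact mem_image_of_mem _ (mem_sdiff.mp hv).1
    · rw [disjoint_left]
      intro y hy hy2
      obtain ⟨v, hv, rfl⟩ := mem_image.mp hy
      obtain ⟨w, hw, hwv⟩ := mem_image.mp hy2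
      exact (mem_sdiff.mp hw).2 (hZc v hv w (mem_sdiff.mp hw).1 hwv.symm)
  have h4 : 2 * (Z.image l).card = Z.card + (ex μ Z).card := parts_card hμ.1.inv hZμ
  have h5 : 2 * ((U \ Z).image l).card = (U \ Z).card + (ex μ (U \ Z)).card :=
    parts_card hμ.1.inv hZμ'
  have h6 : Z.card + (U \ Z).card = U.card := by
    rw [card_sdiff_of_subset hZU]
    have := card_le_card hZU
    omega
  have h7 : (ex μ Z).card + (ex μ (U \ Z)).card = (ex μ U).card := by
    rw [← card_union_of_disjoint]
    · congr 1
      ext v
      rw [mem_union, mem_ex, mem_ex, mem_ex, mem_sdiff]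
      constructor
      · rintro (h | h)
        · exact ⟨hZU h.1, h.2⟩
        · exact ⟨h.1.1, h.2⟩
      · intro h
        by_cases hv : v ∈ Z
        · exact Or.inl ⟨hv, h.2⟩
        · exact Or.inr ⟨⟨h.1, hv⟩, h.2⟩
    · rw [disjoint_left]
      intro v hv hv2
      exact (mem_sdiff.mp (mem_ex.mp hv2).1).2 (mem_ex.mp hv).1
  have h8 := hμ.2
  omega

end Pool.Agent.Helper20.C5
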