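import Pool.Agent.Helper20.C5.Alw

/-!
# Traces: number of blocks, excess, components
-/

set_option linter.unusedSectionVars false

open Finset

namespace Pool.Agent.Helper20.C5

variable {α ι : Type} [DecidableEq α] [DecidableEq ι] [Fintype ι]

/-- The blocks meeting `U`. -/
def mt (b : ι → Finset α) (U : Finset α) : Finset ι := univ.filter fun i => (b i ∩ U).Nonempty

/-- The number of blocks meeting `U`. -/
def nb (b : ι → Finset α) (U : Finset α) : ℕ := (mt b U).card

/-- The excess. -/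
noncomputable def ee (b : ι → Finset α) (U : Finset α) : ℤ :=
  2 * ((nb b U : ℤ) + U.card) - 11 * tau b U

/-- The system axioms for the trace on `U`. -/
structure Sys (b : ι → Finset α) (U : Finset α) : Prop where
  deg : ∀ x ∈ U, (univ.filter fun i => x ∈ b i).card = 5
  sz : ∀ i, (b i ∩ U).card ≤ 3

/-- The special points: at least two own singletons. -/
def sp (b : ι → Finset α) (U : Finset α) : Finset α :=
  U.filter fun x => 2 ≤ (univ.filter fun i => b i ∩ U = {x}).card

/-- Type `D`. -/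
def Dt (b : ι → Finset α) (U : Finset α) : Prop := U.card = 6 ∧ nb b U = 10 ∧ tau b U = 3

/-- Connected. -/
def Con (b : ι → Finset α) (U : Finset α) : Prop :=
  ∀ x ∈ U, ∀ y ∈ U, (Bg b U).Reachable x y

theorem mem_mt {b : ι → Finset α} {U : Finset α} {i : ι} :
    i ∈ mt b U ↔ ∃ x ∈ U, x ∈ b i := by
  unfold mt
  rw [mem_filter]
  constructor
  · rintro ⟨-, x, hx⟩
    rw [mem_inter] at hx
    exact ⟨x, hx.2, hx.1⟩
  · rintro ⟨x, hx, hx2⟩
    exact ⟨mem_univ _, x, mem_inter.mpr ⟨hx2, hx⟩⟩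

theorem mt_mono {b : ι → Finset α} {U W : Finset α} (h : W ⊆ U) : mt b W ⊆ mt b U := by
  intro i hi
  rw [mem_mt] at hi ⊢
  obtain ⟨x, hx, hx2⟩ := hi
  exact ⟨x, h hx, hx2⟩

theorem nb_mono {b : ι → Finset α} {U W : Finset α} (h : W ⊆ U) : nb b W ≤ nb b U :=
  card_le_card (mt_mono h)

theorem Sys.mono {b : ι → Finset α} {U W : Finset α} (h : Sys b U) (hW : W ⊆ U) : Sys b W :=
  ⟨fun x hx => h.deg x (hW hx), fun i => (card_le_card (inter_subset_inter_left hW)).trans (h.sz i)⟩

theorem Sys.cb {b : ι → Finset α} {U : Finset α} (h : Sys b U) : Cb b U := by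
  intro x hx
  have h1 := h.deg x hx
  have h2 : (univ.filter fun i => x ∈ b i).Nonempty := card_pos.mp (by omega)
  obtain ⟨i, hi⟩ := h2
  exact ⟨i, (mem_filter.mp hi).2⟩

/-! ## Separated sets -/

/-- No block meets both sets. -/
def Sep (b : ι → Finset α) (A B : Finset α) : Prop := ∀ i, ∀ x ∈ A, ∀ y ∈ B, x ∈ b i → y ∉ b i

theorem Sep.symm {b : ι → Finset α} {A B : Finset α} (h : Sep b A B) : Sep b B A :=
  fun i x hx y hy hxi hyi => h i y hy x hx hyi hxi

theorem Sep.mono {b : ι → Finset α} {A B A' B' : Finset α} (h : Sep b A B) (hA : A' ⊆ A)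
    (hB : B' ⊆ B) : Sep b A' B' := fun i x hx y hy => h i x (hA hx) y (hB hy)

theorem Sep.disj {b : ι → Finset α} {A B : Finset α} (h : Sep b A B) (hc : Cb b A) :
    Disjoint A B := by
  rw [disjoint_left]
  intro x hx hx2
  obtain ⟨i, hi⟩ := hc x hx
  exact h i x hx x hx2 hi hi

theorem nb_sep {b : ι → Finset α} {A B : Finset α} (h : Sep b A B) :
    nb b (A ∪ B) = nb b A + nb b B := by
  unfold nb
  rw [← card_union_of_disjoint]
  · congr 1
    ext i
    rw [mem_union, mem_mt, mem_mt, mem_mt]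
    constructor
    · rintro ⟨x, hx, hx2⟩
      rcases mem_union.mp hx with h1 | h1
      · exact Or.inl ⟨x, h1, hx2⟩
      · exact Or.inr ⟨x, h1, hx2⟩
    · rintro (⟨x, hx, hx2⟩ | ⟨x, hx, hx2⟩)
      · exact ⟨x, mem_union_left _ hx, hx2⟩
      · exact ⟨x, mem_union_right _ hx, hx2⟩
  · rw [disjoint_left]
    intro i hi hi2
    obtain ⟨x, hx, hx2⟩ := mem_mt.mp hi
    obtain ⟨y, hy, hy2⟩ := mem_mt.mp hi2
    exact h i x hx y hy hx2 hy2

theorem tau_sep {b : ι → Finset α} {A B : Finset α} (h : Sep b A B) (hA : Cb b A)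
    (hB : Cb b B) : tau b (A ∪ B) = tau b A + tau b B := by
  apply le_antisymm (tau_union hA hB)
  have hAB : Cb b (A ∪ B) := by
    intro x hx
    rcases mem_union.mp hx with h1 | h1
    · exact hA x h1
    · exact hB x h1
  obtain ⟨s, hs, h1⟩ := tau_cv hAB
  have h2 : tau b A ≤ (s ∩ mt b A).card := by
    apply tau_le
    refine ⟨s ∩ mt b A, le_rfl, fun x hx => ?_⟩
    obtain ⟨i, hi, hi2⟩ := h1 x (mem_union_left _ hx)
    exact ⟨i, mem_inter.mpr ⟨hi, mem_mt.mpr ⟨x, hx, hi2⟩⟩, hi2⟩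
  have h3 : tau b B ≤ (s ∩ mt b B).card := by
    apply tau_le
    refine ⟨s ∩ mt b B, le_rfl, fun x hx => ?_⟩
    obtain ⟨i, hi, hi2⟩ := h1 x (mem_union_right _ hx)
    exact ⟨i, mem_inter.mpr ⟨hi, mem_mt.mpr ⟨x, hx, hi2⟩⟩, hi2⟩
  have h4 : (s ∩ mt b A).card + (s ∩ mt b B).card ≤ s.card := by
    rw [← card_union_of_disjoint]
    · apply card_le_card
      intro i hi
      rcases mem_union.mp hi with h5 | h5
      · exact (mem_inter.mp h5).1
      · exact (mem_inter.mp h5).1
    · rw [disjoint_left]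
      intro i hi hi2
      obtain ⟨x, hx, hx2⟩ := mem_mt.mp (mem_inter.mp hi).2
      obtain ⟨y, hy, hy2⟩ := mem_mt.mp (mem_inter.mp hi2).2
      exact h i x hx y hy hx2 hy2
  omega

theorem ee_sep {b : ι → Finset α} {A B : Finset α} (h : Sep b A B) (hA : Cb b A)
    (hB : Cb b B) : ee b (A ∪ B) = ee b A + ee b B := by
  unfold ee
  rw [nb_sep h, tau_sep h hA hB, card_union_of_disjoint (h.disj hA)]
  push_cast
  ring

/-- The part of a matching inside a separated piece. -/
theorem Mt.sep {b : ι → Finset α} {A B : Finset α} {μ : α → α} (h : Mt b (A ∪ B) μ)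
    (hs : Sep b A B) : ∀ x ∈ A, μ x ∈ A := by
  intro x hx
  by_cases h1 : μ x = x
  · rwa [h1]
  · obtain ⟨i, hi, hi2⟩ := h.adj x h1
    have h2 := h.mem (mem_union_left B hx)
    rcases mem_union.mp h2 with h3 | h3
    · exact h3
    · exact absurd hi2 (hs i x hx _ h3 hi)

/-- Restriction of a matching to a closed set. -/
def res (A : Finset α) (μ : α → α) : α → α := fun x => if x ∈ A then μ x else x

theorem res_mt {b : ι → Finset α} {U A : Finset α} {μ : α → α} (h : Mt b U μ)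
    (hA : ∀ x ∈ A, μ x ∈ A) : Mt b A (res A μ) := by
  refine ⟨?_, ?_, ?_⟩
  · intro x
    unfold res
    by_cases h1 : x ∈ A
    · rw [if_pos h1, if_pos (hA x h1), h.inv]
    · rw [if_neg h1, if_neg h1]
  · intro x hx
    unfold res
    rw [if_neg hx]
  · intro x hx
    unfold res at hx ⊢
    by_cases h1 : x ∈ A
    · rw [if_pos h1] at hx ⊢
      exact h.adj x hx
    · rw [if_neg h1] at hx
      exact absurd rfl hx

theorem res_ex {A : Finset α} {μ : α → α} : ex (res A μ) A = ex μ A := by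
  ext x
  rw [mem_ex, mem_ex]
  unfold res
  by_cases h1 : x ∈ A
  · rw [if_pos h1]
  · exact ⟨fun h => absurd h.1 h1, fun h => absurd h.1 h1⟩

theorem ex_union {A B : Finset α} {μ : α → α} (h : Disjoint A B) :
    (ex μ (A ∪ B)).card = (ex μ A).card + (ex μ B).card := by
  unfold ex
  rw [filter_union, card_union_of_disjoint (disjoint_filter_filter h)]

theorem cc_sep {b : ι → Finset α} {A B : Finset α} (h : Sep b A B) (hA : Cb b A)
    (hB : Cb b B) (hc : CC b (A ∪ B)) : CC b A ∧ CC b B := by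
  obtain ⟨μ, hμ, hμ2⟩ := hc
  have h1 := hμ.sep h
  have hμ' : Mt b (B ∪ A) μ := by rwa [union_comm] at hμ
  have h2 := hμ'.sep h.symm
  have h3 := (res_mt hμ h1).two_tau_le hA
  have h4 := (res_mt hμ h2).two_tau_le hB
  rw [res_ex] at h3 h4
  have hd := h.disj hA
  rw [ex_union hd, card_union_of_disjoint hd, tau_sep h hA hB] at hμ2
  refine ⟨⟨_, res_mt hμ h1, ?_⟩, ⟨_, res_mt hμ h2, ?_⟩⟩
  · rw [res_ex]
    omega
  · rw [res_ex]
    omega

/-! ## Restriction -/

/-- Restriction of a matching to the complement of `B`. -/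
def cut (B : Finset α) (μ : α → α) : α → α := fun x => if x ∈ B ∨ μ x ∈ B then x else μ x

theorem cut_mt {b : ι → Finset α} {U : Finset α} (B : Finset α) {μ : α → α} (h : Mt b U μ) :
    Mt b (U \ B) (cut B μ) := by
  refine ⟨?_, ?_, ?_⟩
  · intro x
    unfold cut
    by_cases h1 : x ∈ B ∨ μ x ∈ B
    · rw [if_pos h1, if_pos h1]
    · rw [if_neg h1]
      rw [not_or] at h1
      rw [if_neg, h.inv]
      rw [h.inv, not_or]
      exact ⟨h1.2, h1.1⟩
  · intro x hx
    unfold cut
    by_cases h1 : x ∈ B ∨ μ x ∈ B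
    · rw [if_pos h1]
    · rw [if_neg h1]
      apply h.out
      intro h2
      apply hx
      rw [mem_sdiff]
      exact ⟨h2, fun h3 => h1 (Or.inl h3)⟩
  · intro x hx
    unfold cut at hx ⊢
    by_cases h1 : x ∈ B ∨ μ x ∈ B
    · rw [if_pos h1] at hx
      exact absurd rfl hx
    · rw [if_neg h1] at hx ⊢
      exact h.adj x hx

theorem cut_ex {b : ι → Finset α} {U : Finset α} {B : Finset α} {μ : α → α} (h : Mt b U μ)
    (hB : B ⊆ U) : (ex (cut B μ) (U \ B)).card + (ex μ B).card ≤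
      (ex μ U).card + (B.filter fun x => μ x ∉ B).card := by
  have h1 : ex (cut B μ) (U \ B) ⊆ ex μ (U \ B) ∪ (B.filter fun x => μ x ∉ B).image μ := by
    intro x hx
    rw [mem_ex, mem_sdiff] at hx
    obtain ⟨⟨hxU, hxB⟩, hx2⟩ := hx
    rw [mem_union]
    by_cases h2 : μ x = x
    · left
      rw [mem_ex, mem_sdiff]
      exact ⟨⟨hxU, hxB⟩, h2⟩
    · right
      unfold cut at hx2
      by_cases h3 : x ∈ B ∨ μ x ∈ B
      · rcases h3 with h3 | h3
        · exact absurd h3 hxB
        · refine mem_image.mpr ⟨μ x, mem_filter.mpr ⟨h3, ?_⟩, h.inv x⟩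
          rwa [h.inv]
      · rw [if_neg h3] at hx2
        exact absurd hx2 h2
  have h2 := (card_le_card h1).trans (card_union_le _ _)
  have h3 : ((B.filter fun x => μ x ∉ B).image μ).card ≤ (B.filter fun x => μ x ∉ B).card :=
    card_image_le
  have h4 : (ex μ U).card = (ex μ B).card + (ex μ (U \ B)).card := mix_self_ex hB
  omega

/-- Redundant sets. -/
theorem cc_red {b : ι → Finset α} {U A : Finset α} (hc : Cb b U) (hU : CC b U) (hA : A ⊆ U)
    (h : tau b (U \ A) = tau b U) : CC b (U \ A) := by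
  obtain ⟨μ, hμ, hμ2⟩ := hU
  refine ⟨_, cut_mt A hμ, ?_⟩
  have h1 := (cut_mt A hμ).two_tau_le (hc.mono sdiff_subset)
  have h2 := cut_ex hμ hA
  have h3 : (A.filter fun x => μ x ∉ A).card ≤ A.card := card_le_card (filter_subset _ _)
  have h4 := card_sdiff_of_subset hA
  have h5 := card_le_card hA
  omega

/-- Faces. -/
theorem cc_face {b : ι → Finset α} {U P : Finset α} (hc : Cb b U) {μ : α → α} (hU : Om b U μ)
    (hP : P ⊆ U) (hP3 : P.card = 3) {p : α} (hp : p ∈ P) (hμp : μ p = p)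
    (h : tau b (U \ P) + 1 = tau b U) : CC b (U \ P) := by
  obtain ⟨hμ, hμ2⟩ := hU
  refine ⟨_, cut_mt P hμ, ?_⟩
  have h1 := (cut_mt P hμ).two_tau_le (hc.mono sdiff_subset)
  have h2 := cut_ex hμ hP
  have h3 : (P.filter fun x => μ x ∉ P).card ≤ 2 := by
    have h4 : (P.filter fun x => μ x ∉ P) ⊆ P.erase p := by
      intro x hx
      rw [mem_filter] at hx
      rw [mem_erase]
      refine ⟨fun h5 => hx.2 ?_, hx.1⟩
      rw [h5, hμp]
      exact hp
    have h5 := card_le_card h4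
    rw [card_erase_of_mem hp, hP3] at h5
    exact h5
  have h6 : 0 < (ex μ P).card := card_pos.mpr ⟨p, mem_ex.mpr ⟨hp, hμp⟩⟩
  have h4 := card_sdiff_of_subset hP
  have h5 := card_le_card hP
  omega

/-! ## Components -/

open Classical in
/-- The component of `x`. -/
noncomputable def Cmp (b : ι → Finset α) (U : Finset α) (x : α) : Finset α :=
  U.filter fun y => (Bg b U).Reachable x y

theorem mem_Cmp {b : ι → Finset α} {U : Finset α} {x y : α} :
    y ∈ Cmp b U x ↔ y ∈ U ∧ (Bg b U).Reachable x y := by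
  classical
  unfold Cmp
  rw [mem_filter]

theorem Cmp_sub {b : ι → Finset α} {U : Finset α} {x : α} : Cmp b U x ⊆ U :=
  fun _ h => (mem_Cmp.mp h).1

theorem self_Cmp {b : ι → Finset α} {U : Finset α} {x : α} (hx : x ∈ U) : x ∈ Cmp b U x :=
  mem_Cmp.mpr ⟨hx, SimpleGraph.Reachable.refl x⟩

theorem Cmp_sep {b : ι → Finset α} {U : Finset α} {x : α} :
    Sep b (Cmp b U x) (U \ Cmp b U x) := by
  intro i y hy z hz hyi hzi
  rw [mem_sdiff] at hz
  apply hz.2
  by_cases h : y = z
  · rwa [← h]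
  rw [mem_Cmp] at hy ⊢
  exact ⟨hz.1, hy.2.trans (SimpleGraph.Adj.reachable
    (show (Bg b U).Adj y z from ⟨h, hy.1, hz.1, i, hyi, hzi⟩))⟩

theorem Cmp_con {b : ι → Finset α} {U : Finset α} {x : α} : Con b (Cmp b U x) := by
  have key : ∀ (y z : α) (p : (Bg b U).Walk y z), y ∈ Cmp b U x →
      (Bg b (Cmp b U x)).Reachable y z := by
    intro y z p
    induction p with
    | nil => exact fun _ => SimpleGraph.Reachable.refl _
    | @cons y w z hadj q ih =>
      intro hy
      obtain ⟨h1, h2, h3, i, h4, h5⟩ := hadj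
      have hw : w ∈ Cmp b U x := by
        rw [mem_Cmp] at hy ⊢
        exact ⟨h3, hy.2.trans (SimpleGraph.Adj.reachable
          (show (Bg b U).Adj y w from ⟨h1, h2, h3, i, h4, h5⟩))⟩
      exact (SimpleGraph.Adj.reachable
        (show (Bg b (Cmp b U x)).Adj y w from ⟨h1, hy, hw, i, h4, h5⟩)).trans (ih hw)
  intro y hy z hz
  have h1 := (mem_Cmp.mp hy).2
  have h2 := (mem_Cmp.mp hz).2
  obtain ⟨p⟩ := h1.symm.trans h2
  exact key y z p hy

theorem Cmp_eq {b : ι → Finset α} {U : Finset α} {x y : α} (h : y ∈ Cmp b U x) :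
    Cmp b U y = Cmp b U x := by
  ext z
  rw [mem_Cmp, mem_Cmp]
  have h1 := (mem_Cmp.mp h).2
  exact ⟨fun h2 => ⟨h2.1, h1.trans h2.2⟩, fun h2 => ⟨h2.1, h1.symm.trans h2.2⟩⟩

/-- The components. -/
noncomputable def cps (b : ι → Finset α) (U : Finset α) : Finset (Finset α) := U.image (Cmp b U)

theorem mem_cps {b : ι → Finset α} {U C : Finset α} :
    C ∈ cps b U ↔ ∃ x ∈ U, Cmp b U x = C := by
  unfold cps
  rw [mem_image]

theorem cps_sub {b : ι → Finset α} {U C : Finset α} (h : C ∈ cps b U) : C ⊆ U := by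
  obtain ⟨x, -, rfl⟩ := mem_cps.mp h
  exact Cmp_sub

theorem cps_ne {b : ι → Finset α} {U C : Finset α} (h : C ∈ cps b U) : C.Nonempty := by
  obtain ⟨x, hx, rfl⟩ := mem_cps.mp h
  exact ⟨x, self_Cmp hx⟩

theorem cps_con {b : ι → Finset α} {U C : Finset α} (h : C ∈ cps b U) : Con b C := by
  obtain ⟨x, -, rfl⟩ := mem_cps.mp h
  exact Cmp_con

theorem cps_mem_eq {b : ι → Finset α} {U C : Finset α} (h : C ∈ cps b U) {x : α} (hx : x ∈ C) :
    Cmp b U x = C := by
  obtain ⟨y, -, rfl⟩ := mem_cps.mp h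
  exact Cmp_eq hx

theorem cps_sep {b : ι → Finset α} {U C : Finset α} (h : C ∈ cps b U) : Sep b C (U \ C) := by
  obtain ⟨x, -, rfl⟩ := mem_cps.mp h
  exact Cmp_sep

theorem cps_disj {b : ι → Finset α} {U C C' : Finset α} (h : C ∈ cps b U) (h' : C' ∈ cps b U)
    (hne : C ≠ C') : Disjoint C C' := by
  rw [disjoint_left]
  intro x hx hx'
  exact hne ((cps_mem_eq h hx).symm.trans (cps_mem_eq h' hx'))

theorem cps_union {b : ι → Finset α} {U : Finset α} : (cps b U).biUnion id = U := by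
  ext x
  rw [mem_biUnion]
  constructor
  · rintro ⟨C, hC, hx⟩
    exact cps_sub hC hx
  · intro hx
    exact ⟨Cmp b U x, mem_cps.mpr ⟨x, hx, rfl⟩, self_Cmp hx⟩

/-- Additive functions are sums over the components. -/
theorem sum_cps {b : ι → Finset α} {U : Finset α} (hc : Cb b U) {M : Type} [AddCommMonoid M]
    (f : Finset α → M) (h0 : f ∅ = 0)
    (hf : ∀ A B, A ⊆ U → B ⊆ U → Disjoint A B → Sep b A B → f (A ∪ B) = f A + f B) :
    f U = ∑ C ∈ cps b U, f C := by
  have key : ∀ S : Finset (Finset α), S ⊆ cps b U → f (S.biUnion id) = ∑ C ∈ S, f C := by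
    intro S
    induction S using Finset.induction_on with
    | empty =>
      intro _
      rw [biUnion_empty, h0, sum_empty]
    | insert C S hC ih =>
      intro hS
      have h1 : C ∈ cps b U := hS (mem_insert_self _ _)
      have h2 : S ⊆ cps b U := fun x hx => hS (mem_insert_of_mem hx)
      have h3 : S.biUnion id ⊆ U \ C := by
        intro x hx
        obtain ⟨C', hC', hx'⟩ := mem_biUnion.mp hx
        have h4 : C' ≠ C := fun h => hC (h ▸ hC')
        rw [mem_sdiff]
        refine ⟨cps_sub (h2 hC') hx', fun h5 => ?_⟩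
        exact (disjoint_left.mp (cps_disj (h2 hC') h1 h4)) hx' h5
      have h4 : Sep b C (S.biUnion id) := (cps_sep h1).mono (Subset.refl C) h3
      rw [biUnion_insert, sum_insert hC, ← ih h2]
      exact hf C _ (cps_sub h1) (h3.trans sdiff_subset)
        (h4.disj (hc.mono (cps_sub h1))) h4
  have := key (cps b U) (Subset.refl _)
  rwa [cps_union] at this

theorem cps_cc {b : ι → Finset α} {U : Finset α} (hc : Cb b U) (hU : CC b U) {C : Finset α}
    (h : C ∈ cps b U) : CC b C := by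
  have h1 := cps_sep h
  have h2 : C ∪ (U \ C) = U := union_sdiff_of_subset (cps_sub h)
  rw [← h2] at hU
  exact (cc_sep h1 (hc.mono (cps_sub h)) (hc.mono sdiff_subset) hU).1

theorem ee_empty {b : ι → Finset α} : ee b ∅ = 0 := by
  unfold ee
  have h1 : nb b ∅ = 0 := by
    unfold nb
    rw [card_eq_zero]
    ext i
    rw [mem_mt]
    constructor
    · rintro ⟨x, hx, -⟩
      exact absurd hx (notMem_empty x)
    · exact fun h => absurd h (notMem_empty i)
  rw [h1, tau_empty, card_empty]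
  rfl

theorem ee_cps {b : ι → Finset α} {U : Finset α} (hc : Cb b U) :
    ee b U = ∑ C ∈ cps b U, ee b C :=
  sum_cps hc (ee b) ee_empty fun _ _ hA hB _ hs => ee_sep hs (hc.mono hA) (hc.mono hB)

theorem tau_cps {b : ι → Finset α} {U : Finset α} (hc : Cb b U) :
    tau b U = ∑ C ∈ cps b U, tau b C :=
  sum_cps hc (tau b) tau_empty fun _ _ hA hB _ hs => tau_sep hs (hc.mono hA) (hc.mono hB)

theorem card_cps {b : ι → Finset α} {U : Finset α} (hc : Cb b U) :
    U.card = ∑ C ∈ cps b U, C.card :=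
  sum_cps hc card card_empty fun _ _ _ _ hd _ => card_union_of_disjoint hd

theorem filter_cps {b : ι → Finset α} {U : Finset α} (hc : Cb b U) (T : Finset α) :
    (U ∩ T).card = ∑ C ∈ cps b U, (C ∩ T).card :=
  sum_cps hc (fun A => (A ∩ T).card) (by rw [empty_inter, card_empty])
    fun A B _ _ hd _ => by
      show ((A ∪ B) ∩ T).card = (A ∩ T).card + (B ∩ T).card
      rw [union_inter_distrib_right, card_union_of_disjoint]
      exact disjoint_of_subset_left inter_subset_left
        (disjoint_of_subset_right inter_subset_left hd)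

/-! ## Types of critical components -/

/-- No nonempty redundant subset. -/
def Crit (b : ι → Finset α) (U : Finset α) : Prop :=
  ∀ A, A ⊆ U → A.Nonempty → tau b (U \ A) < tau b U

/-- K-type: factor-critical with `2 tau = |K| + 1`. -/
structure KT (b : ι → Finset α) (K : Finset α) : Prop where
  con : Con b K
  tau : 2 * tau b K = K.card + 1
  fc : ∀ x ∈ K, ∃ ν, Om b K ν ∧ ν x = x

/-- C-type: perfectly matchable with `2 tau = |C|`, critical. -/
structure CT (b : ι → Finset α) (C : Finset α) : Prop where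
  con : Con b C
  tau : 2 * tau b C = C.card
  pm : ∃ μ, Om b C μ ∧ ∀ x ∈ C, μ x ≠ x
  cr : ∀ x ∈ C, Pool.Agent.Helper20.C5.tau b (C.erase x) + 1 = Pool.Agent.Helper20.C5.tau b C

theorem tau_erase_le {b : ι → Finset α} {U : Finset α} (hc : Cb b U) {x : α} (hx : x ∈ U) :
    tau b U ≤ tau b (U.erase x) + 1 := by
  have h1 : U.erase x ∪ {x} = U := by
    rw [union_comm]
    exact insert_erase hx
  obtain ⟨i, hi⟩ := hc x hx
  have h2 : tau b {x} ≤ 1 := tau_le (cv_block i (singleton_subset_iff.mpr hi))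
  have h3 := tau_union (hc.mono (erase_subset x U)) (hc.mono (singleton_subset_iff.mpr hx))
  rw [h1] at h3
  omega

/-- **F3.** -/
theorem kt_or_ct {b : ι → Finset α} {U : Finset α} (hc : Cb b U) (hU : CC b U)
    (hcon : Con b U) (hcr : Crit b U) (hne : U.Nonempty) : KT b U ∨ CT b U := by
  classical
  have hcr1 : ∀ x ∈ U, tau b (U.erase x) + 1 = tau b U := by
    intro x hx
    have h1 := hcr {x} (singleton_subset_iff.mpr hx) (singleton_nonempty x)
    rw [sdiff_singleton_eq_erase] at h1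
    have h2 := tau_erase_le hc hx
    omega
  by_cases hpm : ∃ μ, Om b U μ ∧ ∀ x ∈ U, μ x ≠ x
  · right
    refine ⟨hcon, ?_, hpm, hcr1⟩
    obtain ⟨μ, hμ, hμ0⟩ := hpm
    have h1 : ex μ U = ∅ := by
      ext x
      rw [mem_ex]
      exact ⟨fun h => absurd h.2 (hμ0 x h.1), fun h => absurd h (notMem_empty x)⟩
    have h2 := hμ.2
    rw [h1, card_empty] at h2
    omega
  · left
    have hex : ∀ μ, Om b U μ → ∃ x ∈ U, μ x = x := by
      intro μ hμ
      by_contra hcon2
      apply hpm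
      exact ⟨μ, hμ, fun x hx h => hcon2 ⟨x, hx, h⟩⟩
    have hall : ∀ x ∈ U, ∃ ν, Om b U ν ∧ ν x = x := by
      by_contra hcon2
      rw [not_forall] at hcon2
      obtain ⟨a, ha⟩ := hcon2
      rw [Classical.not_imp] at ha
      obtain ⟨ha, hna⟩ := ha
      obtain ⟨μ, hμ⟩ := hU
      obtain ⟨u0, hu0, hμu0⟩ := hex μ hμ
      -- an edge from an inessential to an essential point
      have hwalk : ∀ (x y : α) (p : (Bg b U).Walk x y), x ∈ U → (∃ ν, Om b U ν ∧ ν x = x) →
          (¬ ∃ ν, Om b U ν ∧ ν y = y) → ∃ u v, u ∈ U ∧ v ∈ U ∧ u ≠ v ∧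
            (∃ i, u ∈ b i ∧ v ∈ b i) ∧ (∃ ν, Om b U ν ∧ ν u = u) ∧
            ¬ ∃ ν, Om b U ν ∧ ν v = v := by
        intro x y p
        induction p with
        | nil => exact fun _ h1 h2 => absurd h1 h2
        | @cons x w y hadj q ih =>
          intro hx h1 h2
          obtain ⟨h3, h4, h5, i, h6, h7⟩ := hadj
          by_cases h8 : ∃ ν, Om b U ν ∧ ν w = w
          · exact ih h5 h8 h2
          · exact ⟨x, w, hx, h5, h3, ⟨i, h6, h7⟩, h1, h8⟩
      obtain ⟨p⟩ := hcon u0 hu0 a ha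
      obtain ⟨u, v, hu, hv, huv, ⟨i, hi, hi2⟩, ⟨ν, hν, hνu⟩, hnv⟩ :=
        hwalk u0 a p hu0 ⟨μ, hμ, hμu0⟩ hna
      have h1 := redundant hc hν hu hv huv hi hi2 hνu (fun ν' h2 h3 => hnv ⟨ν', h2, h3⟩)
      have h2 := hcr1 v hv
      omega
    obtain ⟨μ, hμ⟩ := hU
    have h1 := gallai hc hcon hall hμ
    obtain ⟨x, hx, hx2⟩ := hex μ hμ
    have h2 : 0 < (ex μ U).card := card_pos.mpr ⟨x, mem_ex.mpr ⟨hx, hx2⟩⟩
    have h3 := hμ.2
    exact ⟨hcon, by omega, hall⟩

end Pool.Agent.Helper20.C5
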