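import Mathlib

/-!
# Covers and matchings in a family of blocks

`tau b U` is the least number of blocks of the family `b` which cover the finite set `U`.
A matching of `U` is an involution `μ` which moves points only inside blocks.
-/

set_option linter.unusedSectionVars false

open Finset

namespace Pool.Agent.Helper20.C5

variable {α ι : Type} [DecidableEq α] [DecidableEq ι] [Fintype ι]

/-- `U` can be covered by `k` blocks. -/
def Cv (b : ι → Finset α) (U : Finset α) (k : ℕ) : Prop :=
  ∃ s : Finset ι, s.card ≤ k ∧ ∀ x ∈ U, ∃ i ∈ s, x ∈ b i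

/-- The least number of blocks covering `U`. -/
noncomputable def tau (b : ι → Finset α) (U : Finset α) : ℕ := sInf {k | Cv b U k}

/-- Every point of `U` is in a block. -/
def Cb (b : ι → Finset α) (U : Finset α) : Prop := ∀ x ∈ U, ∃ i, x ∈ b i

theorem Cb.mono {b : ι → Finset α} {U W : Finset α} (h : Cb b U) (hW : W ⊆ U) : Cb b W :=
  fun x hx => h x (hW hx)

theorem Cb.cv {b : ι → Finset α} {U : Finset α} (h : Cb b U) : Cv b U (Fintype.card ι) :=
  ⟨univ, le_of_eq rfl, fun x hx => by
    obtain ⟨i, hi⟩ := h x hx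
    exact ⟨i, mem_univ i, hi⟩⟩

theorem Cv.mono {b : ι → Finset α} {U W : Finset α} {k l : ℕ} (h : Cv b U k) (hW : W ⊆ U)
    (hkl : k ≤ l) : Cv b W l := by
  obtain ⟨s, hs, h1⟩ := h
  exact ⟨s, hs.trans hkl, fun x hx => h1 x (hW hx)⟩

theorem tau_le {b : ι → Finset α} {U : Finset α} {k : ℕ} (h : Cv b U k) : tau b U ≤ k :=
  Nat.sInf_le h

theorem tau_cv {b : ι → Finset α} {U : Finset α} (h : Cb b U) : Cv b U (tau b U) :=
  Nat.sInf_mem (s := {k | Cv b U k}) ⟨_, h.cv⟩

theorem tau_mono {b : ι → Finset α} {U W : Finset α} (h : Cb b U) (hW : W ⊆ U) :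
    tau b W ≤ tau b U := tau_le ((tau_cv h).mono hW le_rfl)

theorem cv_union {b : ι → Finset α} {U W : Finset α} {k l : ℕ} (h : Cv b U k) (h' : Cv b W l) :
    Cv b (U ∪ W) (k + l) := by
  obtain ⟨s, hs, h1⟩ := h
  obtain ⟨t, ht, h2⟩ := h'
  refine ⟨s ∪ t, (card_union_le s t).trans (by omega), ?_⟩
  intro x hx
  rcases mem_union.mp hx with hx | hx
  · obtain ⟨i, hi, hi2⟩ := h1 x hx
    exact ⟨i, mem_union_left _ hi, hi2⟩
  · obtain ⟨i, hi, hi2⟩ := h2 x hx
    exact ⟨i, mem_union_right _ hi, hi2⟩

theorem tau_union {b : ι → Finset α} {U W : Finset α} (h : Cb b U) (h' : Cb b W) :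
    tau b (U ∪ W) ≤ tau b U + tau b W := tau_le (cv_union (tau_cv h) (tau_cv h'))

theorem cv_block {b : ι → Finset α} {U : Finset α} (i : ι) (h : U ⊆ b i) : Cv b U 1 :=
  ⟨{i}, by simp, fun x hx => ⟨i, mem_singleton_self i, h hx⟩⟩

theorem tau_empty {b : ι → Finset α} : tau b ∅ = 0 :=
  Nat.le_zero.mp (tau_le ⟨∅, by simp, fun x hx => absurd hx (notMem_empty x)⟩)

/-- A labelling whose fibres are inside blocks. -/
theorem tau_label {β : Type} [DecidableEq β] {b : ι → Finset α} {U : Finset α} (κ : α → β)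
    (h : ∀ y ∈ U.image κ, ∃ i, ∀ x ∈ U, κ x = y → x ∈ b i) : tau b U ≤ (U.image κ).card := by
  classical
  rcases U.eq_empty_or_nonempty with hU | ⟨x0, hx0⟩
  · subst hU
    rw [tau_empty]
    exact Nat.zero_le _
  have : Nonempty ι := ⟨(h (κ x0) (mem_image_of_mem κ hx0)).choose⟩
  choose! f hf using h
  refine tau_le ⟨(U.image κ).image f, card_image_le, ?_⟩
  intro x hx
  have h1 : κ x ∈ U.image κ := mem_image_of_mem κ hx
  exact ⟨f (κ x), mem_image_of_mem f h1, hf (κ x) h1 x hx rfl⟩

/-- An optimal assignment. -/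
theorem exists_assign {b : ι → Finset α} {U : Finset α} (h : Cb b U) (hU : U.Nonempty) :
    ∃ c : α → ι, (∀ x ∈ U, x ∈ b (c x)) ∧ (U.image c).card ≤ tau b U := by
  classical
  obtain ⟨s, hs, h1⟩ := tau_cv h
  obtain ⟨x0, hx0⟩ := hU
  have : Nonempty ι := ⟨(h1 x0 hx0).choose⟩
  choose! g hg using h1
  refine ⟨g, fun x hx => (hg x hx).2, ?_⟩
  refine le_trans (card_le_card ?_) hs
  intro i hi
  obtain ⟨x, hx, rfl⟩ := mem_image.mp hi
  exact (hg x hx).1

/-! ## Matchings -/

/-- `μ` is an involution which fixes all points outside `U` and moves points inside blocks. -/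
structure Mt (b : ι → Finset α) (U : Finset α) (μ : α → α) : Prop where
  inv : ∀ x, μ (μ x) = x
  out : ∀ x, x ∉ U → μ x = x
  adj : ∀ x, μ x ≠ x → ∃ i, x ∈ b i ∧ μ x ∈ b i

/-- The exposed points. -/
def ex (μ : α → α) (U : Finset α) : Finset α := U.filter fun x => μ x = x

theorem mem_ex {μ : α → α} {U : Finset α} {x : α} : x ∈ ex μ U ↔ x ∈ U ∧ μ x = x := by
  unfold ex
  rw [mem_filter]

theorem Mt.mem {b : ι → Finset α} {U : Finset α} {μ : α → α} (h : Mt b U μ) {x : α}
    (hx : x ∈ U) : μ x ∈ U := by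
  by_contra hc
  have h1 := h.out _ hc
  rw [h.inv] at h1
  rw [← h1] at hc
  exact hc hx

/-- The number of parts of a matching on a closed set. -/
theorem parts_card {μ : α → α} {Z : Finset α} (hi : ∀ x, μ (μ x) = x) (hZ : ∀ x ∈ Z, μ x ∈ Z) :
    2 * (Z.image fun x => ({x, μ x} : Finset α)).card = Z.card + (ex μ Z).card := by
  classical
  have h1 : Z.card = ∑ l ∈ Z.image (fun x => ({x, μ x} : Finset α)),
      (Z.filter fun x => ({x, μ x} : Finset α) = l).card :=
    card_eq_sum_card_image _ _
  have h2 : (ex μ Z).card = ∑ l ∈ Z.image (fun x => ({x, μ x} : Finset α)),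
      ((ex μ Z).filter fun x => ({x, μ x} : Finset α) = l).card := by
    apply card_eq_sum_card_fiberwise
    intro x hx
    exact mem_image_of_mem _ (mem_ex.mp hx).1
  rw [h1, h2, ← sum_add_distrib, card_eq_sum_ones, mul_sum]
  apply sum_congr rfl
  intro l hl
  obtain ⟨x, hx, rfl⟩ := mem_image.mp hl
  have key : ∀ y, ({y, μ y} : Finset α) = {x, μ x} ↔ y = x ∨ y = μ x := by
    intro y
    constructor
    · intro h
      have : y ∈ ({x, μ x} : Finset α) := by
        rw [← h]
        exact mem_insert_self _ _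
      rw [mem_insert, mem_singleton] at this
      exact this
    · rintro (rfl | rfl)
      · rfl
      · rw [hi, pair_comm]
  by_cases hf : μ x = x
  · have e1 : (Z.filter fun y => ({y, μ y} : Finset α) = {x, μ x}) = {x} := by
      ext y
      rw [mem_filter, key, mem_singleton, hf, or_self]
      constructor
      · exact fun h => h.2
      · rintro rfl
        exact ⟨hx, rfl⟩
    have e2 : ((ex μ Z).filter fun y => ({y, μ y} : Finset α) = {x, μ x}) = {x} := by
      ext y
      rw [mem_filter, key, mem_singleton, hf, or_self, mem_ex]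
      constructor
      · exact fun h => h.2
      · rintro rfl
        exact ⟨⟨hx, hf⟩, rfl⟩
    rw [e1, e2]
    rfl
  · have e1 : (Z.filter fun y => ({y, μ y} : Finset α) = {x, μ x}) = {x, μ x} := by
      ext y
      rw [mem_filter, key, mem_insert, mem_singleton]
      constructor
      · exact fun h => h.2
      · rintro (rfl | rfl)
        · exact ⟨hx, Or.inl rfl⟩
        · exact ⟨hZ _ hx, Or.inr rfl⟩
    have e2 : ((ex μ Z).filter fun y => ({y, μ y} : Finset α) = {x, μ x}) = ∅ := by
      ext y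
      rw [mem_filter, key, mem_ex]
      constructor
      · rintro ⟨⟨-, h1⟩, rfl | rfl⟩
        · exact absurd h1 hf
        · rw [hi] at h1
          exact absurd h1.symm hf
      · intro h
        exact absurd h (notMem_empty y)
    rw [e1, e2, card_pair (Ne.symm hf)]
    rfl

/-- A matching gives a cover. -/
theorem Mt.two_tau_le {b : ι → Finset α} {U : Finset α} {μ : α → α} (h : Mt b U μ)
    (hc : Cb b U) : 2 * tau b U ≤ U.card + (ex μ U).card := by
  classical
  rw [← parts_card h.inv fun x hx => h.mem hx]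
  apply Nat.mul_le_mul_left
  apply tau_label
  intro l hl
  obtain ⟨x, hx, rfl⟩ := mem_image.mp hl
  by_cases hf : μ x = x
  · obtain ⟨i, hi⟩ := hc x hx
    refine ⟨i, fun y _ hy => ?_⟩
    have : y ∈ ({x, μ x} : Finset α) := by
      rw [← hy]
      exact mem_insert_self _ _
    rw [hf, pair_eq_singleton, mem_singleton] at this
    rw [this]
    exact hi
  · obtain ⟨i, hi, hi2⟩ := h.adj x hf
    refine ⟨i, fun y _ hy => ?_⟩
    have : y ∈ ({x, μ x} : Finset α) := by
      rw [← hy]
      exact mem_insert_self _ _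
    rw [mem_insert, mem_singleton] at this
    rcases this with rfl | rfl
    · exact hi
    · exact hi2

/-- The class `CC`: a matching is an optimal cover. -/
def CC (b : ι → Finset α) (U : Finset α) : Prop :=
  ∃ μ, Mt b U μ ∧ U.card + (ex μ U).card = 2 * tau b U

/-- Optimal matchings. -/
def Om (b : ι → Finset α) (U : Finset α) (μ : α → α) : Prop :=
  Mt b U μ ∧ U.card + (ex μ U).card = 2 * tau b U

end Pool.Agent.Helper20.C5
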